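import Mathlib

/-!
# UFC A: truncated Lagrange interpolation

`D` analytic germs `a i` at `0`, pairwise different (not equal near `0`).  Choose distinct complex
numbers `b i` (an injection `ι → ℂ`).  `δ i w = ∏_{j ≠ i} (a i w - a j w)`, `V = ∏ i, δ i` is analytic
and not identically `0` near `0`, so `V(w) = w^k u(w)` near `0` with `u` analytic, `u(0) ≠ 0`.  The
polynomial `S(U, w) = ∑_i b i (∏_{i' ≠ i} δ i' w) / u(w) ∏_{j ≠ i} (U - a j w)` has analytic
coefficients, and `S(a i w, w) = w^k b i` near `0`.  Write its coefficients as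
`p_m(w) + w^(k+1) R_m(w)` with `p_m` a polynomial and `R_m` analytic at `0` (Taylor).  Put
`h = ∑ p_m U^m` and `β i w = b i - w ∑_m R_m(w) (a i w)^m`.
-/

set_option autoImplicit false

namespace Pool.Agent.UFC

open Filter Topology Polynomial

theorem dslope_analytic (f : ℂ → ℂ) (hf : AnalyticAt ℂ f 0) : AnalyticAt ℂ (dslope f 0) 0 := by
  obtain ⟨p, hp⟩ := hf
  exact ⟨_, hp.has_fpower_series_dslope_fslope⟩

/-- Taylor polynomial with analytic remainder. -/
theorem taylor_trunc (f : ℂ → ℂ) (hf : AnalyticAt ℂ f 0) (n : ℕ) :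
    ∃ (p : ℂ[X]) (R : ℂ → ℂ), AnalyticAt ℂ R 0 ∧ ∀ᶠ w in 𝓝 (0 : ℂ), f w = p.eval w + w ^ n * R w := by
  induction n with
  | zero => exact ⟨0, f, hf, by simp⟩
  | succ n ih =>
    obtain ⟨p, R, hR, h⟩ := ih
    refine ⟨p + C (R 0) * X ^ n, dslope R 0, dslope_analytic R hR, ?_⟩
    filter_upwards [h] with w hw
    have h1 : R w = R 0 + w * dslope R 0 w := by
      have h2 := sub_smul_dslope R 0 w
      simp only [sub_zero, smul_eq_mul] at h2
      rw [h2]
      ring
    rw [hw]
    simp only [eval_add, eval_mul, eval_C, eval_pow, eval_X]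
    nth_rewrite 1 [h1]
    ring

/-- Polynomials with analytic coefficients. -/
def AnC (S : ℂ → ℂ[X]) : Prop := ∀ l, AnalyticAt ℂ (fun w => (S w).coeff l) 0

theorem AnC.mul {S T : ℂ → ℂ[X]} (hS : AnC S) (hT : AnC T) : AnC (fun w => S w * T w) := by
  intro l
  simp only [coeff_mul]
  exact Finset.analyticAt_fun_sum _ (fun i _ => (hS _).mul (hT _))

theorem AnC.C {f : ℂ → ℂ} (hf : AnalyticAt ℂ f 0) : AnC (fun w => Polynomial.C (f w)) := by
  intro l
  simp only [coeff_C]
  by_cases h : l = 0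
  · simpa [h] using hf
  · simp only [h, if_false]
    exact analyticAt_const

theorem AnC.X : AnC (fun _ => Polynomial.X) := fun _ => analyticAt_const

theorem AnC.one : AnC (fun _ => 1) := fun _ => analyticAt_const

theorem AnC.sub {S T : ℂ → ℂ[X]} (hS : AnC S) (hT : AnC T) : AnC (fun w => S w - T w) := by
  intro l
  simp only [coeff_sub]
  exact (hS l).sub (hT l)

theorem AnC.sum {ι : Type} (s : Finset ι) (S : ι → ℂ → ℂ[X]) (hS : ∀ i ∈ s, AnC (S i)) :
    AnC (fun w => ∑ i ∈ s, S i w) := by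
  intro l
  simp only [finsetSum_coeff]
  exact Finset.analyticAt_fun_sum _ (fun i hi => hS i hi l)

theorem AnC.prod {ι : Type} (s : Finset ι) (S : ι → ℂ → ℂ[X]) (hS : ∀ i ∈ s, AnC (S i)) :
    AnC (fun w => ∏ i ∈ s, S i w) := by
  classical
  induction s using Finset.induction_on with
  | empty => simpa using AnC.one
  | insert i s hi ih =>
    simp only [Finset.prod_insert hi]
    exact (hS i (Finset.mem_insert_self _ _)).mul (ih fun j hj => hS j (Finset.mem_insert_of_mem hj))

theorem interp (ι : Type) [Fintype ι] (a : ι → ℂ → ℂ) (ha : ∀ i, AnalyticAt ℂ (a i) 0)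
    (hne : ∀ i j, i ≠ j → ¬ (a i =ᶠ[𝓝 0] a j)) :
    ∃ (n : ℕ) (h : ℂ[X][X]) (β : ι → ℂ → ℂ), (∀ i, AnalyticAt ℂ (β i) 0) ∧
      Function.Injective (fun i => β i 0) ∧
      ∀ᶠ w in 𝓝 (0 : ℂ), ∀ i, (h.map (evalRingHom w)).eval (a i w) = w ^ n * β i w := by
  classical
  -- distinct numbers
  let b : ι → ℂ := fun i => ((Fintype.equivFin ι i : ℕ) : ℂ)
  have hb : Function.Injective b := by
    intro i j hij
    have h1 : ((Fintype.equivFin ι i : ℕ) : ℂ) = ((Fintype.equivFin ι j : ℕ) : ℂ) := hij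
    have h2 : (Fintype.equivFin ι i : ℕ) = (Fintype.equivFin ι j : ℕ) := by exact_mod_cast h1
    exact (Fintype.equivFin ι).injective (Fin.ext h2)
  let δ : ι → ℂ → ℂ := fun i w => ∏ j ∈ Finset.univ.erase i, (a i w - a j w)
  have hδ : ∀ i, AnalyticAt ℂ (δ i) 0 := fun i =>
    Finset.analyticAt_fun_prod _ (fun j _ => (ha i).sub (ha j))
  let V : ℂ → ℂ := fun w => ∏ i, δ i w
  have hV : AnalyticAt ℂ V 0 := Finset.analyticAt_fun_prod _ (fun i _ => hδ i)
  have hVne : ∀ᶠ w in 𝓝[≠] (0 : ℂ), V w ≠ 0 := by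
    have h1 : ∀ i j, i ≠ j → ∀ᶠ w in 𝓝[≠] (0 : ℂ), a i w - a j w ≠ 0 := by
      intro i j hij
      rcases ((ha i).sub (ha j)).eventually_eq_zero_or_eventually_ne_zero with h | h
      · exfalso
        apply hne i j hij
        filter_upwards [h] with w hw
        simpa [sub_eq_zero] using hw
      · exact h
    have h2 : ∀ᶠ w in 𝓝[≠] (0 : ℂ), ∀ i, ∀ j, i ≠ j → a i w - a j w ≠ 0 := by
      rw [eventually_all]
      intro i
      rw [eventually_all]
      intro j
      by_cases hij : i = j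
      · simp [hij]
      · filter_upwards [h1 i j hij] with w hw _ using hw
    filter_upwards [h2] with w hw
    rw [Finset.prod_ne_zero_iff]
    intro i _
    rw [Finset.prod_ne_zero_iff]
    intro j hj
    exact hw i j (Finset.ne_of_mem_erase hj).symm
  obtain ⟨k, u, hu, hu0, hVu⟩ := (hV.exists_eventuallyEq_pow_smul_nonzero_iff).mpr (by
    intro h
    have h1 : ∀ᶠ w in 𝓝[≠] (0 : ℂ), V w = 0 := h.filter_mono nhdsWithin_le_nhds
    have h2 := h1.and hVne
    obtain ⟨w, h3, h4⟩ := h2.exists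
    exact h4 h3)
  have hune : ∀ᶠ w in 𝓝 (0 : ℂ), u w ≠ 0 := hu.continuousAt.eventually_ne hu0
  let c : ι → ℂ → ℂ := fun i w => b i * (∏ i' ∈ Finset.univ.erase i, δ i' w) / u w
  have hc : ∀ i, AnalyticAt ℂ (c i) 0 := fun i =>
    (analyticAt_const.mul (Finset.analyticAt_fun_prod _ (fun i' _ => hδ i'))).div hu hu0
  let S : ℂ → ℂ[X] := fun w => ∑ i, Polynomial.C (c i w) * ∏ j ∈ Finset.univ.erase i,
    (Polynomial.X - Polynomial.C (a j w))
  have hS : AnC S := AnC.sum _ _ (fun i _ => (AnC.C (hc i)).mul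
    (AnC.prod _ _ (fun j _ => AnC.X.sub (AnC.C (ha j)))))
  have hSdeg : ∀ w, (S w).natDegree < Fintype.card ι + 1 := by
    intro w
    refine lt_of_le_of_lt (natDegree_sum_le_of_forall_le (n := Fintype.card ι) _ _ (fun i _ => ?_))
      (Nat.lt_succ_self _)
    refine (natDegree_C_mul_le _ _).trans ?_
    refine (natDegree_prod_le _ _).trans ?_
    refine (Finset.sum_le_card_nsmul _ _ 1 (fun j _ => by simp)).trans ?_
    simp only [smul_eq_mul, mul_one]
    exact (Finset.card_le_card (Finset.erase_subset _ _)).trans (by simp)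
  have hSval : ∀ᶠ w in 𝓝 (0 : ℂ), ∀ i, (S w).eval (a i w) = w ^ k * b i := by
    filter_upwards [hVu, hune] with w hw huw i
    simp only [S, eval_finsetSum, eval_mul, eval_C, eval_prod, eval_sub, eval_X]
    rw [Finset.sum_eq_single i]
    · have h1 : (∏ i' ∈ Finset.univ.erase i, δ i' w) * ∏ j ∈ Finset.univ.erase i, (a i w - a j w) =
          V w := by
        simp only [V]
        rw [mul_comm]
        exact Finset.mul_prod_erase Finset.univ (fun i' => δ i' w) (Finset.mem_univ i)
      simp only [c]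
      rw [div_mul_eq_mul_div, mul_assoc, h1, hw]
      simp only [sub_zero, smul_eq_mul]
      field_simp
    · intro i' _ hi'
      rw [Finset.prod_eq_zero (i := i) (Finset.mem_erase.mpr ⟨hi'.symm, Finset.mem_univ _⟩)
        (sub_self _), mul_zero]
    · intro hi
      exact absurd (Finset.mem_univ i) hi
  choose p R hR hpR using fun l => taylor_trunc (fun w => (S w).coeff l) (hS l) (k + 1)
  set N := Fintype.card ι + 1 with hN
  refine ⟨k, ∑ l ∈ Finset.range N, Polynomial.C (p l) * Polynomial.X ^ l,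
    fun i w => b i - w * ∑ l ∈ Finset.range N, R l w * a i w ^ l, fun i => ?_, ?_, ?_⟩
  · exact analyticAt_const.sub (analyticAt_id.mul
      (Finset.analyticAt_fun_sum _ (fun l _ => (hR l).mul ((ha i).pow l))))
  · intro i j hij
    apply hb
    simpa using hij
  · have hall : ∀ᶠ w in 𝓝 (0 : ℂ), ∀ l ∈ Finset.range N,
        (S w).coeff l = (p l).eval w + w ^ (k + 1) * R l w := by
      rw [eventually_all_finset]
      intro l _
      exact hpR l
    filter_upwards [hSval, hall] with w hw hl i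
    have h1 := hw i
    rw [eval_eq_sum_range' (hSdeg w)] at h1
    rw [Polynomial.map_sum, eval_finsetSum]
    simp only [Polynomial.map_mul, map_C, Polynomial.map_pow, map_X, eval_mul, eval_C, eval_pow,
      eval_X, coe_evalRingHom]
    have h2 : ∑ l ∈ Finset.range N, (p l).eval w * a i w ^ l =
        ∑ l ∈ Finset.range N, (S w).coeff l * a i w ^ l -
          w ^ (k + 1) * ∑ l ∈ Finset.range N, R l w * a i w ^ l := by
      rw [Finset.mul_sum, ← Finset.sum_sub_distrib]
      refine Finset.sum_congr rfl (fun l hl' => ?_)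
      rw [hl l hl']
      ring
    rw [h2, h1]
    ring

end Pool.Agent.UFC
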