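import Mathlib

/-!
# UFC A: the polynomial whose roots are the `h(a i)`

Let `D = card ι`.  For `j ≤ D` the `j`-th elementary symmetric function of the
`h(x i)` (`x i` variables) is a symmetric polynomial in `MvPolynomial ι A`, hence a polynomial `G_j`
in the elementary symmetric polynomials `e_1, ..., e_D` (`MvPolynomial.esymmAlgEquiv`, or
`MvPolynomial.esymmAlgHom_surjective`; take `ι = Fin D` first or transport).  The `e_j(x)` are, up to
sign, the coefficients of `∏ (X - C (x i))` (`MvPolynomial.prod_C_add_X_eq_sum_esymm`).  Put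
`R = X^D + ∑_{j ≥ 1} (-1)^j C (G_j(∓ coefficients of P)) X^(D - j)`.  If `P.map φ = ∏ (X - C (a i))`
then the coefficients of `P.map φ` are the signed `e_j(a)`, so `R.map φ = ∏ (X - C (h^φ (a i)))`.

`push_dvd`: in an algebraically closed field containing the domain `A`
(`AlgebraicClosure (FractionRing A)`, injective `φ`), `P.map φ = ∏ (X - C (r i))` and
`(R.comp h).map φ = ∏ (h^φ - C (h^φ (r i)))` is divisible by `∏ (X - C (r i))`
(`Polynomial.sub_dvd_eval_sub`/`X - C r ∣ h - C (h.eval r)`); divisibility by a monic polynomial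
descends along an injective ring map (`Polynomial.map_dvd_map`, `modByMonic`).
-/

set_option autoImplicit false

namespace Pool.Agent.UFC

open Polynomial

theorem bdB_sym {A : Type} [CommRing A] (ι : Type) [Fintype ι] (h : A[X]) (k : ℕ) :
    ∃ G : MvPolynomial (Fin (Fintype.card ι)) A,
      MvPolynomial.aeval (fun i : Fin (Fintype.card ι) => MvPolynomial.esymm ι A (i + 1)) G =
        (∏ i : ι, (X - C (aeval (MvPolynomial.X i : MvPolynomial ι A) h))).coeff k := by
  classical
  have hs : ((∏ i : ι, (X - C (aeval (MvPolynomial.X i : MvPolynomial ι A) h))).coeff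
      k).IsSymmetric := by
    intro e
    have e1 : (MvPolynomial.rename e : MvPolynomial ι A →ₐ[A] MvPolynomial ι A)
        ((∏ i : ι, (X - C (aeval (MvPolynomial.X i : MvPolynomial ι A) h))).coeff k) =
        ((∏ i : ι, (X - C (aeval (MvPolynomial.X i : MvPolynomial ι A) h))).map
          (MvPolynomial.rename e : MvPolynomial ι A →ₐ[A] MvPolynomial ι A).toRingHom).coeff k := by
      rw [Polynomial.coeff_map]
      rfl
    rw [e1, Polynomial.map_prod]
    have e2 : ∀ i : ι, (X - C (aeval (MvPolynomial.X i : MvPolynomial ι A) h)).map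
        (MvPolynomial.rename e : MvPolynomial ι A →ₐ[A] MvPolynomial ι A).toRingHom =
        X - C (aeval (MvPolynomial.X (e i) : MvPolynomial ι A) h) := by
      intro i
      rw [Polynomial.map_sub, Polynomial.map_X, Polynomial.map_C]
      congr 2
      have := Polynomial.aeval_algHom_apply
        (MvPolynomial.rename e : MvPolynomial ι A →ₐ[A] MvPolynomial ι A)
        (MvPolynomial.X i : MvPolynomial ι A) h
      rw [MvPolynomial.rename_X] at this
      exact this.symm
    rw [Finset.prod_congr rfl (fun i _ => e2 i)]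
    rw [Equiv.prod_comp e (fun i => X - C (aeval (MvPolynomial.X i : MvPolynomial ι A) h))]
  obtain ⟨G, hG⟩ := MvPolynomial.esymmAlgHom_surjective A (σ := ι) (le_refl (Fintype.card ι))
    ⟨_, hs⟩
  refine ⟨G, ?_⟩
  rw [← MvPolynomial.esymmAlgHom_apply, hG]

theorem exists_push {A : Type} [CommRing A] (ι : Type) [Fintype ι] (P h : A[X]) (hP : P.Monic)
    (hdeg : P.natDegree = Fintype.card ι) :
    ∃ R : A[X], R.Monic ∧ R.natDegree = Fintype.card ι ∧
      ∀ (L : Type) [CommRing L] (φ : A →+* L) (a : ι → L), P.map φ = ∏ i, (X - C (a i)) →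
        R.map φ = ∏ i, (X - C ((h.map φ).eval (a i))) := by
  classical
  obtain ⟨D, hD⟩ : ∃ D, D = Fintype.card ι := ⟨_, rfl⟩
  have hex := bdB_sym ι h
  rw [← hD] at hex hdeg ⊢
  choose G hG using hex
  set c : Fin D → A := fun i => (-1) ^ ((i : ℕ) + 1) * P.coeff (D - ((i : ℕ) + 1)) with hc
  set R : A[X] := X ^ D + ∑ k ∈ Finset.range D, C (MvPolynomial.aeval c (G k)) * X ^ k with hR
  have hdegS : (∑ k ∈ Finset.range D, C (MvPolynomial.aeval c (G k)) * X ^ k : A[X]).degree <
      (D : WithBot ℕ) := by
    rcases subsingleton_or_nontrivial A with hA | hA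
    · rw [Subsingleton.elim (∑ k ∈ Finset.range D, C (MvPolynomial.aeval c (G k)) * X ^ k : A[X]) 0,
        Polynomial.degree_zero]
      exact WithBot.bot_lt_coe _
    · refine (Polynomial.degree_sum_le _ _).trans_lt ?_
      rw [Finset.sup_lt_iff (WithBot.bot_lt_coe _)]
      intro k hk
      refine (Polynomial.degree_C_mul_X_pow_le _ _).trans_lt ?_
      exact_mod_cast Finset.mem_range.mp hk
  have hmon : R.Monic := Polynomial.monic_X_pow_add hdegS
  have hnd : R.natDegree = D := by
    rcases subsingleton_or_nontrivial A with hA | hA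
    · rw [← hdeg, Subsingleton.elim R P]
    · rw [hR, Polynomial.natDegree_add_eq_left_of_degree_lt (by
        rw [Polynomial.degree_X_pow]; exact hdegS), Polynomial.natDegree_X_pow]
  refine ⟨R, hmon, hnd, ?_⟩
  intro L _ φ a ha
  rcases subsingleton_or_nontrivial L with hL | hL
  · exact Subsingleton.elim _ _
  let _ := φ.toAlgebra
  have hφ : ∀ x, φ x = algebraMap A L x := fun _ => rfl
  have hAn : Nontrivial A := φ.domain_nontrivial
  have hdR : (R.map φ).natDegree = D := by rw [hmon.natDegree_map, hnd]
  have hmR : (R.map φ).Monic := hmon.map φ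
  have hmQ : (∏ i, (X - C ((h.map φ).eval (a i)))).Monic :=
    Polynomial.monic_prod_of_monic _ _ (fun i _ => Polynomial.monic_X_sub_C _)
  have hdQ : (∏ i, (X - C ((h.map φ).eval (a i)))).natDegree = D := by
    rw [Polynomial.natDegree_prod_of_monic _ _ (fun i _ => Polynomial.monic_X_sub_C _)]
    simp [hD]
  have hroot : ∀ j : Fin D, φ (c j) = (Finset.univ.val.map a).esymm ((j : ℕ) + 1) := by
    intro j
    have h1 : (P.map φ).coeff (D - ((j : ℕ) + 1)) =
        (((Finset.univ.val.map a).map (fun t => X - C t)).prod).coeff (D - ((j : ℕ) + 1)) := by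
      rw [ha, Multiset.map_map]
      rfl
    have hcard : Multiset.card (Finset.univ.val.map a) = D := by simp [hD]
    rw [Multiset.prod_X_sub_C_coeff _ (by rw [hcard]; omega), hcard,
      show D - (D - ((j : ℕ) + 1)) = (j : ℕ) + 1 by have := j.2; omega, Polynomial.coeff_map] at h1
    rw [hc]
    simp only [map_mul, map_pow, map_neg, map_one]
    rw [h1, ← mul_assoc, ← mul_pow]
    simp
  refine Polynomial.ext (fun k => ?_)
  rcases lt_trichotomy k D with hk | hk | hk
  · have e1 : (R.map φ).coeff k = φ (MvPolynomial.aeval c (G k)) := by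
      rw [Polynomial.coeff_map]
      congr 1
      rw [hR, Polynomial.coeff_add, Polynomial.coeff_X_pow, if_neg hk.ne, zero_add,
        Polynomial.finsetSum_coeff]
      simp only [Polynomial.coeff_C_mul_X_pow]
      rw [Finset.sum_eq_single k]
      · simp
      · intro b _ hb
        rw [if_neg (fun h => hb h.symm)]
      · intro hk'
        exact absurd (Finset.mem_range.mpr hk) hk'
    have e2 : (∏ i, (X - C ((h.map φ).eval (a i)))).coeff k =
        MvPolynomial.aeval a ((∏ i : ι, (X - C (aeval (MvPolynomial.X i : MvPolynomial ι A)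
          h))).coeff k) := by
      have e3 : MvPolynomial.aeval a ((∏ i : ι, (X - C (aeval (MvPolynomial.X i :
          MvPolynomial ι A) h))).coeff k) = ((∏ i : ι, (X - C (aeval (MvPolynomial.X i :
          MvPolynomial ι A) h))).map (MvPolynomial.aeval a : MvPolynomial ι A →ₐ[A]
            L).toRingHom).coeff k := by
        rw [Polynomial.coeff_map]
        rfl
      rw [e3, Polynomial.map_prod]
      congr 1
      refine Finset.prod_congr rfl (fun i _ => ?_)
      rw [Polynomial.map_sub, Polynomial.map_X, Polynomial.map_C]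
      congr 2
      have := Polynomial.aeval_algHom_apply
        (MvPolynomial.aeval a : MvPolynomial ι A →ₐ[A] L) (MvPolynomial.X i) h
      rw [MvPolynomial.aeval_X] at this
      rw [← Polynomial.eval₂_eq_eval_map]
      exact this
    rw [e1, e2, ← hG k]
    have e4 : MvPolynomial.aeval a (MvPolynomial.aeval (fun i : Fin D =>
        MvPolynomial.esymm ι A ((i : ℕ) + 1)) (G k)) = MvPolynomial.aeval (fun i : Fin D =>
        MvPolynomial.aeval a (MvPolynomial.esymm ι A ((i : ℕ) + 1))) (G k) := by
      rw [MvPolynomial.comp_aeval_apply]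
    rw [e4, hφ, ← MvPolynomial.aeval_algebraMap_apply]
    congr 2
    funext j
    rw [MvPolynomial.aeval_esymm_eq_multiset_esymm, ← hroot j]
    rfl
  · rw [hk]
    have h1 := hmR.coeff_natDegree
    have h2 := hmQ.coeff_natDegree
    rw [hdR] at h1
    rw [hdQ] at h2
    rw [h1, h2]
  · rw [Polynomial.coeff_eq_zero_of_natDegree_lt (by rw [hdR]; exact hk),
      Polynomial.coeff_eq_zero_of_natDegree_lt (by rw [hdQ]; exact hk)]

theorem push_dvd {A : Type} [CommRing A] [IsDomain A] (ι : Type) [Fintype ι] (P h R : A[X])
    (hP : P.Monic) (hdeg : P.natDegree = Fintype.card ι)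
    (hR : ∀ (L : Type) [CommRing L] (φ : A →+* L) (a : ι → L), P.map φ = ∏ i, (X - C (a i)) →
        R.map φ = ∏ i, (X - C ((h.map φ).eval (a i)))) : P ∣ R.comp h := by
  classical
  set φ : A →+* AlgebraicClosure (FractionRing A) :=
    (algebraMap (FractionRing A) (AlgebraicClosure (FractionRing A))).comp
      (algebraMap A (FractionRing A)) with hφ
  have hinj : Function.Injective φ := by
    rw [hφ, RingHom.coe_comp]
    exact (algebraMap (FractionRing A) (AlgebraicClosure (FractionRing A))).injective.comp
      (IsFractionRing.injective A (FractionRing A))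
  have hm : (P.map φ).Monic := hP.map φ
  have hs : (P.map φ).Splits := IsAlgClosed.splits _
  have hcard : Multiset.card (P.map φ).roots = Fintype.card ι := by
    rw [← hdeg, ← hP.natDegree_map φ]
    exact (splits_iff_card_roots.1 hs)
  have hprod : ((P.map φ).roots.map (fun t => X - C t)).prod = P.map φ := by
    have := Polynomial.C_leadingCoeff_mul_prod_multiset_X_sub_C (splits_iff_card_roots.1 hs)
    rwa [hm.leadingCoeff, C_1, one_mul] at this
  obtain ⟨a, ha⟩ : ∃ a : ι → AlgebraicClosure (FractionRing A),
      Finset.univ.val.map a = (P.map φ).roots := by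
    have hl : (P.map φ).roots.toList.length = Fintype.card ι := by
      rw [Multiset.length_toList, hcard]
    let e : ι ≃ Fin (P.map φ).roots.toList.length :=
      (Fintype.equivFin ι).trans (finCongr hl.symm)
    refine ⟨fun i => (P.map φ).roots.toList.get (e i), ?_⟩
    have h1 : Finset.univ.val.map (fun i => (P.map φ).roots.toList.get (e i)) =
        Finset.univ.val.map (fun i => (P.map φ).roots.toList.get i) := by
      have h2 : (Finset.univ : Finset (Fin (P.map φ).roots.toList.length)).val =
          (Finset.univ : Finset ι).val.map e := by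
        rw [← Finset.map_univ_equiv e]
        rfl
      rw [h2, Multiset.map_map]
      rfl
    rw [h1]
    have h3 : ((Finset.univ : Finset (Fin (P.map φ).roots.toList.length)).val.map
        (fun i => (P.map φ).roots.toList.get i)) = ((P.map φ).roots.toList : Multiset _) := by
      rw [Fin.univ_def]
      simp
    rw [h3, Multiset.coe_toList]
  have hP' : P.map φ = ∏ i, (X - C (a i)) := by
    rw [← hprod, ← ha, Multiset.map_map]
    rfl
  have hR' := hR _ φ a hP'
  rw [← Polynomial.map_dvd_map φ hinj hP, Polynomial.map_comp, hR', hP', Polynomial.prod_comp]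
  refine Finset.prod_dvd_prod_of_dvd _ _ (fun i _ => ?_)
  rw [Polynomial.sub_comp, Polynomial.X_comp, Polynomial.C_comp, Polynomial.dvd_iff_isRoot]
  simp

end Pool.Agent.UFC
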