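import Mathlib

/-!
# UFC A: recovering `X` from `h`

Let `D = card ι`, `M` the `D × D` matrix over `A` with `h^k ≡ ∑_{j < D} M k j X^j` modulo `P`
(`k < D`; `M k j = ((h^k) %ₘ P).coeff j`).  Put `e = det M`.  By the adjugate,
`∑_k adj(M) j k * h^k ≡ e X^j` modulo `P` for `j < D`.  If `D ≥ 2` take `j = 1`:
`g = ∑_k C (adj(M) 1 k) X^k`.  If `D = 1`: `P = X - C c`, take `e = 1`, `g = C c`.  If `D = 0`: `P = 1`.
For `φ : A → L` with `P.map φ = ∏ (X - C (a i))`: for every `i`,
`(h^φ (a i))^k = ∑_j φ(M k j) (a i)^j`, so the Vandermonde determinant of the `h^φ(a i)` is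
`φ(e)` times the Vandermonde determinant of the `a i`; it is nonzero if the `h^φ (a i)` are distinct
(`Matrix.det_vandermonde_ne_zero_iff`).
-/

set_option autoImplicit false

namespace Pool.Agent.UFC

open Polynomial

/-- The remainder of `q` modulo `P` as a sum of monomials of degree `< D`. -/
theorem bdC_modByMonic_sum {A : Type} [CommRing A] [Nontrivial A] (P q : A[X]) (hP : P.Monic)
    (D : ℕ) (hdeg : P.natDegree = D) :
    q %ₘ P = ∑ j : Fin D, C ((q %ₘ P).coeff j) * X ^ (j : ℕ) := by
  rcases Nat.eq_zero_or_pos D with h0 | hpos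
  · subst h0
    have : P = 1 := (hP.natDegree_eq_zero).1 hdeg
    subst this
    simp
  · have h1 : (q %ₘ P).natDegree < D := by
      rw [← hdeg]
      refine natDegree_modByMonic_lt q hP ?_
      intro h
      rw [h] at hdeg
      simp at hdeg
      omega
    conv_lhs => rw [as_sum_range_C_mul_X_pow' (q %ₘ P) h1]
    rw [Fin.sum_univ_eq_sum_range (fun j => C ((q %ₘ P).coeff j) * X ^ j) D]

theorem exists_back {A : Type} [CommRing A] (ι : Type) [Fintype ι] (P h : A[X]) (hP : P.Monic)
    (hdeg : P.natDegree = Fintype.card ι) :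
    ∃ (g : A[X]) (e : A), P ∣ g.comp h - C e * X ∧
      ∀ (L : Type) [Field L] (φ : A →+* L) (a : ι → L), P.map φ = ∏ i, (X - C (a i)) →
        Function.Injective (fun i => (h.map φ).eval (a i)) → φ e ≠ 0 := by
  classical
  rcases subsingleton_or_nontrivial A with hs | hn
  · refine ⟨0, 1, ?_, ?_⟩
    · have : (Subsingleton A[X]) := inferInstance
      exact ⟨0, Subsingleton.elim _ _⟩
    · intro L _ φ a _ _
      rw [map_one]
      exact one_ne_zero
  obtain ⟨D, hD⟩ : ∃ D, D = Fintype.card ι := ⟨_, rfl⟩
  rw [← hD] at hdeg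
  rcases Nat.lt_or_ge D 2 with hlt | hge
  · rcases Nat.lt_or_ge D 1 with h0 | h1
    · have h00 : P.natDegree = 0 := by omega
      have hP1 : P = 1 := (hP.natDegree_eq_zero).1 h00
      refine ⟨0, 1, ?_, ?_⟩
      · rw [hP1]
        exact one_dvd _
      · intro L _ φ a _ _
        rw [map_one]
        exact one_ne_zero
    · have hd1 : P.natDegree = 1 := by omega
      refine ⟨C (-(P.coeff 0)), 1, ?_, ?_⟩
      · have hP1 : P = X + C (P.coeff 0) := by
          have := hP.as_sum
          rw [hd1] at this
          simpa using this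
        refine ⟨-1, ?_⟩
        conv_rhs => rw [hP1]
        simp
        ring
      · intro L _ φ a _ _
        rw [map_one]
        exact one_ne_zero
  · let M : Matrix (Fin D) (Fin D) A := fun k j => ((h ^ (k : ℕ)) %ₘ P).coeff j
    let j1 : Fin D := ⟨1, by omega⟩
    refine ⟨∑ k : Fin D, C (M.adjugate j1 k) * X ^ (k : ℕ), M.det, ?_, ?_⟩
    · have hcomp : (∑ k : Fin D, C (M.adjugate j1 k) * X ^ (k : ℕ)).comp h
          = ∑ k : Fin D, C (M.adjugate j1 k) * h ^ (k : ℕ) := by
        simp only [comp, eval₂_finsetSum]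
        refine Finset.sum_congr rfl fun k _ => ?_
        simp
      have hrem : ∀ k : Fin D, P ∣ h ^ (k : ℕ) - ∑ j : Fin D, C (M k j) * X ^ (j : ℕ) := by
        intro k
        have h1 := bdC_modByMonic_sum P (h ^ (k : ℕ)) hP D hdeg
        have h2 := modByMonic_add_div (h ^ (k : ℕ)) P
        refine ⟨h ^ (k : ℕ) /ₘ P, ?_⟩
        change h ^ (k : ℕ) - ∑ j : Fin D, C (((h ^ (k : ℕ)) %ₘ P).coeff j) * X ^ (j : ℕ) = _
        rw [← h1]
        linear_combination (-1 : A[X]) * h2
      have hadj : ∑ k : Fin D, C (M.adjugate j1 k) * (∑ j : Fin D, C (M k j) * X ^ (j : ℕ))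
          = C M.det * X := by
        have h1 : ∀ j : Fin D, ∑ k : Fin D, M.adjugate j1 k * M k j = M.det * (1 : Matrix (Fin D) (Fin D) A) j1 j := by
          intro j
          have h2 : (M.adjugate * M) j1 j = (M.det • (1 : Matrix (Fin D) (Fin D) A)) j1 j := by
            rw [Matrix.adjugate_mul]
          rw [Matrix.mul_apply, Matrix.smul_apply, smul_eq_mul] at h2
          exact h2
        calc ∑ k : Fin D, C (M.adjugate j1 k) * (∑ j : Fin D, C (M k j) * X ^ (j : ℕ))
            = ∑ k : Fin D, ∑ j : Fin D, C (M.adjugate j1 k * M k j) * X ^ (j : ℕ) := by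
              refine Finset.sum_congr rfl fun k _ => ?_
              rw [Finset.mul_sum]
              refine Finset.sum_congr rfl fun j _ => ?_
              rw [C_mul]
              ring
          _ = ∑ j : Fin D, ∑ k : Fin D, C (M.adjugate j1 k * M k j) * X ^ (j : ℕ) :=
              Finset.sum_comm
          _ = ∑ j : Fin D, C (M.det * (1 : Matrix (Fin D) (Fin D) A) j1 j) * X ^ (j : ℕ) := by
              refine Finset.sum_congr rfl fun j _ => ?_
              rw [← Finset.sum_mul, ← h1 j, map_sum]
          _ = C M.det * X := by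
              rw [Finset.sum_eq_single j1]
              · simp [j1]
              · intro b _ hb
                rw [Matrix.one_apply_ne (Ne.symm hb)]
                simp
              · intro h'
                exact absurd (Finset.mem_univ _) h'
      rw [hcomp]
      have h3 : (∑ k : Fin D, C (M.adjugate j1 k) * h ^ (k : ℕ)) - C M.det * X
          = ∑ k : Fin D, C (M.adjugate j1 k) *
            (h ^ (k : ℕ) - ∑ j : Fin D, C (M k j) * X ^ (j : ℕ)) := by
        rw [← hadj, ← Finset.sum_sub_distrib]
        refine Finset.sum_congr rfl fun k _ => ?_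
        ring
      rw [h3]
      exact Finset.dvd_sum fun k _ => Dvd.dvd.mul_left (hrem k) _
    · intro L _ φ a hPa hinj hdet
      -- the equivalence of `Fin D` with `ι`
      let f : Fin D ≃ ι := (Fintype.equivFinOfCardEq hD.symm).symm
      have hroot : ∀ i, (P.map φ).eval (a i) = 0 := by
        intro i
        rw [hPa, eval_prod]
        exact Finset.prod_eq_zero (Finset.mem_univ i) (by simp)
      have hpow : ∀ (i : ι) (k : Fin D), ((h.map φ).eval (a i)) ^ (k : ℕ)
          = ∑ j : Fin D, (a i) ^ (j : ℕ) * φ (M k j) := by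
        intro i k
        have h1 := bdC_modByMonic_sum P (h ^ (k : ℕ)) hP D hdeg
        have h2 := modByMonic_add_div (h ^ (k : ℕ)) P
        have h4 : ((h ^ (k : ℕ)).map φ).eval (a i)
            = (((h ^ (k : ℕ)) %ₘ P).map φ).eval (a i) := by
          conv_lhs => rw [← h2]
          rw [Polynomial.map_add, Polynomial.map_mul, eval_add, eval_mul, hroot i, zero_mul,
            add_zero]
        rw [Polynomial.map_pow, eval_pow] at h4
        rw [h4, h1, Polynomial.map_sum, eval_finsetSum]
        refine Finset.sum_congr rfl fun j _ => ?_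
        rw [Polynomial.map_mul, Polynomial.map_pow, map_X, map_C, eval_mul, eval_C, eval_pow,
          eval_X, mul_comm]
      have hV : Matrix.vandermonde (fun i : Fin D => (h.map φ).eval (a (f i)))
          = Matrix.vandermonde (fun i : Fin D => a (f i)) * (M.map φ).transpose := by
        ext i k
        rw [Matrix.vandermonde_apply, Matrix.mul_apply, hpow]
        refine Finset.sum_congr rfl fun j _ => ?_
        rw [Matrix.vandermonde_apply, Matrix.transpose_apply, Matrix.map_apply]
      have hne : (Matrix.vandermonde (fun i : Fin D => (h.map φ).eval (a (f i)))).det ≠ 0 := by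
        rw [Matrix.det_vandermonde_ne_zero_iff]
        intro x y hxy
        exact f.injective (hinj hxy)
      apply hne
      rw [hV, Matrix.det_mul, Matrix.det_transpose]
      have h5 : (M.map φ).det = φ M.det := by
        rw [RingHom.map_det]
        rfl
      rw [h5, hdet, mul_zero]

end Pool.Agent.UFC
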