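import Mathlib
import Pool.Agent.UFC.Defs
import Pool.Agent.UFC.A.BdA
import Pool.Agent.UFC.A.BdB
import Pool.Agent.UFC.A.BdC

/-!
# UFC A: from analytic germs to `Bd`

Take `n, h, β` from `interp`, `R` from `exists_push` and `g, e` from `exists_back` (`A = ℂ[X]`, with
`P : ℂ[X][X]`).  For `w` near `0`: `ev w P = ∏ (X - C (a i w))`, so
`ev w R = ∏ (X - C (w^n β i w))`, hence the value at `w` of the coefficient of `X^(D - j)` in `R` is
`w^(n j)` times an analytic function of `w`: `X^(n j) ∣ R.coeff (D - j)` in `ℂ[X]` (a polynomial which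
is `O(w^m)` at `0` is divisible by `X^m`).  So `R = Q.scaleRoots (X^n)` with `Q` monic of degree `D`,
`Q.coeff (D - j) = R.coeff (D - j) / X^(n j)`, and for `w ≠ 0` near `0`
`ev w Q = ∏ (X - C (β i w))`; by continuity of the coefficients `ev 0 Q = ∏ (X - C (β i 0))`, which has
distinct roots, so it is separable: `u, v` exist.  `d = X^n` and `P ∣ R.comp h` (`push_dvd`).
`e ≠ 0` because for `w ≠ 0` near `0` the values `h(a i w, w) = w^n β i w` are distinct
(continuity of `β`): `exists_back` with `L = ℂ`, `φ = evalRingHom w` (so `e.eval w ≠ 0`).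
-/

set_option autoImplicit false

namespace Pool.Agent.UFC

open Filter Topology Polynomial

/-- A polynomial which is `w^k` times a continuous function near `0` is divisible by `X^k`. -/
theorem bdd_dvd (k : ℕ) : ∀ (r : ℂ[X]) (c : ℂ → ℂ), ContinuousAt c 0 →
    (∀ᶠ w in 𝓝[≠] (0 : ℂ), r.eval w = w ^ k * c w) →
    ∃ r' : ℂ[X], r = X ^ k * r' ∧ r'.eval 0 = c 0 := by
  induction k with
  | zero =>
    intro r c hc h
    refine ⟨r, by simp, ?_⟩
    have h1 : Tendsto (fun w => r.eval w) (𝓝[≠] 0) (𝓝 (r.eval 0)) :=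
      (r.continuous.tendsto 0).mono_left nhdsWithin_le_nhds
    have h2 : Tendsto c (𝓝[≠] 0) (𝓝 (c 0)) := Tendsto.mono_left hc nhdsWithin_le_nhds
    refine tendsto_nhds_unique_of_eventuallyEq h1 h2 ?_
    filter_upwards [h] with w hw
    rw [hw, pow_zero, one_mul]
  | succ k ih =>
    intro r c hc h
    have h1 : Tendsto (fun w => r.eval w) (𝓝[≠] 0) (𝓝 (r.eval 0)) :=
      (r.continuous.tendsto 0).mono_left nhdsWithin_le_nhds
    have h2 : Tendsto (fun w => w ^ (k + 1) * c w) (𝓝[≠] 0) (𝓝 (0 ^ (k + 1) * c 0)) :=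
      Tendsto.mono_left (((continuous_pow (k + 1)).continuousAt).mul hc) nhdsWithin_le_nhds
    have h3 : r.eval 0 = 0 := by
      have := tendsto_nhds_unique_of_eventuallyEq h1 h2 h
      rw [this]
      simp
    obtain ⟨r1, hr1⟩ := dvd_iff_isRoot.2 (show r.IsRoot 0 from h3)
    rw [map_zero, sub_zero] at hr1
    obtain ⟨r', hr', h0⟩ := ih r1 c hc (by
      filter_upwards [h, self_mem_nhdsWithin] with w hw hw0
      have hw0' : w ≠ 0 := hw0
      rw [hr1, eval_mul, eval_X, pow_succ'] at hw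
      have : w * r1.eval w = w * (w ^ k * c w) := by rw [hw]; ring
      exact mul_left_cancel₀ hw0' this)
    exact ⟨r', by rw [hr1, hr', pow_succ']; ring, h0⟩

theorem bdd_scale (ι : Type) [Fintype ι] (s : ℂ) (b : ι → ℂ) (m : ℕ) :
    (∏ i, (X - C (s * b i))).coeff m =
      s ^ (Fintype.card ι - m) * (∏ i, (X - C (b i)) : ℂ[X]).coeff m := by
  have hd : (∏ i, (X - C (b i)) : ℂ[X]).natDegree = Fintype.card ι := by
    rw [natDegree_prod_of_monic _ _ (fun i _ => monic_X_sub_C _)]
    simp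
  have h1 : ∏ i, (X - C (s * b i)) = (∏ i, (X - C (b i)) : ℂ[X]).scaleRoots s := by
    classical
    have : ∀ t : Finset ι, ∏ i ∈ t, (X - C (s * b i)) =
        (∏ i ∈ t, (X - C (b i)) : ℂ[X]).scaleRoots s := by
      intro t
      induction t using Finset.induction_on with
      | empty => simp
      | insert i t hi ih =>
        rw [Finset.prod_insert hi, Finset.prod_insert hi, ih]
        rw [mul_scaleRoots_of_noZeroDivisors]
        congr 1
        ext j
        rw [coeff_scaleRoots, natDegree_X_sub_C]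
        rcases j with _ | _ | j
        · simp [mul_comm]
        · simp [coeff_X, coeff_C]
        · simp [coeff_X, coeff_C]
    exact this Finset.univ
  rw [h1, coeff_scaleRoots, hd, mul_comm]

theorem bd_of_germs (P : ℂ[X][X]) (hP : P.Monic) (ι : Type) [Fintype ι]
    (a : ι → ℂ → ℂ) (ha : ∀ i, AnalyticAt ℂ (a i) 0) (hne : ∀ i j, i ≠ j → ¬ (a i =ᶠ[𝓝 0] a j))
    (hev : ∀ᶠ w in 𝓝 (0 : ℂ), ev w P = ∏ i, (X - C (a i w))) : Bd P := by
  classical
  obtain ⟨n, h, β, hβ, hinj, hh⟩ := interp ι a ha hne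
  have hdeg : P.natDegree = Fintype.card ι := by
    obtain ⟨w, hw⟩ := hev.exists
    have h1 : (ev w P).natDegree = P.natDegree := by
      unfold ev
      exact hP.natDegree_map _
    rw [← h1, hw, natDegree_prod_of_monic _ _ (fun i _ => monic_X_sub_C _)]
    simp
  obtain ⟨R, hRm, hRd, hR⟩ := exists_push ι P h hP hdeg
  obtain ⟨g, e, hge, he⟩ := exists_back ι P h hP hdeg
  set D := Fintype.card ι with hD
  -- values of the coefficients of `R`
  have hRev : ∀ᶠ w in 𝓝 (0 : ℂ), ∀ m, (R.coeff m).eval w =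
      (w ^ n) ^ (D - m) * (∏ i, (X - C (β i w)) : ℂ[X]).coeff m := by
    filter_upwards [hev, hh] with w hw hw2 m
    have h1 := hR ℂ (evalRingHom w) (fun i => a i w) hw
    have h2 : (R.map (evalRingHom w)).coeff m = (R.coeff m).eval w := by simp
    rw [← h2, h1]
    simp only [hw2]
    exact bdd_scale ι (w ^ n) (fun i => β i w) m
  have hAn : AnC (fun w => ∏ i, (X - C (β i w))) :=
    AnC.prod _ _ (fun i _ => AnC.X.sub (AnC.C (hβ i)))
  have hex : ∀ m, ∃ r' : ℂ[X], R.coeff m = X ^ (n * (D - m)) * r' ∧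
      r'.eval 0 = (∏ i, (X - C (β i 0)) : ℂ[X]).coeff m := by
    intro m
    refine bdd_dvd (n * (D - m)) (R.coeff m) _ (hAn m).continuousAt ?_
    filter_upwards [hRev.filter_mono nhdsWithin_le_nhds] with w hw
    rw [hw m, pow_mul]
  choose r' hr' hr0 using hex
  have hr'D : r' D = 1 := by
    have h1 := hr' D
    rw [Nat.sub_self, mul_zero, pow_zero, one_mul] at h1
    rw [← h1, ← hRd]
    exact hRm
  set Q : ℂ[X][X] := ∑ m ∈ Finset.range (D + 1), monomial m (r' m) with hQ
  have hQc : ∀ m, Q.coeff m = if m ≤ D then r' m else 0 := by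
    intro m
    rw [hQ, finset_sum_coeff]
    simp only [coeff_monomial]
    rw [Finset.sum_ite_eq' (Finset.range (D + 1)) m r']
    simp only [Finset.mem_range, Nat.lt_succ_iff]
  have hQle : Q.natDegree ≤ D := by
    rw [natDegree_le_iff_coeff_eq_zero]
    intro m hm
    rw [hQc, if_neg (not_le.2 hm)]
  have hQm : Q.Monic := by
    apply monic_of_natDegree_le_of_coeff_eq_one D hQle
    rw [hQc, if_pos le_rfl, hr'D]
  have hQd : Q.natDegree = D := by
    apply natDegree_eq_of_le_of_coeff_ne_zero hQle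
    rw [hQc, if_pos le_rfl, hr'D]
    exact one_ne_zero
  have hscale : Q.scaleRoots (X ^ n) = R := by
    ext1 m
    rw [coeff_scaleRoots, hQd, hQc]
    by_cases hm : m ≤ D
    · rw [if_pos hm, hr' m, ← pow_mul, mul_comm]
    · rw [if_neg hm, zero_mul, coeff_eq_zero_of_natDegree_lt]
      rw [hRd]
      omega
  have hQ0 : ev 0 Q = ∏ i, (X - C (β i 0)) := by
    ext m
    unfold ev
    rw [coeff_map, hQc]
    by_cases hm : m ≤ D
    · rw [if_pos hm, coe_evalRingHom, hr0]
    · rw [if_neg hm, map_zero, coeff_eq_zero_of_natDegree_lt]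
      rw [natDegree_prod_of_monic _ _ (fun i _ => monic_X_sub_C _)]
      simp only [natDegree_X_sub_C, Finset.sum_const, Finset.card_univ, smul_eq_mul, mul_one]
      omega
  have hsep : (ev 0 Q).Separable := by
    rw [hQ0]
    exact separable_prod_X_sub_C_iff.2 hinj
  obtain ⟨u, v, huv⟩ := hsep
  have he0 : e ≠ 0 := by
    have hdist : ∀ᶠ w in 𝓝 (0 : ℂ), ∀ i, ∀ j, i ≠ j → β i w ≠ β j w := by
      rw [eventually_all]
      intro i
      rw [eventually_all]
      intro j
      by_cases hij : i = j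
      · simp [hij]
      · have h1 : β i 0 ≠ β j 0 := fun h => hij (hinj h)
        have h2 := ((hβ i).continuousAt.sub (hβ j).continuousAt).eventually_ne
          (show (β i - β j) 0 ≠ 0 from sub_ne_zero.2 h1)
        filter_upwards [h2] with w hw _ hw2
        apply hw
        show β i w - β j w = 0
        rw [hw2, sub_self]
    have h3 : ∀ᶠ w in 𝓝[≠] (0 : ℂ), e.eval w ≠ 0 := by
      filter_upwards [hev.filter_mono nhdsWithin_le_nhds, hh.filter_mono nhdsWithin_le_nhds,
        hdist.filter_mono nhdsWithin_le_nhds, self_mem_nhdsWithin] with w hw1 hw2 hw3 hw4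
      have hw4' : w ≠ 0 := hw4
      refine he ℂ (evalRingHom w) (fun i => a i w) hw1 ?_
      intro i j hij
      by_contra hne2
      simp only [hw2] at hij
      exact hw3 i j hne2 (mul_left_cancel₀ (pow_ne_zero n hw4') hij)
    intro h0
    obtain ⟨w, hw⟩ := h3.exists
    apply hw
    rw [h0, eval_zero]
  refine ⟨Q, h, g, X ^ n, e, u, v, ⟨hQm, ?_, ?_, ?_, hge⟩, huv⟩
  · rw [leadingCoeff_X_pow]
    exact isUnit_one
  · exact isUnit_iff_ne_zero.2 (leadingCoeff_ne_zero.2 he0)
  · rw [hscale]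
    exact push_dvd ι P h R hP hdeg hR

end Pool.Agent.UFC
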