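import Mathlib
import Pool.Agent.UFC.Defs

/-!
# UFC, part A: definitions

Modular functions for `Γ(2)`, Eisenstein sums over sets of integer vectors, and the data attached to
a homomorphism from `Γ(2)` to a finite group.
-/

set_option autoImplicit false

namespace Pool.Agent.UFC

open UpperHalfPlane CongruenceSubgroup
open scoped MatrixGroups Manifold ModularForm

/-- `f` is a modular form of weight `k` for `Γ(2)` (as a function on the upper half plane). -/
structure MF (k : ℤ) (f : ℍ → ℂ) : Prop where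
  holo : MDiff f
  inv : ∀ γ ∈ Gamma 2, f ∣[k] γ = f
  bdd : ∀ γ : SL(2, ℤ), IsBoundedAtImInfty (f ∣[k] γ)

/-- `e^(π i z)`. -/
noncomputable def q2 (z : ℍ) : ℂ := Complex.exp (Real.pi * Complex.I * z)

/-- `16 η(2z)^8 / η(z)^4` (the fourth power of the theta function `θ₂`). -/
noncomputable def fX (z : ℍ) : ℂ := 16 * ModularForm.eta (2 * z) ^ 8 / ModularForm.eta z ^ 4

/-- `η(z/2)^8 / η(z)^4` (the fourth power of `θ₄`). -/
noncomputable def fY (z : ℍ) : ℂ := ModularForm.eta (z / 2) ^ 8 / ModularForm.eta z ^ 4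

/-- `fY(z + 1)` (the fourth power of `θ₃`). -/
noncomputable def fZ (z : ℍ) : ℂ := ModularForm.eta ((z + 1) / 2) ^ 8 / ModularForm.eta (z + 1) ^ 4

/-- The modular function `λ`. -/
noncomputable def lam (z : ℍ) : ℂ := fX z / fZ z

/-- The Eisenstein sum of weight `4` over a set `Ω` of integer vectors. -/
noncomputable def eis (Ω : Set (Fin 2 → ℤ)) (z : ℍ) : ℂ :=
  ∑' v : Ω, ((v.1 0 : ℂ) * z + (v.1 1 : ℂ)) ^ (-4 : ℤ)

/-- `T^2` as an element of `Γ(2)`. -/
def gA : Gamma 2 := ⟨ModularGroup.T ^ 2, by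
  simp [Gamma_mem, ModularGroup.T, pow_two, Matrix.mul_apply, Fin.sum_univ_two]; decide⟩

/-- `S T^2 S⁻¹` as an element of `Γ(2)`. -/
def gB : Gamma 2 := ⟨ModularGroup.S * ModularGroup.T ^ 2 * ModularGroup.S⁻¹,
  (Gamma_normal 2).conj_mem _ gA.2 _⟩

/-- `-1` as an element of `Γ(2)`. -/
def gN : Gamma 2 := ⟨-1, by
  simp [Gamma_mem]⟩

section mono

variable {G : Type} [Group G]

/-- The bottom rows of the elements `γ` of `Γ(2)` with `ρ(γ)⁻¹ ⟨x⟩ = y`. -/
def Om (ρ : Gamma 2 →* G) (x : G) (y : G ⧸ Subgroup.zpowers x) : Set (Fin 2 → ℤ) :=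
  {v | ∃ γ : Gamma 2, (((ρ γ)⁻¹ : G) : G ⧸ Subgroup.zpowers x) = y ∧
    v = fun j => (γ : SL(2, ℤ)) 1 j}

/-- The Eisenstein sum attached to a coset. -/
noncomputable def Ey (ρ : Gamma 2 →* G) (x : G) (y : G ⧸ Subgroup.zpowers x) : ℍ → ℂ :=
  eis (Om ρ x y)

end mono

end Pool.Agent.UFC
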