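import Mathlib
import Pool.Agent.UFC.A.Defs

/-!
# UFC A: the six cosets of `Γ(2)` in `SL(2, ℤ)`

Reduction modulo `2`: `SL(2, ZMod 2)` has six elements (`decide`), they are the images of
`1, T, S, S T, T S, T S T`; `Γ(2)` is the kernel.
-/

set_option autoImplicit false

namespace Pool.Agent.UFC

open UpperHalfPlane CongruenceSubgroup
open scoped MatrixGroups Manifold ModularForm

theorem coset6_aux : ∀ a b c d : ZMod 2, a * d - b * c = 1 →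
    (a = 1 ∧ b = 0 ∧ c = 0 ∧ d = 1) ∨ (a = 1 ∧ b = 1 ∧ c = 0 ∧ d = 1) ∨
    (a = 0 ∧ b = 1 ∧ c = 1 ∧ d = 0) ∨ (a = 0 ∧ b = 1 ∧ c = 1 ∧ d = 1) ∨
    (a = 1 ∧ b = 1 ∧ c = 1 ∧ d = 0) ∨ (a = 1 ∧ b = 0 ∧ c = 1 ∧ d = 1) := by
  decide

theorem coset6_mem {γ r : SL(2, ℤ)} (h00 : ((γ 0 0 : ℤ) : ZMod 2) = r 0 0)
    (h01 : ((γ 0 1 : ℤ) : ZMod 2) = r 0 1) (h10 : ((γ 1 0 : ℤ) : ZMod 2) = r 1 0)
    (h11 : ((γ 1 1 : ℤ) : ZMod 2) = r 1 1) : ∃ δ ∈ Gamma 2, γ = δ * r := by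
  refine ⟨γ * r⁻¹, ?_, by group⟩
  rw [Gamma_mem']
  rw [map_mul, map_inv, mul_inv_eq_one]
  ext i j
  fin_cases i <;> fin_cases j
  · exact h00
  · exact h01
  · exact h10
  · exact h11

theorem coset6 (γ : SL(2, ℤ)) : ∃ δ ∈ Gamma 2, γ = δ ∨ γ = δ * ModularGroup.T ∨
    γ = δ * ModularGroup.S ∨ γ = δ * (ModularGroup.S * ModularGroup.T) ∨
    γ = δ * (ModularGroup.T * ModularGroup.S) ∨
    γ = δ * (ModularGroup.T * ModularGroup.S * ModularGroup.T) := by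
  have hdet : ((γ 0 0 : ℤ) : ZMod 2) * ((γ 1 1 : ℤ) : ZMod 2) -
      ((γ 0 1 : ℤ) : ZMod 2) * ((γ 1 0 : ℤ) : ZMod 2) = 1 := by
    have := γ.det_coe
    rw [Matrix.det_fin_two] at this
    have h2 := congrArg (fun z : ℤ => (z : ZMod 2)) this
    push_cast at h2
    exact h2
  rcases coset6_aux _ _ _ _ hdet with ⟨h1, h2, h3, h4⟩ | ⟨h1, h2, h3, h4⟩ | ⟨h1, h2, h3, h4⟩ |
    ⟨h1, h2, h3, h4⟩ | ⟨h1, h2, h3, h4⟩ | ⟨h1, h2, h3, h4⟩
  · obtain ⟨δ, hδ, h⟩ := coset6_mem (γ := γ) (r := 1) (by simpa using h1) (by simpa using h2)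
      (by simpa using h3) (by simpa using h4)
    exact ⟨δ, hδ, Or.inl (by rw [h, mul_one])⟩
  · obtain ⟨δ, hδ, h⟩ := coset6_mem (γ := γ) (r := ModularGroup.T)
      (by rw [h1]; decide) (by rw [h2]; decide)
      (by rw [h3]; decide) (by rw [h4]; decide)
    exact ⟨δ, hδ, Or.inr (Or.inl h)⟩
  · obtain ⟨δ, hδ, h⟩ := coset6_mem (γ := γ) (r := ModularGroup.S)
      (by rw [h1]; decide) (by rw [h2]; decide)
      (by rw [h3]; decide) (by rw [h4]; decide)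
    exact ⟨δ, hδ, Or.inr (Or.inr (Or.inl h))⟩
  · obtain ⟨δ, hδ, h⟩ := coset6_mem (γ := γ) (r := ModularGroup.S * ModularGroup.T)
      (by rw [h1]; decide)
      (by rw [h2]; decide)
      (by rw [h3]; decide)
      (by rw [h4]; decide)
    exact ⟨δ, hδ, Or.inr (Or.inr (Or.inr (Or.inl h)))⟩
  · obtain ⟨δ, hδ, h⟩ := coset6_mem (γ := γ) (r := ModularGroup.T * ModularGroup.S)
      (by rw [h1]; decide)
      (by rw [h2]; decide)
      (by rw [h3]; decide)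
      (by rw [h4]; decide)
    exact ⟨δ, hδ, Or.inr (Or.inr (Or.inr (Or.inr (Or.inl h))))⟩
  · obtain ⟨δ, hδ, h⟩ := coset6_mem (γ := γ)
      (r := ModularGroup.T * ModularGroup.S * ModularGroup.T)
      (by rw [h1]; decide)
      (by rw [h2]; decide)
      (by rw [h3]; decide)
      (by rw [h4]; decide)
    exact ⟨δ, hδ, Or.inr (Or.inr (Or.inr (Or.inr (Or.inr h))))⟩

end Pool.Agent.UFC
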