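import Mathlib

/-!
# UFC A: periodic bounded holomorphic functions

`F` holomorphic on `ℍ`, of period `2 n` (`n ≥ 1`), bounded at `i ∞`: then
`F z = Φ(e^(π i z / n))` with `Φ` differentiable on the unit disc
(`Function.Periodic.cuspFunction`, `UpperHalfPlane.cuspFunction`; `qParam (2 n) z = e^(π i z / n)`;
removable singularity at `0` as in `Mathlib/NumberTheory/ModularForms/QExpansion.lean` or
`Function.Periodic.differentiableAt_cuspFunction_zero`), and `F → Φ(0)` at `i ∞`.
-/

set_option autoImplicit false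

namespace Pool.Agent.UFC

open UpperHalfPlane Filter Topology
open scoped Manifold

theorem periodic_exp (n : ℕ) (hn : 0 < n) (F : ℍ → ℂ) (hF : MDiff F)
    (hper : ∀ z : ℍ, F (((2 * n : ℕ) : ℝ) +ᵥ z) = F z) (hb : IsBoundedAtImInfty F) :
    ∃ Φ : ℂ → ℂ, DifferentiableOn ℂ Φ (Metric.ball 0 1) ∧
      (∀ z : ℍ, F z = Φ (Complex.exp (Real.pi * Complex.I * z / n))) ∧
      Tendsto F atImInfty (𝓝 (Φ 0)) := by
  have hn' : (0 : ℝ) < n := by exact_mod_cast hn
  have hh : (0 : ℝ) < ((2 * n : ℕ) : ℝ) := by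
    exact_mod_cast (by omega : 0 < 2 * n)
  have hfper : Function.Periodic (F ∘ ofComplex) (((2 * n : ℕ) : ℝ) : ℂ) := by
    intro w
    by_cases hw : 0 < w.im
    · have hw' : 0 < (w + (((2 * n : ℕ) : ℝ) : ℂ)).im := by
        rw [Complex.add_im, Complex.ofReal_im, add_zero]; exact hw
      simp only [Function.comp_apply, ofComplex_apply_of_im_pos hw', ofComplex_apply_of_im_pos hw]
      rw [← hper ⟨w, hw⟩]
      congr 1
      apply UpperHalfPlane.ext
      rw [UpperHalfPlane.coe_vadd]
      simp [add_comm]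
    · have hw1 : w.im ≤ 0 := not_lt.1 hw
      have hw' : (w + (((2 * n : ℕ) : ℝ) : ℂ)).im ≤ 0 := by
        rw [Complex.add_im, Complex.ofReal_im, add_zero]; exact hw1
      simp only [Function.comp_apply, ofComplex_apply_of_im_nonpos hw',
        ofComplex_apply_of_im_nonpos hw1]
  have hq : ∀ z : ℍ, Function.Periodic.qParam ((2 * n : ℕ) : ℝ) (z : ℂ)
      = Complex.exp (Real.pi * Complex.I * z / n) := by
    intro z
    unfold Function.Periodic.qParam
    congr 1
    have : (n : ℂ) ≠ 0 := by exact_mod_cast hn.ne'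
    push_cast
    field_simp
  refine ⟨UpperHalfPlane.cuspFunction ((2 * n : ℕ) : ℝ) F,
    differentiableOn_cuspFunction_ball hh hfper hF hb, ?_, ?_⟩
  · intro z
    rw [← hq z]
    exact (eq_cuspFunction z hh.ne' hfper).symm
  · have han := analyticAt_cuspFunction_zero hh hfper hF hb
    have h1 : (UpperHalfPlane.cuspFunction ((2 * n : ℕ) : ℝ) F ∘
        fun z : ℍ => Function.Periodic.qParam ((2 * n : ℕ) : ℝ) (z : ℂ)) = F := by
      funext z
      exact eq_cuspFunction z hh.ne' hfper
    have h2 := han.continuousAt.tendsto.comp (qParam_tendsto_atImInfty hh)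
    rw [h1] at h2
    exact h2

end Pool.Agent.UFC
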