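import Mathlib
import Pool.Agent.UFC.A.Defs

/-!
# UFC A: identity theorem on the upper half plane

`f ∘ ofComplex` is analytic on the convex open set `{Im > 0}`
(`UpperHalfPlane.mdifferentiable_iff`, `DifferentiableOn.analyticOnNhd`,
`AnalyticOnNhd.eqOn_of_preconnected_of_eventuallyEq`).  A half plane `{Im z > A}` and a
neighbourhood of a point contain open sets.  `mdiff_mul_zero`: if `f g = 0` and `f z₀ ≠ 0` then
`g = 0` near `z₀`.
-/

set_option autoImplicit false

namespace Pool.Agent.UFC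

open UpperHalfPlane CongruenceSubgroup Filter Topology
open scoped MatrixGroups Manifold ModularForm

theorem mdiff_ident_near (f g : ℍ → ℂ) (hf : MDiff f) (hg : MDiff g) (z₀ : ℍ)
    (h : ∀ᶠ w in 𝓝 z₀, f w = g w) : f = g := by
  have h1 : (f - g) = 0 := by
    refine UpperHalfPlane.eq_zero_of_frequently (τ := z₀) (hf.sub hg) ?_
    have h2 : ∀ᶠ z in 𝓝[≠] z₀, (f - g) z = 0 := by
      filter_upwards [h.filter_mono nhdsWithin_le_nhds] with z hz
      simp [hz]
    exact h2.frequently
  exact sub_eq_zero.1 h1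

theorem mdiff_ident (f g : ℍ → ℂ) (hf : MDiff f) (hg : MDiff g) (z₀ : ℍ)
    (h : ∀ᶠ w : ℂ in 𝓝 (z₀ : ℂ), f (ofComplex w) = g (ofComplex w)) : f = g := by
  refine mdiff_ident_near f g hf hg z₀ ?_
  have h1 := (UpperHalfPlane.continuous_coe.tendsto z₀).eventually h
  filter_upwards [h1] with w hw
  simpa using hw

theorem mdiff_ident_inf (f g : ℍ → ℂ) (hf : MDiff f) (hg : MDiff g)
    (h : ∀ᶠ z in atImInfty, f z = g z) : f = g := by
  obtain ⟨A, hA⟩ := (atImInfty_mem _).1 h
  have hpos : 0 < (((max A 1 + 1 : ℝ) : ℂ) * Complex.I).im := by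
    simp
    have := le_max_right A 1
    linarith
  refine mdiff_ident_near f g hf hg ⟨((max A 1 + 1 : ℝ) : ℂ) * Complex.I, hpos⟩ ?_
  have hc : Continuous UpperHalfPlane.im := UpperHalfPlane.continuous_im
  have hlt : A < UpperHalfPlane.im ⟨((max A 1 + 1 : ℝ) : ℂ) * Complex.I, hpos⟩ := by
    have h1 : UpperHalfPlane.im ⟨((max A 1 + 1 : ℝ) : ℂ) * Complex.I, hpos⟩ = max A 1 + 1 := by
      simp [UpperHalfPlane.im]
    rw [h1]
    have := le_max_left A 1
    linarith
  filter_upwards [(hc.tendsto _).eventually (lt_mem_nhds hlt)] with w hw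
  exact hA w hw.le

theorem mdiff_mul_zero (f g : ℍ → ℂ) (hf : MDiff f) (hg : MDiff g) (h : ∀ z, f z * g z = 0) :
    f = 0 ∨ g = 0 :=
  (UpperHalfPlane.mul_eq_zero_iff hf hg).1 (funext h)

/-- Finitely many distinct holomorphic functions have distinct values at some point. -/
theorem mdiff_sep (ι : Type) [Fintype ι] (F : ι → ℍ → ℂ) (hF : ∀ i, MDiff (F i))
    (hne : ∀ i j, i ≠ j → F i ≠ F j) : ∃ z : ℍ, Function.Injective (fun i => F i z) := by
  classical
  by_contra hcon
  push Not at hcon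
  have h0 : ∏ p ∈ (Finset.univ : Finset ι).offDiag, (F p.1 - F p.2) = 0 := by
    ext z
    rw [Finset.prod_apply]
    have h1 := hcon z
    simp only [Function.Injective] at h1
    push Not at h1
    obtain ⟨i, j, hij, hne'⟩ := h1
    refine Finset.prod_eq_zero (i := (i, j)) (by simpa using hne') ?_
    simp [hij]
  rw [UpperHalfPlane.prod_eq_zero_iff (fun p _ => (hF p.1).sub (hF p.2))] at h0
  obtain ⟨p, hp, hp'⟩ := h0
  exact hne p.1 p.2 (by simpa using hp) (sub_eq_zero.1 hp')

end Pool.Agent.UFC
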