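import Mathlib

/-!
# UFC A: analytic local inverse

`HasStrictDerivAt.to_localInverse`, `HasStrictDerivAt.eventually_right_inverse`,
`HasStrictDerivAt.eventually_left_inverse`, and differentiability near the point implies
analyticity; or `ContDiffAt.to_localInverse`.
-/

set_option autoImplicit false

namespace Pool.Agent.UFC

open Filter Topology

theorem local_inverse (f : ℂ → ℂ) (z₀ : ℂ) (hf : AnalyticAt ℂ f z₀) (h : deriv f z₀ ≠ 0) :
    ∃ ψ : ℂ → ℂ, AnalyticAt ℂ ψ (f z₀) ∧ ψ (f z₀) = z₀ ∧ (∀ᶠ w in 𝓝 (f z₀), f (ψ w) = w) ∧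
      ∀ᶠ z in 𝓝 z₀, ψ (f z) = z := by
  have hs : HasStrictDerivAt f (deriv f z₀) z₀ := hf.hasStrictDerivAt
  have hc : ContDiffAt ℂ ⊤ f z₀ := hf.contDiffAt
  have hF : HasFDerivAt f
      ((ContinuousLinearEquiv.unitsEquivAut ℂ (Units.mk0 _ h) : ℂ ≃L[ℂ] ℂ) : ℂ →L[ℂ] ℂ) z₀ :=
    (hs.hasStrictFDerivAt_equiv h).hasFDerivAt
  refine ⟨hc.localInverse hF (by simp), ?_, ?_, ?_, ?_⟩
  · exact (hc.to_localInverse hF (by simp)).analyticAt
  · exact hc.localInverse_apply_image hF (by simp)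
  · exact (hs.hasStrictFDerivAt_equiv h).eventually_right_inverse
  · exact (hs.hasStrictFDerivAt_equiv h).eventually_left_inverse

end Pool.Agent.UFC
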