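import Mathlib
import Pool.Agent.UFC.A.LocInv

/-!
# UFC A: local coordinate at a cusp

`φ` analytic at `0`, `φ(0) ≠ 0`, `n ≥ 1`.  Let `ρ` be an analytic `n`-th root of `s ↦ φ(s^n)` near `0`
(e.g. `ρ(s) = c * exp(Log(φ(s^n) / φ(0)) / n)`, `c^n = φ(0)`), and `w(s) = s ρ(s)`; then
`w(s)^n = s^n φ(s^n)`, `w(0) = 0`, `w'(0) = ρ(0) ≠ 0`; take the local inverse `σ` (`local_inverse`).
-/

set_option autoImplicit false

namespace Pool.Agent.UFC

open Filter Topology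

theorem cusp_coord (φ : ℂ → ℂ) (hφ : AnalyticAt ℂ φ 0) (h0 : φ 0 ≠ 0) (n : ℕ) (hn : 0 < n) :
    ∃ σ : ℂ → ℂ, AnalyticAt ℂ σ 0 ∧ σ 0 = 0 ∧ deriv σ 0 ≠ 0 ∧
      ∀ᶠ w in 𝓝 (0 : ℂ), σ w ^ n * φ (σ w ^ n) = w ^ n := by
  obtain ⟨c, hc⟩ := IsAlgClosed.exists_pow_nat_eq (φ 0) hn
  have hc0 : c ≠ 0 := by
    rintro rfl
    rw [zero_pow hn.ne'] at hc
    exact h0 hc.symm
  have hn0 : (n : ℂ) ≠ 0 := by exact_mod_cast hn.ne'
  -- the function phi (s^n) / phi 0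
  have hpow : AnalyticAt ℂ (fun s : ℂ => s ^ n) 0 := (analyticAt_id.pow n)
  have hψ : AnalyticAt ℂ (fun s : ℂ => φ (s ^ n) / φ 0) 0 := by
    have h1 : AnalyticAt ℂ (fun s : ℂ => φ (s ^ n)) 0 := by
      apply AnalyticAt.fun_comp _ hpow
      rw [zero_pow hn.ne']
      exact hφ
    exact h1.div_const
  have hψ0 : φ (0 ^ n) / φ 0 = 1 := by
    rw [zero_pow hn.ne']
    exact div_self h0
  have hlog : AnalyticAt ℂ (fun s : ℂ => Complex.log (φ (s ^ n) / φ 0)) 0 := by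
    apply hψ.clog
    show φ (0 ^ n) / φ 0 ∈ Complex.slitPlane
    rw [hψ0]
    exact Complex.one_mem_slitPlane
  set ρ : ℂ → ℂ := fun s => c * Complex.exp (Complex.log (φ (s ^ n) / φ 0) / n) with hρ
  have hρa : AnalyticAt ℂ ρ 0 := analyticAt_const.mul (hlog.div_const.cexp)
  have hρ0 : ρ 0 = c := by
    have : φ (0 ^ n) / φ 0 = 1 := hψ0
    simp only [hρ, this, Complex.log_one, zero_div, Complex.exp_zero, mul_one]
  have hne : ∀ᶠ s in 𝓝 (0 : ℂ), φ (s ^ n) / φ 0 ≠ 0 := by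
    apply hψ.continuousAt.eventually_ne
    show φ (0 ^ n) / φ 0 ≠ 0
    rw [hψ0]
    exact one_ne_zero
  have hρn : ∀ᶠ s in 𝓝 (0 : ℂ), ρ s ^ n = φ (s ^ n) := by
    filter_upwards [hne] with s hs
    simp only [hρ]
    rw [mul_pow, hc, ← Complex.exp_nat_mul, mul_div_cancel₀ _ hn0, Complex.exp_log hs]
    field_simp
  set W : ℂ → ℂ := fun s => s * ρ s with hW
  have hWa : AnalyticAt ℂ W 0 := analyticAt_id.mul hρa
  have hW0 : W 0 = 0 := by simp [hW]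
  have hWd : deriv W 0 ≠ 0 := by
    have h1 : HasDerivAt W (1 * ρ 0 + 0 * deriv ρ 0) 0 :=
      (hasDerivAt_id (0 : ℂ)).mul hρa.differentiableAt.hasDerivAt
    rw [h1.deriv, hρ0]
    simpa using hc0
  obtain ⟨σ, hσ, hσ0, hσ1, -⟩ := local_inverse W 0 hWa hWd
  rw [hW0] at hσ hσ0 hσ1
  have hdσ : deriv σ 0 ≠ 0 := by
    intro hzero
    have h1 : HasDerivAt (fun w => W (σ w)) (deriv W 0 * deriv σ 0) 0 := by
      have h2 : HasDerivAt W (deriv W 0) (σ 0) := by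
        rw [hσ0]
        exact hWa.differentiableAt.hasDerivAt
      exact h2.comp 0 hσ.differentiableAt.hasDerivAt
    have h3 : HasDerivAt (fun w => W (σ w)) 1 0 := (hasDerivAt_id (0 : ℂ)).congr_of_eventuallyEq hσ1
    have h4 := h1.unique h3
    rw [hzero, mul_zero] at h4
    exact one_ne_zero h4.symm
  refine ⟨σ, hσ, hσ0, hdσ, ?_⟩
  have hcont : Tendsto σ (𝓝 0) (𝓝 0) := by
    have := hσ.continuousAt.tendsto
    rwa [hσ0] at this
  filter_upwards [hσ1, hcont.eventually hρn] with w h1 h2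
  rw [← h2, ← mul_pow]
  exact congrArg (· ^ n) h1

end Pool.Agent.UFC
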