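import Mathlib
import Pool.Agent.UFC.A.Defs
import Pool.Agent.UFC.A.Cusp1
import Pool.Agent.UFC.A.Root
import Pool.Agent.UFC.A.Ident
import Pool.Agent.UFC.A.BdD

/-!
# UFC A: local presentations at a cusp

`μ z = q2 z * φ (q2 z)` with `φ` analytic at `0`, `φ(0) ≠ 0`.  By `periodic_exp`,
`F i z = Φ i (e^(π i z / n))`.  Let `σ` be as in `cusp_coord` and `a i w = Φ i (σ w)`, analytic at `0`.
For `w ≠ 0` near `0` put `s = σ w`, `s ≠ 0` small, `s = e^(π i z / n)` with `z ∈ ℍ`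
(`z = n log s / (π i)`), `q2 z = s^n`, so `μ z = s^n φ(s^n) = w^n` and
`ev w (subT (X^n) P) = ev (w^n) P = ev (μ z) P = ∏ (X - C (F i z)) = ∏ (X - C (a i w))`; at `w = 0` by
continuity of the coefficients.  The germs `a i` are different: `a i = a j` near `0` gives
`Φ i = Φ j` near `0` (`σ` is open at `0`: `local_inverse` or the open mapping theorem), so
`F i z = F j z` for `Im z` large, so `F i = F j` (`mdiff_ident_inf`).  Then `bd_of_germs`.
-/

set_option autoImplicit false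

namespace Pool.Agent.UFC

open UpperHalfPlane CongruenceSubgroup Polynomial Filter Topology
open scoped MatrixGroups Manifold ModularForm

theorem cusp2_ev (n : ℕ) (w : ℂ) (P : ℂ[X][X]) : ev w (subT (X ^ n) P) = ev (w ^ n) P := by
  unfold ev subT
  rw [Polynomial.map_map]
  congr 1
  apply Polynomial.ringHom_ext
  · intro a
    simp
  · simp

theorem cusp2_q2 (n : ℕ) (hn : 0 < n) (z : ℍ) :
    q2 z = Complex.exp (Real.pi * Complex.I * z / n) ^ n := by
  have hn0 : (n : ℂ) ≠ 0 := by exact_mod_cast hn.ne'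
  unfold q2
  rw [← Complex.exp_nat_mul, mul_div_cancel₀ _ hn0]

theorem cusp2_tendsto (n : ℕ) (hn : 0 < n) :
    Tendsto (fun z : ℍ => Complex.exp (Real.pi * Complex.I * z / n)) atImInfty (𝓝 0) := by
  have hh : (0 : ℝ) < ((2 * n : ℕ) : ℝ) := by
    exact_mod_cast (by omega : 0 < 2 * n)
  have h1 := qParam_tendsto_atImInfty hh
  have hq : ∀ z : ℍ, Function.Periodic.qParam ((2 * n : ℕ) : ℝ) (z : ℂ)
      = Complex.exp (Real.pi * Complex.I * z / n) := by
    intro z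
    unfold Function.Periodic.qParam
    congr 1
    have : (n : ℂ) ≠ 0 := by exact_mod_cast hn.ne'
    push_cast
    field_simp
  have h2 := h1.mono_right (le_refl _)
  refine h2.congr ?_
  intro z
  exact hq z

/-- Every small nonzero `s` is `e^(π i z / n)` with `z` high in the upper half plane. -/
theorem cusp2_log (n : ℕ) (hn : 0 < n) (A : ℝ) :
    ∀ᶠ s in 𝓝[≠] (0 : ℂ), ∃ z : ℍ, A ≤ z.im ∧ Complex.exp (Real.pi * Complex.I * z / n) = s := by
  have hn' : (0 : ℝ) < n := by exact_mod_cast hn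
  have hn0 : (n : ℂ) ≠ 0 := by exact_mod_cast hn.ne'
  have hpi : (Real.pi : ℂ) ≠ 0 := by exact_mod_cast Real.pi_ne_zero
  have hnorm : Tendsto (fun s : ℂ => ‖s‖) (𝓝[≠] 0) (𝓝[>] 0) := tendsto_norm_nhdsNE_zero
  have hlog : Tendsto (fun s : ℂ => Real.log ‖s‖) (𝓝[≠] 0) atBot :=
    Real.tendsto_log_nhdsGT_zero.comp hnorm
  have hev := hlog.eventually_le_atBot (-(Real.pi * (max A 0 + 1) / n))
  filter_upwards [hev, self_mem_nhdsWithin] with s hs hs0
  have hs0' : s ≠ 0 := hs0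
  have hre : (Complex.log s).re ≤ -(Real.pi * (max A 0 + 1) / n) := by
    rw [Complex.log_re]
    exact hs
  have him : ((n : ℂ) * Complex.log s / (Real.pi * Complex.I)).im =
      -(n * (Complex.log s).re / Real.pi) := by
    have h1 : (n : ℂ) * Complex.log s / (Real.pi * Complex.I) =
        ((n / Real.pi : ℝ) : ℂ) * (-(Complex.I * Complex.log s)) := by
      push_cast
      field_simp
      ring_nf
      rw [Complex.I_sq]
      ring
    rw [h1, Complex.im_ofReal_mul]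
    simp
    ring
  have hge : max A 0 + 1 ≤ ((n : ℂ) * Complex.log s / (Real.pi * Complex.I)).im := by
    rw [him]
    have h2 : n * (Complex.log s).re ≤ n * -(Real.pi * (max A 0 + 1) / n) :=
      mul_le_mul_of_nonneg_left hre hn'.le
    have h3 : (n : ℝ) * -(Real.pi * (max A 0 + 1) / n) = -(Real.pi * (max A 0 + 1)) := by
      field_simp
    rw [h3] at h2
    have h4 : n * (Complex.log s).re / Real.pi ≤ -(max A 0 + 1) := by
      rw [div_le_iff₀ Real.pi_pos]
      linarith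
    linarith
  have hpos : 0 < ((n : ℂ) * Complex.log s / (Real.pi * Complex.I)).im := by
    have := le_max_right A 0
    linarith
  refine ⟨⟨_, hpos⟩, ?_, ?_⟩
  · have := le_max_left A 0
    show A ≤ ((n : ℂ) * Complex.log s / (Real.pi * Complex.I)).im
    linarith
  · have h5 : (Real.pi : ℂ) * Complex.I * ((n : ℂ) * Complex.log s / (Real.pi * Complex.I)) / n =
        Complex.log s := by
      have hI : Complex.I ≠ 0 := Complex.I_ne_zero
      field_simp
    show Complex.exp ((Real.pi : ℂ) * Complex.I *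
      ((n : ℂ) * Complex.log s / (Real.pi * Complex.I)) / n) = s
    rw [h5, Complex.exp_log hs0']

theorem bd_cusp (n : ℕ) (hn : 0 < n) (ι : Type) [Fintype ι] (F : ι → ℍ → ℂ)
    (hF : ∀ i, MDiff (F i)) (hne : ∀ i j, i ≠ j → F i ≠ F j)
    (hper : ∀ i, ∀ z : ℍ, F i (((2 * n : ℕ) : ℝ) +ᵥ z) = F i z)
    (hb : ∀ i, IsBoundedAtImInfty (F i)) (φ : ℂ → ℂ) (hφ : AnalyticAt ℂ φ 0) (hφ0 : φ 0 ≠ 0)
    (P : ℂ[X][X]) (hP : P.Monic)
    (hev : ∀ᶠ z : ℍ in atImInfty, ev (q2 z * φ (q2 z)) P = ∏ i, (X - C (F i z))) :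
    Bd (subT (X ^ n) P) := by
  classical
  choose Φ hΦd hΦ _ using fun i => periodic_exp n hn (F i) (hF i) (hper i) (hb i)
  obtain ⟨σ, hσ, hσ0, hσd, hσw⟩ := cusp_coord φ hφ hφ0 n hn
  have hΦa : ∀ i, AnalyticAt ℂ (Φ i) 0 := fun i =>
    (hΦd i).analyticAt (Metric.ball_mem_nhds 0 one_pos)
  have ha : ∀ i, AnalyticAt ℂ (fun w => Φ i (σ w)) 0 := by
    intro i
    apply AnalyticAt.fun_comp _ hσ
    rw [hσ0]
    exact hΦa i
  have hσt : Tendsto σ (𝓝 0) (𝓝 0) := by
    have := hσ.continuousAt.tendsto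
    rwa [hσ0] at this
  -- the germs are different
  have hgerm : ∀ i j, i ≠ j → ¬ ((fun w => Φ i (σ w)) =ᶠ[𝓝 0] (fun w => Φ j (σ w))) := by
    intro i j hij hij2
    apply hne i j hij
    obtain ⟨τ, hτ, hτ0, hτ1, -⟩ := local_inverse σ 0 hσ hσd
    rw [hσ0] at hτ hτ0 hτ1
    have hτt : Tendsto τ (𝓝 0) (𝓝 0) := by
      have := hτ.continuousAt.tendsto
      rwa [hτ0] at this
    have h1 : ∀ᶠ s in 𝓝 (0 : ℂ), Φ i s = Φ j s := by
      filter_upwards [hτt.eventually hij2, hτ1] with s h1 h2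
      have h3 : Φ i (σ (τ s)) = Φ j (σ (τ s)) := h1
      rwa [h2] at h3
    apply mdiff_ident_inf (F i) (F j) (hF i) (hF j)
    filter_upwards [(cusp2_tendsto n hn).eventually h1] with z hz
    rw [hΦ i z, hΦ j z]
    exact hz
  -- the values of `P`
  obtain ⟨A, hA⟩ := (atImInfty_mem _).1 hev
  have hσne : ∀ᶠ w in 𝓝[≠] (0 : ℂ), σ w ≠ 0 := by
    filter_upwards [hσw.filter_mono nhdsWithin_le_nhds, self_mem_nhdsWithin] with w h1 h2 h3
    have h2' : w ≠ 0 := h2
    rw [h3, zero_pow hn.ne', zero_mul] at h1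
    exact h2' ((pow_eq_zero_iff hn.ne').1 h1.symm)
  have hσt' : Tendsto σ (𝓝[≠] 0) (𝓝[≠] 0) :=
    tendsto_nhdsWithin_iff.2 ⟨hσt.mono_left nhdsWithin_le_nhds, hσne⟩
  have hpunct : ∀ᶠ w in 𝓝[≠] (0 : ℂ),
      ev w (subT (X ^ n) P) = ∏ i, (X - C (Φ i (σ w))) := by
    filter_upwards [hσt'.eventually (cusp2_log n hn A), hσw.filter_mono nhdsWithin_le_nhds]
      with w hw1 hw2
    obtain ⟨z, hz1, hz2⟩ := hw1
    have h1 : ev (q2 z * φ (q2 z)) P = ∏ i, (X - C (F i z)) := hA z hz1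
    rw [cusp2_ev, ← hw2]
    rw [cusp2_q2 n hn z, hz2] at h1
    rw [h1]
    refine Finset.prod_congr rfl fun i _ => ?_
    rw [hΦ i z, hz2]
  have hAn : AnC (fun w => ∏ i, (X - C (Φ i (σ w)))) :=
    AnC.prod _ _ (fun i _ => AnC.X.sub (AnC.C (ha i)))
  have hzero : ev 0 (subT (X ^ n) P) = ∏ i, (X - C (Φ i (σ 0))) := by
    ext m
    have h1 : Tendsto (fun w => ((subT (X ^ n) P).coeff m).eval w) (𝓝[≠] 0)
        (𝓝 (((subT (X ^ n) P).coeff m).eval 0)) :=
      (((subT (X ^ n) P).coeff m).continuous.tendsto 0).mono_left nhdsWithin_le_nhds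
    have h2 : Tendsto (fun w => (∏ i, (X - C (Φ i (σ w))) : ℂ[X]).coeff m) (𝓝[≠] 0)
        (𝓝 ((∏ i, (X - C (Φ i (σ 0))) : ℂ[X]).coeff m)) :=
      Tendsto.mono_left (hAn m).continuousAt nhdsWithin_le_nhds
    have h3 : ((subT (X ^ n) P).coeff m).eval 0 =
        (∏ i, (X - C (Φ i (σ 0))) : ℂ[X]).coeff m := by
      refine tendsto_nhds_unique_of_eventuallyEq h1 h2 ?_
      filter_upwards [hpunct] with w hw
      rw [← hw]
      simp [ev]
    rw [← h3]
    simp [ev]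
  have hall : ∀ᶠ w in 𝓝 (0 : ℂ),
      ev w (subT (X ^ n) P) = ∏ i, (X - C (Φ i (σ w))) := by
    rw [eventually_nhdsWithin_iff] at hpunct
    filter_upwards [hpunct] with w hw
    by_cases h0 : w = 0
    · rw [h0]
      exact hzero
    · exact hw h0
  refine bd_of_germs (subT (X ^ n) P) ?_ ι (fun i w => Φ i (σ w)) ha hgerm hall
  unfold subT
  exact hP.map _

end Pool.Agent.UFC
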