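import Mathlib
import Pool.Agent.UFC.A.Defs

/-!
# UFC A: Eisenstein sums of weight `4`: convergence and holomorphy

`∑_v |v 0 z + v 1|^(-4)` converges locally uniformly on `ℍ`, e.g.
`EisensteinSeries.summand_bound`, `EisensteinSeries.summable_one_div_norm_rpow`,
`EisensteinSeries.summand_bound_of_mem_verticalStrip`
(`Mathlib/NumberTheory/ModularForms/EisensteinSeries/Summable.lean`, `UniformConvergence.lean`,
`MDifferentiable.lean`); the term `v = 0` is `0⁻¹ = 0`.  Restriction of a summable family to a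
subset is summable.
-/

set_option autoImplicit false

namespace Pool.Agent.UFC

open UpperHalfPlane CongruenceSubgroup
open scoped MatrixGroups Manifold ModularForm

theorem eis_summable (Ω : Set (Fin 2 → ℤ)) (z : ℍ) :
    Summable (fun v : Ω => ‖((v.1 0 : ℂ) * z + (v.1 1 : ℂ)) ^ (-4 : ℤ)‖) := by
  have p_sum : Summable fun x : Ω ↦ ‖x.val‖ ^ (-4 : ℝ) :=
    (EisensteinSeries.summable_one_div_norm_rpow (k := 4) (by norm_num)).subtype Ω
  refine Summable.of_nonneg_of_le (fun _ => norm_nonneg _) (fun v => ?_)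
    (p_sum.mul_left (EisensteinSeries.r z ^ (-4 : ℝ)))
  have h := EisensteinSeries.summand_bound z (k := 4) (by norm_num) v.1
  rw [norm_zpow, ← Real.rpow_intCast]
  push_cast
  exact h

theorem eis_mdiff (Ω : Set (Fin 2 → ℤ)) : MDiff (eis Ω) := by
  rw [UpperHalfPlane.mdifferentiable_iff]
  have hcongr : ∀ z ∈ {z : ℂ | 0 < z.im}, (eis Ω ∘ ofComplex) z =
      ∑' v : Ω, ((v.1 0 : ℂ) * z + (v.1 1 : ℂ)) ^ (-4 : ℤ) := by
    intro z hz
    simp only [Function.comp_apply, eis]
    rw [ofComplex_apply_of_im_pos hz]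
  refine DifferentiableOn.congr ?_ hcongr
  intro z hz
  have hz' : 0 < z.im := hz
  have hU : IsOpen {w : ℂ | |w.re| < |z.re| + 1 ∧ z.im / 2 < w.im} := by
    have h1 : Continuous fun w : ℂ => |w.re| := Complex.continuous_re.abs
    exact (isOpen_lt h1 continuous_const).inter (isOpen_lt continuous_const Complex.continuous_im)
  have hB : 0 < z.im / 2 := by linarith
  have p_sum : Summable fun x : Ω ↦ ‖x.val‖ ^ (-4 : ℝ) :=
    (EisensteinSeries.summable_one_div_norm_rpow (k := 4) (by norm_num)).subtype Ω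
  have hd : DifferentiableOn ℂ
      (fun w : ℂ => ∑' v : Ω, ((v.1 0 : ℂ) * w + (v.1 1 : ℂ)) ^ (-4 : ℤ))
      {w : ℂ | |w.re| < |z.re| + 1 ∧ z.im / 2 < w.im} := by
    refine Complex.differentiableOn_tsum_of_summable_norm
      (p_sum.mul_left (EisensteinSeries.r ⟨⟨|z.re| + 1, z.im / 2⟩, hB⟩ ^ (-4 : ℝ))) ?_ hU ?_
    · intro v
      refine (EisensteinSeries.div_linear_zpow_differentiableOn 4 v.1).mono ?_
      intro w hw
      exact lt_trans hB hw.2
    · intro v w hw
      have hw0 : 0 < w.im := lt_trans hB hw.2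
      have h := EisensteinSeries.summand_bound_of_mem_verticalStrip (z := ⟨w, hw0⟩) (k := 4)
        (by norm_num) v.1 hB (A := |z.re| + 1) ⟨hw.1.le, hw.2.le⟩
      rw [norm_zpow, ← Real.rpow_intCast]
      push_cast
      exact h
  have hmem : z ∈ {w : ℂ | |w.re| < |z.re| + 1 ∧ z.im / 2 < w.im} :=
    ⟨by linarith [abs_nonneg z.re], by linarith⟩
  exact (hd.differentiableAt (hU.mem_nhds hmem)).differentiableWithinAt

end Pool.Agent.UFC
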