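import Mathlib
import Pool.Agent.UFC.A.Defs

/-!
# UFC A: Eisenstein sums of weight `4`: slash action

`vecMul v γ = (v 0 a + v 1 c, v 0 b + v 1 d)` for `γ = [[a, b], [c, d]]` and
`(v 0 (γ z) + v 1)(c z + d) = (vecMul v γ) 0 * z + (vecMul v γ) 1`.  The map `v ↦ vecMul v γ` is
injective, so this is a reindexing of the `tsum` over `Ω` (`ModularForm.SL_slash_apply`;
see also `EisensteinSeries.eisSummand_SL2_apply`).
-/

set_option autoImplicit false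

namespace Pool.Agent.UFC

open UpperHalfPlane CongruenceSubgroup
open scoped MatrixGroups Manifold ModularForm

namespace Eis2

theorem vecMul_inj (γ : SL(2, ℤ)) :
    Function.Injective (fun v : Fin 2 → ℤ => Matrix.vecMul v (γ : Matrix (Fin 2) (Fin 2) ℤ)) := by
  intro v w h
  have h1 : Matrix.vecMul (Matrix.vecMul v (γ : Matrix (Fin 2) (Fin 2) ℤ))
      ((γ⁻¹ : SL(2, ℤ)) : Matrix (Fin 2) (Fin 2) ℤ) =
      Matrix.vecMul (Matrix.vecMul w (γ : Matrix (Fin 2) (Fin 2) ℤ))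
      ((γ⁻¹ : SL(2, ℤ)) : Matrix (Fin 2) (Fin 2) ℤ) := congrArg (fun u => Matrix.vecMul u
        ((γ⁻¹ : SL(2, ℤ)) : Matrix (Fin 2) (Fin 2) ℤ)) h
  have h2 : (γ : Matrix (Fin 2) (Fin 2) ℤ) * ((γ⁻¹ : SL(2, ℤ)) : Matrix (Fin 2) (Fin 2) ℤ) = 1 := by
    rw [← Matrix.SpecialLinearGroup.coe_mul, mul_inv_cancel, Matrix.SpecialLinearGroup.coe_one]
  rwa [Matrix.vecMul_vecMul, Matrix.vecMul_vecMul, h2, Matrix.vecMul_one, Matrix.vecMul_one] at h1

theorem eis_eq (Ω : Set (Fin 2 → ℤ)) (z : ℍ) :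
    eis Ω z = ∑' v : Ω, EisensteinSeries.eisSummand 4 v.1 z := rfl

end Eis2

theorem eis_slash (Ω : Set (Fin 2 → ℤ)) (γ : SL(2, ℤ)) :
    eis Ω ∣[(4 : ℤ)] γ = eis ((fun v => Matrix.vecMul v (γ : Matrix (Fin 2) (Fin 2) ℤ)) '' Ω) := by
  ext1 z
  rw [ModularForm.SL_slash_apply, zpow_neg,
    mul_inv_eq_iff_eq_mul₀ (zpow_ne_zero _ (denom_ne_zero _ z)), Eis2.eis_eq, Eis2.eis_eq]
  simp_rw [EisensteinSeries.eisSummand_SL2_apply]
  rw [tsum_mul_left, mul_comm]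
  congr 1
  exact (tsum_image (fun v => EisensteinSeries.eisSummand 4 v z)
    ((Eis2.vecMul_inj γ).injOn)).symm

end Pool.Agent.UFC
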