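import Mathlib
import Pool.Agent.UFC.A.Defs

/-!
# UFC A: Eisenstein sums of weight `4`: limit at `i ∞`

The sum is not periodic, so first bound each term uniformly in `Re z`:
for `Im z ≥ 1` and `v ≠ 0` one has `|v 0 z + v 1|^2 = (v 0 x + v 1)^2 + (v 0)^2 y^2`.
Claim: `sup_x ∑_{v, v 0 ≠ 0} |v 0 z + v 1|^(-4) → 0` as `y → ∞`: for fixed `m = v 0 ≠ 0` the sum over
`n = v 1` of `((m x + n)^2 + m^2 y^2)^(-2)` is at most
`∑_n ((m x + n)^2 + m^2 y^2)^(-1) (m y)^(-2) ≤ C (m y)^(-2)` (`C = sup_t ∑_n ((t + n)^2 + 1)^(-1)`,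
which is finite by periodicity: for `|t| ≤ 1/2`, `|t + n| ≥ |n| / 2`), and `∑_m m^(-2) < ∞`.
So the sum over `v 0 ≠ 0` tends to `0` at `i ∞`, and the terms with `v 0 = 0` are constant.
(Boundedness alone is in Mathlib for the full sum, `EisensteinSeries/IsBoundedAtImInfty.lean`; it
does not give the limit of a partial sum.)
-/

set_option autoImplicit false

namespace Pool.Agent.UFC

open UpperHalfPlane CongruenceSubgroup Filter Topology
open scoped MatrixGroups Manifold ModularForm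

/-- The majorant of the terms with `v 0 ≠ 0`. -/
noncomputable def e3t (z : ℍ) (v : Fin 2 → ℤ) : ℝ :=
  if v 0 = 0 then 0 else (‖((v 0 : ℂ) * z + (v 1 : ℂ))‖ ^ 4)⁻¹

theorem e3t_nonneg (z : ℍ) (v : Fin 2 → ℤ) : 0 ≤ e3t z v := by
  unfold e3t; split_ifs <;> positivity

/-- The bound constant for the strip. -/
noncomputable def e3r : ℝ := EisensteinSeries.r ⟨⟨1, 1⟩, one_pos⟩

theorem e3r_pos : 0 < e3r := EisensteinSeries.r_pos _

theorem e3t_le (z : ℍ) (hz : z ∈ verticalStrip 1 1) (v : Fin 2 → ℤ) :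
    e3t z v ≤ z.im⁻¹ * ((e3r ^ 3)⁻¹ * ‖v‖ ^ (-(3 : ℝ))) := by
  unfold e3t
  have him : 0 < z.im := z.im_pos
  split_ifs with h
  · have := e3r_pos
    positivity
  · have hv : v ≠ 0 := by
      rintro rfl; simp at h
    have hvn : 0 < ‖v‖ := norm_pos_iff.2 hv
    have h1 : e3r * ‖v‖ ≤ ‖((v 0 : ℂ) * z + (v 1 : ℂ))‖ :=
      (mul_le_mul_of_nonneg_right (EisensteinSeries.r_lower_bound_on_verticalStrip z one_pos hz)
        hvn.le).trans (EisensteinSeries.r_mul_max_le z hv)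
    have h2 : z.im ≤ ‖((v 0 : ℂ) * z + (v 1 : ℂ))‖ := by
      have h3 : |((v 0 : ℂ) * z + (v 1 : ℂ)).im| ≤ ‖((v 0 : ℂ) * z + (v 1 : ℂ))‖ :=
        Complex.abs_im_le_norm _
      have h4 : ((v 0 : ℂ) * z + (v 1 : ℂ)).im = (v 0 : ℝ) * z.im := by
        simp
      rw [h4, abs_mul, abs_of_pos him] at h3
      have h5 : (1 : ℝ) ≤ |(v 0 : ℝ)| := by
        exact_mod_cast Int.one_le_abs h
      nlinarith
    have hr := e3r_pos
    have h6 : z.im * (e3r * ‖v‖) ^ 3 ≤ ‖((v 0 : ℂ) * z + (v 1 : ℂ))‖ ^ 4 := by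
      calc z.im * (e3r * ‖v‖) ^ 3 ≤ ‖((v 0 : ℂ) * z + (v 1 : ℂ))‖ *
            ‖((v 0 : ℂ) * z + (v 1 : ℂ))‖ ^ 3 := by gcongr
        _ = _ := by ring
    have h7 : ‖v‖ ^ (-(3 : ℝ)) = (‖v‖ ^ 3)⁻¹ := by
      rw [Real.rpow_neg (norm_nonneg _)]
      norm_cast
    rw [h7, ← mul_inv, ← mul_pow, ← mul_inv]
    exact inv_anti₀ (by positivity) h6

theorem e3t_vadd (z : ℍ) (n : ℤ) :
    ∑' v, e3t (((n : ℝ)) +ᵥ z) v = ∑' v, e3t z v := by
  let e : (Fin 2 → ℤ) ≃ (Fin 2 → ℤ) :=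
    { toFun := fun v => ![v 0, v 1 + n * v 0]
      invFun := fun v => ![v 0, v 1 - n * v 0]
      left_inv := fun v => by ext i; fin_cases i <;> simp
      right_inv := fun v => by ext i; fin_cases i <;> simp }
  rw [← e.tsum_eq (fun v => e3t z v)]
  refine tsum_congr fun v => ?_
  unfold e3t
  have h0 : e v 0 = v 0 := rfl
  have h1 : e v 1 = v 1 + n * v 0 := rfl
  rw [h0, h1]
  have h2 : ((v 0 : ℂ) * (((n : ℝ) +ᵥ z : ℍ) : ℂ) + (v 1 : ℂ))
      = ((v 0 : ℂ) * z + ((v 1 + n * v 0 : ℤ) : ℂ)) := by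
    rw [UpperHalfPlane.coe_vadd]
    push_cast
    ring
  rw [h2]

theorem e3t_summable (z : ℍ) : Summable (e3t z) := by
  have h := ((EisensteinSeries.summable_one_div_norm_rpow
    (show (2 : ℝ) < 4 by norm_num)).mul_left (EisensteinSeries.r z ^ (-(4 : ℝ))))
  refine h.of_nonneg_of_le (e3t_nonneg z) fun v => ?_
  unfold e3t
  have h1 := EisensteinSeries.summand_bound z (show (0 : ℝ) ≤ 4 by norm_num) v
  split_ifs with hv
  · exact (Real.rpow_nonneg (norm_nonneg _) _).trans h1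
  · refine le_trans (le_of_eq ?_) h1
    rw [Real.rpow_neg (norm_nonneg _)]
    norm_cast

/-- The constant of the bound. -/
noncomputable def e3C : ℝ := ∑' v : Fin 2 → ℤ, ((e3r ^ 3)⁻¹ * ‖v‖ ^ (-(3 : ℝ)))

theorem e3_bound (z : ℍ) (hz : 1 ≤ z.im) : ∑' v, e3t z v ≤ z.im⁻¹ * e3C := by
  set w : ℍ := (((-round z.re : ℤ) : ℝ)) +ᵥ z with hw
  have hwim : w.im = z.im := by rw [hw, UpperHalfPlane.vadd_im]
  have hws : w ∈ verticalStrip 1 1 := by
    rw [mem_verticalStrip_iff]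
    refine ⟨?_, by rw [hwim]; exact hz⟩
    rw [hw, UpperHalfPlane.vadd_re]
    push_cast
    rw [neg_add_eq_sub]
    exact (abs_sub_round z.re).trans (by norm_num)
  have hsum : Summable fun v : Fin 2 → ℤ => ((e3r ^ 3)⁻¹ * ‖v‖ ^ (-(3 : ℝ))) :=
    (EisensteinSeries.summable_one_div_norm_rpow (show (2 : ℝ) < 3 by norm_num)).mul_left _
  rw [← e3t_vadd z (-round z.re), ← hw, e3C, ← hwim, ← tsum_mul_left]
  exact (e3t_summable w).tsum_le_tsum (fun v => e3t_le w hws v) (hsum.mul_left _)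

theorem e3_diff (Ω : Set (Fin 2 → ℤ)) (z : ℍ) :
    ‖eis Ω z - ∑' v : Ω, (if v.1 0 = 0 then (v.1 1 : ℂ) ^ (-4 : ℤ) else 0)‖
      ≤ ∑' v, e3t z v := by
  have hs : Summable (fun v : Fin 2 → ℤ => ((v 0 : ℂ) * z + (v 1 : ℂ)) ^ (-4 : ℤ)) := by
    refine Summable.of_norm ?_
    have h := ((EisensteinSeries.summable_one_div_norm_rpow
      (show (2 : ℝ) < 4 by norm_num)).mul_left (EisensteinSeries.r z ^ (-(4 : ℝ))))
    refine h.of_nonneg_of_le (fun _ => norm_nonneg _) fun v => ?_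
    have h1 := EisensteinSeries.summand_bound z (show (0 : ℝ) ≤ 4 by norm_num) v
    refine le_trans (le_of_eq ?_) h1
    rw [Real.rpow_neg (norm_nonneg _), norm_zpow, zpow_neg]
    norm_cast
  have hs0 : Summable (fun v : Fin 2 → ℤ =>
      (if v 0 = 0 then (v 1 : ℂ) ^ (-4 : ℤ) else 0)) := by
    refine hs.norm.of_norm_bounded fun v => ?_
    split_ifs with h
    · rw [h]; simp
    · simp
  have hsΩ := hs.subtype Ω
  have hs0Ω := hs0.subtype Ω
  have h1 : eis Ω z - ∑' v : Ω, (if v.1 0 = 0 then (v.1 1 : ℂ) ^ (-4 : ℤ) else 0)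
      = ∑' v : Ω, ((((v.1 0 : ℂ) * z + (v.1 1 : ℂ)) ^ (-4 : ℤ))
        - (if v.1 0 = 0 then (v.1 1 : ℂ) ^ (-4 : ℤ) else 0)) :=
    (hsΩ.tsum_sub hs0Ω).symm
  have h2 : ∀ v : Fin 2 → ℤ, ‖(((v 0 : ℂ) * z + (v 1 : ℂ)) ^ (-4 : ℤ))
        - (if v 0 = 0 then (v 1 : ℂ) ^ (-4 : ℤ) else 0)‖ = e3t z v := by
    intro v
    unfold e3t
    split_ifs with h
    · rw [h]; simp
    · rw [sub_zero, norm_zpow, zpow_neg]
      norm_cast
  rw [h1]
  refine (norm_tsum_le_tsum_norm ?_).trans ?_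
  · exact (((e3t_summable z).congr fun v => (h2 v).symm).subtype Ω)
  · have h3 : ∀ v : Ω, ‖(((v.1 0 : ℂ) * z + (v.1 1 : ℂ)) ^ (-4 : ℤ))
        - (if v.1 0 = 0 then (v.1 1 : ℂ) ^ (-4 : ℤ) else 0)‖ = e3t z v.1 := fun v => h2 v.1
    rw [tsum_congr h3]
    exact Summable.tsum_subtype_le (e3t z) Ω (e3t_nonneg z) (e3t_summable z)

theorem eis_lim (Ω : Set (Fin 2 → ℤ)) :
    Tendsto (eis Ω) atImInfty
      (𝓝 (∑' v : Ω, if v.1 0 = 0 then (v.1 1 : ℂ) ^ (-4 : ℤ) else 0)) := by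
  rw [tendsto_iff_norm_sub_tendsto_zero]
  have him : Tendsto UpperHalfPlane.im atImInfty atTop := tendsto_comap
  have h0 : Tendsto (fun z : ℍ => z.im⁻¹ * e3C) atImInfty (𝓝 0) := by
    have := (tendsto_inv_atTop_zero.comp him).mul_const e3C
    simpa using this
  refine squeeze_zero' (Eventually.of_forall fun _ => norm_nonneg _) ?_ h0
  filter_upwards [him.eventually (eventually_ge_atTop (1 : ℝ))] with z hz
  exact (e3_diff Ω z).trans (e3_bound z hz)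

theorem eis_bdd (Ω : Set (Fin 2 → ℤ)) : IsBoundedAtImInfty (eis Ω) :=
  (eis_lim Ω).isBigO_one ℝ

end Pool.Agent.UFC
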