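import Mathlib
import Pool.Agent.UFC.A.Defs

/-!
# UFC A: `T^2` and `S T^2 S⁻¹` generate a free group (Sanov)

Ping-pong, `FreeGroup.injective_lift_of_ping_pong`, e.g. for the action of `SL(2, ℤ)` on nonzero
vectors `(x, y)` (over `ℤ` or `ℝ`, or on the quotient by `± 1`), in terms of `t = x / y ∈ P¹`:
`T^2` is `t ↦ t + 2` and `S T^2 S⁻¹ = [[1, 0], [-2, 1]]` is `1/t ↦ 1/t - 2`.  The four sets
`X_a = (1, ∞]`, `Y_a = (-∞, -1]`, `X_b = (-1, 0)`, `Y_b = [0, 1]` are pairwise disjoint and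
`a (Y_a)ᶜ ⊆ X_a`, `a⁻¹ (X_a)ᶜ ⊆ Y_a`, `b (Y_b)ᶜ ⊆ X_b`, `b⁻¹ (X_b)ᶜ ⊆ Y_b`.
(As sets of vectors: `X_a = {y = 0 or (x y > 0 and |x| > |y|)}`, `Y_a = {x y < 0 and |x| ≥ |y|}`,
`X_b = {x y < 0 and |x| < |y|}`, `Y_b = {x = 0 or (x y > 0 and |x| ≤ |y|)}`.)
The same sets, being stable under `± 1`, show that no nontrivial element is sent to `-1`; or: if
`w ↦ -1` then `w ^ 2 ↦ 1`, so `w ^ 2 = 1`, so `w = 1` since free groups are torsion free.
-/

set_option autoImplicit false

namespace Pool.Agent.UFC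

open UpperHalfPlane CongruenceSubgroup
open scoped MatrixGroups Manifold ModularForm

/-- Nonzero integer vectors. -/
def NV : Type := {v : ℤ × ℤ // v ≠ 0}

/-- The action of a matrix on a vector. -/
def actv (g : SL(2, ℤ)) (v : ℤ × ℤ) : ℤ × ℤ :=
  (g 0 0 * v.1 + g 0 1 * v.2, g 1 0 * v.1 + g 1 1 * v.2)

theorem actv_mul (g h : SL(2, ℤ)) (v : ℤ × ℤ) : actv (g * h) v = actv g (actv h v) := by
  unfold actv
  ext
  · simp [Matrix.mul_apply, Fin.sum_univ_two]; ring
  · simp [Matrix.mul_apply, Fin.sum_univ_two]; ring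

theorem actv_one (v : ℤ × ℤ) : actv 1 v = v := by
  unfold actv
  ext <;> simp

theorem actv_zero (g : SL(2, ℤ)) : actv g 0 = 0 := by
  unfold actv
  ext <;> simp

theorem actv_ne (g : SL(2, ℤ)) (v : ℤ × ℤ) (hv : v ≠ 0) : actv g v ≠ 0 := by
  intro h
  apply hv
  have h2 : actv g⁻¹ (actv g v) = v := by rw [← actv_mul, inv_mul_cancel, actv_one]
  rw [← h2, h, actv_zero]

/-- `SL(2, ℤ)` acts on the nonzero integer vectors. -/
instance actNV : MulAction SL(2, ℤ) NV where
  smul g v := ⟨actv g v.1, actv_ne g v.1 v.2⟩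
  one_smul v := Subtype.ext (actv_one v.1)
  mul_smul g h v := Subtype.ext (actv_mul g h v.1)

theorem smul_NV (g : SL(2, ℤ)) (v : NV) : (g • v).1 = actv g v.1 := rfl

/-- The two generators in `SL(2, ℤ)`. -/
def fgen (b : Bool) : SL(2, ℤ) :=
  if b then ModularGroup.T ^ 2 else ModularGroup.S * ModularGroup.T ^ 2 * ModularGroup.S⁻¹

theorem actv_A (v : ℤ × ℤ) : actv (fgen true) v = (v.1 + 2 * v.2, v.2) := by
  have h : (fgen true : SL(2, ℤ)) = ⟨!![1, 2; 0, 1], by simp [Matrix.det_fin_two]⟩ := by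
    unfold fgen; simp only [if_true]; decide
  rw [h]
  unfold actv
  ext <;> simp

theorem actv_A' (v : ℤ × ℤ) : actv (fgen true)⁻¹ v = (v.1 - 2 * v.2, v.2) := by
  have h : ((fgen true)⁻¹ : SL(2, ℤ)) = ⟨!![1, -2; 0, 1], by simp [Matrix.det_fin_two]⟩ := by
    unfold fgen; simp only [if_true]; decide
  rw [h]
  unfold actv
  ext <;> simp
  ring

theorem actv_B (v : ℤ × ℤ) : actv (fgen false) v = (v.1, v.2 - 2 * v.1) := by
  have h : (fgen false : SL(2, ℤ)) = ⟨!![1, 0; -2, 1], by simp [Matrix.det_fin_two]⟩ := by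
    unfold fgen; simp only [Bool.false_eq_true, if_false]; decide
  rw [h]
  unfold actv
  ext <;> simp
  ring

theorem actv_B' (v : ℤ × ℤ) : actv (fgen false)⁻¹ v = (v.1, v.2 + 2 * v.1) := by
  have h : ((fgen false)⁻¹ : SL(2, ℤ)) = ⟨!![1, 0; 2, 1], by simp [Matrix.det_fin_two]⟩ := by
    unfold fgen; simp only [Bool.false_eq_true, if_false]; decide
  rw [h]
  unfold actv
  ext <;> simp
  ring

/-- attracting sets -/
def XX (b : Bool) : Set NV :=
  if b then {v | v.1.2 = 0 ∨ (0 < v.1.2 ∧ v.1.2 < v.1.1) ∨ (v.1.2 < 0 ∧ v.1.1 < v.1.2)}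
  else {v | (0 < v.1.2 ∧ -v.1.2 < v.1.1 ∧ v.1.1 < 0) ∨ (v.1.2 < 0 ∧ 0 < v.1.1 ∧ v.1.1 < -v.1.2)}

/-- repelling sets -/
def YY (b : Bool) : Set NV :=
  if b then {v | (0 < v.1.2 ∧ v.1.1 ≤ -v.1.2) ∨ (v.1.2 < 0 ∧ -v.1.2 ≤ v.1.1)}
  else {v | v.1.1 = 0 ∨ (0 < v.1.2 ∧ 0 < v.1.1 ∧ v.1.1 ≤ v.1.2) ∨
    (v.1.2 < 0 ∧ v.1.1 < 0 ∧ v.1.2 ≤ v.1.1)}

theorem NV_ne (v : NV) : v.1.1 ≠ 0 ∨ v.1.2 ≠ 0 := by
  by_contra h
  push Not at h
  exact v.2 (Prod.ext h.1 h.2)

open scoped Pointwise in
theorem fgen_inj : Function.Injective (FreeGroup.lift fgen) := by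
  apply FreeGroup.injective_lift_of_ping_pong (α := NV) fgen XX YY
  · rintro (_ | _)
    · exact ⟨⟨(-1, 2), by simp⟩, by simp [XX]⟩
    · exact ⟨⟨(1, 0), by simp⟩, by simp [XX]⟩
  · rintro (_ | _) (_ | _) hij
    · exact absurd rfl hij
    · rw [Function.onFun, Set.disjoint_left]
      intro v
      simp only [XX, Bool.false_eq_true, if_false, if_true, Set.mem_setOf_eq]
      omega
    · rw [Function.onFun, Set.disjoint_left]
      intro v
      simp only [XX, Bool.false_eq_true, if_false, if_true, Set.mem_setOf_eq]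
      omega
    · exact absurd rfl hij
  · rintro (_ | _) (_ | _) hij
    · exact absurd rfl hij
    · rw [Function.onFun, Set.disjoint_left]
      intro v
      have := NV_ne v
      simp only [YY, Bool.false_eq_true, if_false, if_true, Set.mem_setOf_eq]
      omega
    · rw [Function.onFun, Set.disjoint_left]
      intro v
      have := NV_ne v
      simp only [YY, Bool.false_eq_true, if_false, if_true, Set.mem_setOf_eq]
      omega
    · exact absurd rfl hij
  · rintro (_ | _) (_ | _) <;>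
    · rw [Set.disjoint_left]
      intro v
      have := NV_ne v
      simp only [XX, YY, Bool.false_eq_true, if_false, if_true, Set.mem_setOf_eq]
      omega
  · rintro (_ | _) v hv
    · rw [Set.mem_smul_set] at hv
      obtain ⟨u, hu, rfl⟩ := hv
      have := NV_ne u
      simp only [YY, Bool.false_eq_true, if_false, Set.mem_compl_iff, Set.mem_setOf_eq] at hu
      simp only [XX, Bool.false_eq_true, if_false, Set.mem_setOf_eq, smul_NV, actv_B]
      omega
    · rw [Set.mem_smul_set] at hv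
      obtain ⟨u, hu, rfl⟩ := hv
      have := NV_ne u
      simp only [YY, if_true, Set.mem_compl_iff, Set.mem_setOf_eq] at hu
      simp only [XX, if_true, Set.mem_setOf_eq, smul_NV, actv_A]
      omega
  · rintro (_ | _) v hv
    · rw [Set.mem_smul_set] at hv
      obtain ⟨u, hu, rfl⟩ := hv
      have := NV_ne u
      simp only [XX, Bool.false_eq_true, if_false, Set.mem_compl_iff, Set.mem_setOf_eq] at hu
      simp only [YY, Bool.false_eq_true, if_false, Set.mem_setOf_eq, smul_NV, Pi.inv_apply, actv_B']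
      omega
    · rw [Set.mem_smul_set] at hv
      obtain ⟨u, hu, rfl⟩ := hv
      have := NV_ne u
      simp only [XX, if_true, Set.mem_compl_iff, Set.mem_setOf_eq] at hu
      simp only [YY, if_true, Set.mem_setOf_eq, smul_NV, Pi.inv_apply, actv_A']
      omega

/-- The homomorphism from the free group on two generators to `Γ(2)`. -/
def freeHom : FreeGroup Bool →* Gamma 2 := FreeGroup.lift (fun b => if b then gA else gB)

theorem freeHom_coe (w : FreeGroup Bool) : ((freeHom w : Gamma 2) : SL(2, ℤ)) =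
    FreeGroup.lift fgen w := by
  have h : (Gamma 2).subtype.comp freeHom = FreeGroup.lift fgen := by
    apply FreeGroup.ext_hom
    rintro (_ | _)
    · simp [freeHom, fgen, gB]
    · simp [freeHom, fgen, gA]
  exact DFunLike.congr_fun h w

theorem freeHom_one (w : FreeGroup Bool) (h : freeHom w = 1) : w = 1 := by
  apply fgen_inj
  rw [← freeHom_coe, h, map_one]
  rfl

theorem free_inj (w : FreeGroup Bool) (h : freeHom w = 1 ∨ freeHom w = gN) : w = 1 := by
  rcases h with h | h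
  · exact freeHom_one w h
  · have h2 : freeHom (w ^ 2) = 1 := by
      rw [map_pow, h]
      apply Subtype.ext
      show (-1 : SL(2, ℤ)) ^ 2 = 1
      simp
    have h3 := freeHom_one _ h2
    exact (pow_eq_one_iff_left two_ne_zero).1 h3

end Pool.Agent.UFC
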