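import Mathlib
import Pool.Agent.UFC.A.Defs

/-!
# UFC A: `Γ(2)` is generated by `T^2`, `S T^2 S⁻¹` and `-1`

Euclid: let `γ = [[a, b], [c, d]] ∈ Γ(2)` (`a, d` odd, `b, c` even).  If `c = 0` then `a = d = ± 1`
and `γ = ± T^b` with `b` even.  Otherwise `|a| ≠ |c|` by parity, and multiplying on the left by
`gA^k = [[1, 2k], [0, 1]]` (replacing `a` by `a + 2 k c`) one reaches `|a| < |c|` if `|a| > |c|`, and
by `gB^k = [[1, 0], [-2k, 1]]` (replacing `c` by `c - 2 k a`) one reaches `|c| < |a|` if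
`|c| > |a|` (note `a ≠ 0`).  Induct on `|a| + |c|`.
-/

set_option autoImplicit false

namespace Pool.Agent.UFC

open UpperHalfPlane CongruenceSubgroup
open scoped MatrixGroups Manifold ModularForm

theorem FreeB.coe_gA_mul (γ : Gamma 2) :
    ((gA * γ : Gamma 2) : SL(2, ℤ)) 0 0 = (γ : SL(2, ℤ)) 0 0 + 2 * (γ : SL(2, ℤ)) 1 0 ∧
      ((gA * γ : Gamma 2) : SL(2, ℤ)) 1 0 = (γ : SL(2, ℤ)) 1 0 := by
  have hA : ((gA : Gamma 2) : SL(2, ℤ)).1 = !![1, 2; 0, 1] := by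
    have := ModularGroup.coe_T_zpow 2
    simpa [gA] using this
  constructor
  · show (((gA : Gamma 2) : SL(2, ℤ)).1 * (γ : SL(2, ℤ)).1) 0 0 = _
    rw [hA]
    simp [Matrix.mul_apply, Fin.sum_univ_two]
  · show (((gA : Gamma 2) : SL(2, ℤ)).1 * (γ : SL(2, ℤ)).1) 1 0 = _
    rw [hA]
    simp [Matrix.mul_apply, Fin.sum_univ_two]

theorem FreeB.coe_gAi_mul (γ : Gamma 2) :
    ((gA⁻¹ * γ : Gamma 2) : SL(2, ℤ)) 0 0 = (γ : SL(2, ℤ)) 0 0 - 2 * (γ : SL(2, ℤ)) 1 0 ∧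
      ((gA⁻¹ * γ : Gamma 2) : SL(2, ℤ)) 1 0 = (γ : SL(2, ℤ)) 1 0 := by
  have h := FreeB.coe_gA_mul (gA⁻¹ * γ)
  rw [mul_inv_cancel_left] at h
  obtain ⟨h1, h2⟩ := h
  refine ⟨?_, h2.symm⟩
  rw [h2]
  linarith

theorem FreeB.coe_gB_mul (γ : Gamma 2) :
    ((gB * γ : Gamma 2) : SL(2, ℤ)) 0 0 = (γ : SL(2, ℤ)) 0 0 ∧
      ((gB * γ : Gamma 2) : SL(2, ℤ)) 1 0 = (γ : SL(2, ℤ)) 1 0 - 2 * (γ : SL(2, ℤ)) 0 0 := by
  have hB : ((gB : Gamma 2) : SL(2, ℤ)).1 = !![1, 0; -2, 1] := by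
    have hT := ModularGroup.coe_T_zpow 2
    have : ((gB : Gamma 2) : SL(2, ℤ)) = ModularGroup.S * ModularGroup.T ^ 2 * ModularGroup.S⁻¹ :=
      rfl
    rw [this]
    rw [Matrix.SpecialLinearGroup.coe_mul, Matrix.SpecialLinearGroup.coe_mul,
      Matrix.SpecialLinearGroup.coe_inv, Matrix.SpecialLinearGroup.coe_pow]
    simp only [ModularGroup.S, ModularGroup.T, Matrix.adjugate_fin_two_of]
    decide
  constructor
  · show (((gB : Gamma 2) : SL(2, ℤ)).1 * (γ : SL(2, ℤ)).1) 0 0 = _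
    rw [hB]
    simp [Matrix.mul_apply, Fin.sum_univ_two]
  · show (((gB : Gamma 2) : SL(2, ℤ)).1 * (γ : SL(2, ℤ)).1) 1 0 = _
    rw [hB]
    simp [Matrix.mul_apply, Fin.sum_univ_two]
    ring

theorem FreeB.coe_gBi_mul (γ : Gamma 2) :
    ((gB⁻¹ * γ : Gamma 2) : SL(2, ℤ)) 0 0 = (γ : SL(2, ℤ)) 0 0 ∧
      ((gB⁻¹ * γ : Gamma 2) : SL(2, ℤ)) 1 0 = (γ : SL(2, ℤ)) 1 0 + 2 * (γ : SL(2, ℤ)) 0 0 := by
  have h := FreeB.coe_gB_mul (gB⁻¹ * γ)
  rw [mul_inv_cancel_left] at h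
  obtain ⟨h1, h2⟩ := h
  refine ⟨h1.symm, ?_⟩
  rw [h1, h2]
  ring

theorem FreeB.base (γ : Gamma 2) (h : (γ : SL(2, ℤ)) 1 0 = 0) :
    γ ∈ Subgroup.closure ({gA, gB, gN} : Set (Gamma 2)) := by
  have hA : (gA : Gamma 2) ∈ Subgroup.closure ({gA, gB, gN} : Set (Gamma 2)) :=
    Subgroup.subset_closure (by simp)
  have hN : (gN : Gamma 2) ∈ Subgroup.closure ({gA, gB, gN} : Set (Gamma 2)) :=
    Subgroup.subset_closure (by simp)
  have hdet := Matrix.SpecialLinearGroup.det_coe (γ : SL(2, ℤ))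
  rw [Matrix.det_fin_two] at hdet
  have h' : (γ : SL(2, ℤ)).1 1 0 = 0 := h
  rw [h', mul_zero, sub_zero] at hdet
  have hm := Gamma_mem.mp γ.2
  have hb : ∃ k : ℤ, (γ : SL(2, ℤ)).1 0 1 = 2 * k := by
    have := (ZMod.intCast_zmod_eq_zero_iff_dvd ((γ : SL(2, ℤ)).1 0 1) 2).mp hm.2.1
    exact_mod_cast this
  obtain ⟨k, hk⟩ := hb
  have hAz : ∀ m : ℤ, (((gA ^ m : Gamma 2)) : SL(2, ℤ)).1 = !![1, 2 * m; 0, 1] := by
    intro m
    have h1 : ((gA ^ m : Gamma 2) : SL(2, ℤ)) = ModularGroup.T ^ (2 * m) := by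
      rw [Subgroup.coe_zpow, zpow_mul]
      rfl
    rw [h1, ModularGroup.coe_T_zpow]
  rcases Int.mul_eq_one_iff_eq_one_or_neg_one.mp hdet with ⟨ha, hd⟩ | ⟨ha, hd⟩
  · have : γ = gA ^ k := by
      apply Subtype.ext
      apply Subtype.ext
      rw [hAz]
      ext i j
      fin_cases i <;> fin_cases j <;> simp [ha, hd, hk, h']
    rw [this]
    exact Subgroup.zpow_mem _ hA k
  · have : γ = gN * gA ^ (-k) := by
      apply Subtype.ext
      apply Subtype.ext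
      show _ = ((gN : Gamma 2) : SL(2, ℤ)).1 * ((gA ^ (-k) : Gamma 2) : SL(2, ℤ)).1
      rw [hAz]
      have hN' : ((gN : Gamma 2) : SL(2, ℤ)).1 = -1 := by
        simp [gN]
      rw [hN']
      ext i j
      fin_cases i <;> fin_cases j <;> simp [ha, hd, hk, h']
    rw [this]
    exact Subgroup.mul_mem _ hN (Subgroup.zpow_mem _ hA _)

theorem FreeB.all (n : ℕ) : ∀ γ : Gamma 2,
    ((γ : SL(2, ℤ)) 0 0).natAbs + ((γ : SL(2, ℤ)) 1 0).natAbs ≤ n →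
    γ ∈ Subgroup.closure ({gA, gB, gN} : Set (Gamma 2)) := by
  have hA : (gA : Gamma 2) ∈ Subgroup.closure ({gA, gB, gN} : Set (Gamma 2)) :=
    Subgroup.subset_closure (by simp)
  have hB : (gB : Gamma 2) ∈ Subgroup.closure ({gA, gB, gN} : Set (Gamma 2)) :=
    Subgroup.subset_closure (by simp)
  induction n with
  | zero =>
    intro γ h
    exact FreeB.base γ (by omega)
  | succ n ih =>
    intro γ h
    by_cases hc : (γ : SL(2, ℤ)) 1 0 = 0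
    · exact FreeB.base γ hc
    have hm := Gamma_mem.mp γ.2
    have ha1 : ¬ (2 : ℤ) ∣ (γ : SL(2, ℤ)) 0 0 := by
      intro hdv
      have h1 := (ZMod.intCast_zmod_eq_zero_iff_dvd ((γ : SL(2, ℤ)).1 0 0) 2).mpr (by exact_mod_cast hdv)
      have h2 : (((γ : SL(2, ℤ)).1 0 0 : ℤ) : ZMod 2) = 1 := hm.1
      rw [h1] at h2
      exact absurd h2 (by decide)
    have hc1 : (2 : ℤ) ∣ (γ : SL(2, ℤ)) 1 0 := by
      have := (ZMod.intCast_zmod_eq_zero_iff_dvd ((γ : SL(2, ℤ)).1 1 0) 2).mp hm.2.2.1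
      exact_mod_cast this
    obtain ⟨hA1, hA2⟩ := FreeB.coe_gA_mul γ
    obtain ⟨hA3, hA4⟩ := FreeB.coe_gAi_mul γ
    obtain ⟨hB1, hB2⟩ := FreeB.coe_gB_mul γ
    obtain ⟨hB3, hB4⟩ := FreeB.coe_gBi_mul γ
    have t1 : gA * γ ∈ Subgroup.closure ({gA, gB, gN} : Set (Gamma 2)) →
        γ ∈ Subgroup.closure ({gA, gB, gN} : Set (Gamma 2)) := fun hh =>
      (Subgroup.mul_mem_cancel_left _ hA).mp hh
    have t2 : gA⁻¹ * γ ∈ Subgroup.closure ({gA, gB, gN} : Set (Gamma 2)) →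
        γ ∈ Subgroup.closure ({gA, gB, gN} : Set (Gamma 2)) := fun hh =>
      (Subgroup.mul_mem_cancel_left _ (Subgroup.inv_mem _ hA)).mp hh
    have t3 : gB * γ ∈ Subgroup.closure ({gA, gB, gN} : Set (Gamma 2)) →
        γ ∈ Subgroup.closure ({gA, gB, gN} : Set (Gamma 2)) := fun hh =>
      (Subgroup.mul_mem_cancel_left _ hB).mp hh
    have t4 : gB⁻¹ * γ ∈ Subgroup.closure ({gA, gB, gN} : Set (Gamma 2)) →
        γ ∈ Subgroup.closure ({gA, gB, gN} : Set (Gamma 2)) := fun hh =>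
      (Subgroup.mul_mem_cancel_left _ (Subgroup.inv_mem _ hB)).mp hh
    generalize ha : (γ : SL(2, ℤ)) 0 0 = a at *
    generalize hcc : (γ : SL(2, ℤ)) 1 0 = c at *
    rcases lt_trichotomy a.natAbs c.natAbs with hlt | heq | hgt
    · by_cases hs : (0 < a ∧ 0 < c) ∨ (a < 0 ∧ c < 0)
      · exact t3 (ih _ (by rw [hB1, hB2]; omega))
      · exact t4 (ih _ (by rw [hB3, hB4]; omega))
    · exact absurd heq (by omega)
    · by_cases hs : (0 < a ∧ 0 < c) ∨ (a < 0 ∧ c < 0)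
      · exact t2 (ih _ (by rw [hA3, hA4]; omega))
      · exact t1 (ih _ (by rw [hA1, hA2]; omega))

theorem gamma2_gen : Subgroup.closure {gA, gB, gN} = (⊤ : Subgroup (Gamma 2)) := by
  rw [eq_top_iff]
  intro γ _
  exact FreeB.all _ γ le_rfl

end Pool.Agent.UFC
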