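import Mathlib
import Pool.Agent.UFC.A.Defs

set_option autoImplicit false

/-!
# UFC A: modular forms for `Γ(2)` of weight at most `0`

An `MF k f` gives a `ModularForm (Γ(2) as a subgroup of GL(2, ℝ)) k`
(`OnePoint.isBoundedAt_iff_forall_SL2Z`, and a cusp of an arithmetic group is a cusp of
`SL(2, ℤ)`); then use `ModularForm.isZero_of_neg_weight` and
`ModularForm.eq_const_of_weight_zero` (`Mathlib/NumberTheory/ModularForms/NormTrace.lean`).
-/

namespace Pool.Agent.UFC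

open UpperHalfPlane CongruenceSubgroup
open scoped MatrixGroups Manifold ModularForm

/-- The modular form of Mathlib attached to an `MF`. -/
noncomputable def MF.toMF {k : ℤ} {f : ℍ → ℂ} (hf : MF k f) : ModularForm Γ(2) k where
  toFun := f
  slash_action_eq' := fun _ ⟨γ, hγ, hγ2⟩ ↦ hγ2 ▸ hf.inv γ hγ
  holo' := hf.holo
  bdd_at_cusps' {c} hc := by
    rw [Subgroup.IsArithmetic.isCusp_iff_isCusp_SL2Z] at hc
    rw [OnePoint.isBoundedAt_iff_forall_SL2Z hc]
    exact fun γ _ ↦ hf.bdd γ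

theorem MF.coe_toMF {k : ℤ} {f : ℍ → ℂ} (hf : MF k f) : (hf.toMF : ℍ → ℂ) = f := rfl

theorem MF.neg_weight {k : ℤ} {f : ℍ → ℂ} (hf : MF k f) (hk : k < 0) : f = 0 := by
  have h := ModularForm.isZero_of_neg_weight hk hf.toMF
  rw [← hf.coe_toMF, h]
  rfl

theorem MF.weight_zero {f : ℍ → ℂ} (hf : MF 0 f) : ∃ c : ℂ, ∀ z, f z = c := by
  obtain ⟨c, hc⟩ := ModularForm.eq_const_of_weight_zero hf.toMF
  refine ⟨c, fun z => ?_⟩
  have h := congrFun hc z
  rw [hf.coe_toMF] at h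
  exact h

end Pool.Agent.UFC
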