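import Mathlib
import Pool.Agent.UFC.A.Defs

/-!
# UFC A: two facts on level one

`SlashInvariantForm.slash_action_generators_SL2Z` gives invariance under `SL(2, ℤ)`; package as a
`CuspForm 𝒮ℒ 4` resp. `ModularForm 𝒮ℒ 0` and use `CuspForm.rank_eq_zero_of_weight_lt_twelve` and
`ModularFormClass.levelOne_weight_zero_const`.
-/

set_option autoImplicit false

namespace Pool.Agent.UFC

open UpperHalfPlane CongruenceSubgroup
open scoped MatrixGroups Manifold ModularForm

theorem level_one_four (f : ℍ → ℂ) (hf : MDiff f) (hS : f ∣[(4 : ℤ)] ModularGroup.S = f)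
    (hT : f ∣[(4 : ℤ)] ModularGroup.T = f) (h0 : IsZeroAtImInfty f) : f = 0 := by
  let g : CuspForm 𝒮ℒ 4 :=
    { toFun := f
      slash_action_eq' := by
        rintro A ⟨A, rfl⟩
        exact SlashInvariantForm.slash_action_generators_SL2Z hS hT A
      holo' := hf
      zero_at_cusps' := by
        intro c hc
        rw [Subgroup.IsArithmetic.isCusp_iff_isCusp_SL2Z] at hc
        rw [OnePoint.isZeroAt_iff_forall_SL2Z hc]
        intro γ _
        rw [SlashInvariantForm.slash_action_generators_SL2Z hS hT]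
        exact h0 }
  have hr : Module.rank ℂ (CuspForm 𝒮ℒ 4) = 0 :=
    CuspForm.rank_eq_zero_of_weight_lt_twelve (by norm_num)
  have h1 : g = 0 := rank_zero_iff_forall_zero.1 hr g
  have h2 : (g : ℍ → ℂ) = f := rfl
  rw [← h2, h1]
  rfl

theorem level_one_const (f : ℍ → ℂ) (hf : MDiff f) (hS : f ∣[(0 : ℤ)] ModularGroup.S = f)
    (hT : f ∣[(0 : ℤ)] ModularGroup.T = f) (hb : IsBoundedAtImInfty f) : ∃ c : ℂ, ∀ z, f z = c := by
  let g : ModularForm 𝒮ℒ 0 :=
    { toFun := f
      slash_action_eq' := by
        rintro A ⟨A, rfl⟩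
        exact SlashInvariantForm.slash_action_generators_SL2Z hS hT A
      holo' := hf
      bdd_at_cusps' := by
        intro c hc
        rw [Subgroup.IsArithmetic.isCusp_iff_isCusp_SL2Z] at hc
        rw [OnePoint.isBoundedAt_iff_forall_SL2Z hc]
        intro γ _
        rw [SlashInvariantForm.slash_action_generators_SL2Z hS hT]
        exact hb }
  obtain ⟨c, hc⟩ := ModularFormClass.levelOne_weight_zero_const g
  exact ⟨c, fun z => congrFun hc z⟩

end Pool.Agent.UFC
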