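import Mathlib
import Pool.Agent.UFC.A.Defs

/-!
# UFC A: expansions of `fX, fY, fZ` in `q = e^(π i z)`

`ModularForm.eta z = e^(2 π i z / 24) E(e^(2 π i z))` with `E(q) = ∏ (1 - q^(n+1))` for `|q| < 1`
(`differentiableOn_tprod_one_sub_pow`, nonvanishing as in `eta_tprod_ne_zero`).  With
`q = e^(π i z)`: `fX z = 16 q E(q^4)^8 / E(q^2)^4`, `fY z = E(q)^8 / E(q^2)^4`, and `fZ` is `fY` at
`z + 1`, i.e. at `-q`.
-/

set_option autoImplicit false

namespace Pool.Agent.UFC

open UpperHalfPlane CongruenceSubgroup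
open scoped MatrixGroups Manifold ModularForm

/-- The product `∏ (1 - q^(n+1))`. -/
noncomputable def eulP (q : ℂ) : ℂ := ∏' n : ℕ, (1 - q ^ (n + 1))

theorem eulP_diff : DifferentiableOn ℂ eulP (Metric.ball 0 1) :=
  ModularForm.differentiableOn_tprod_one_sub_pow

theorem eulP_zero : eulP 0 = 1 := by
  unfold eulP
  simp

theorem eulP_ne {q : ℂ} (hq : ‖q‖ < 1) : eulP q ≠ 0 := by
  have h := tprod_one_add_ne_zero_of_summable (f := fun n : ℕ => -q ^ (n + 1)) ?_ ?_
  · unfold eulP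
    simpa only [← sub_eq_add_neg] using h
  · intro n h0
    have h1 : q ^ (n + 1) = 1 := by
      have : 1 - q ^ (n + 1) = 0 := by rw [sub_eq_add_neg]; exact h0
      exact (sub_eq_zero.mp this).symm
    have h2 : ‖q‖ ^ (n + 1) = 1 := by rw [← norm_pow, h1, norm_one]
    have h3 : ‖q‖ ^ (n + 1) < 1 := pow_lt_one₀ (norm_nonneg _) hq (Nat.succ_ne_zero n)
    linarith
  · simpa using (summable_nat_add_iff 1).mpr (summable_geometric_of_lt_one (norm_nonneg q) hq)

theorem eulP_pow_diff {k : ℕ} (hk : k ≠ 0) :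
    DifferentiableOn ℂ (fun q => eulP (q ^ k)) (Metric.ball 0 1) := by
  refine eulP_diff.comp (by fun_prop) ?_
  intro q hq
  rw [mem_ball_zero_iff] at hq ⊢
  rw [norm_pow]
  exact pow_lt_one₀ (norm_nonneg _) hq hk

theorem eta_eq (w : ℂ) : ModularForm.eta w =
    Complex.exp (2 * Real.pi * Complex.I * w / 24) *
      eulP (Complex.exp (2 * Real.pi * Complex.I * w)) := by
  unfold ModularForm.eta eulP ModularForm.eta_q Function.Periodic.qParam
  simp

theorem q2_pow (z : ℍ) (k : ℕ) :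
    q2 z ^ k = Complex.exp (k * (Real.pi * Complex.I * z)) := by
  unfold q2
  rw [← Complex.exp_nat_mul]

theorem norm_q2_lt (z : ℍ) : ‖q2 z‖ < 1 := by
  unfold q2
  rw [Complex.norm_exp]
  have h : (Real.pi * Complex.I * (z : ℂ)).re = -(Real.pi * z.im) := by
    simp [Complex.mul_re, Complex.mul_im]
  rw [h, Real.exp_lt_one_iff]
  have := mul_pos Real.pi_pos z.im_pos
  linarith

theorem theta_exp : ∃ φX φY : ℂ → ℂ, DifferentiableOn ℂ φX (Metric.ball 0 1) ∧
    DifferentiableOn ℂ φY (Metric.ball 0 1) ∧ φX 0 = 1 ∧ φY 0 = 1 ∧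
    (∀ q ∈ Metric.ball (0 : ℂ) 1, φX q ≠ 0 ∧ φY q ≠ 0) ∧
    ∀ z : ℍ, fX z = 16 * q2 z * φX (q2 z) ∧ fY z = φY (q2 z) ∧ fZ z = φY (-q2 z) := by
  have hne : ∀ {q : ℂ} (k : ℕ), k ≠ 0 → q ∈ Metric.ball (0 : ℂ) 1 → eulP (q ^ k) ≠ 0 := by
    intro q k hk hq
    apply eulP_ne
    rw [mem_ball_zero_iff] at hq
    rw [norm_pow]
    exact pow_lt_one₀ (norm_nonneg _) hq hk
  have hne1 : ∀ {q : ℂ}, q ∈ Metric.ball (0 : ℂ) 1 → eulP q ≠ 0 := by
    intro q hq
    apply eulP_ne
    rwa [mem_ball_zero_iff] at hq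
  refine ⟨fun q => eulP (q ^ 4) ^ 8 / eulP (q ^ 2) ^ 4, fun q => eulP q ^ 8 / eulP (q ^ 2) ^ 4,
    ?_, ?_, ?_, ?_, ?_, ?_⟩
  · exact ((eulP_pow_diff (by norm_num)).pow 8).div ((eulP_pow_diff (by norm_num)).pow 4)
      (fun q hq => pow_ne_zero 4 (hne 2 (by norm_num) hq))
  · exact (eulP_diff.pow 8).div ((eulP_pow_diff (by norm_num)).pow 4)
      (fun q hq => pow_ne_zero 4 (hne 2 (by norm_num) hq))
  · simp [eulP_zero]
  · simp [eulP_zero]
  · intro q hq
    exact ⟨div_ne_zero (pow_ne_zero 8 (hne 4 (by norm_num) hq))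
      (pow_ne_zero 4 (hne 2 (by norm_num) hq)),
      div_ne_zero (pow_ne_zero 8 (hne1 hq)) (pow_ne_zero 4 (hne 2 (by norm_num) hq))⟩
  · intro z
    have hz : q2 z ∈ Metric.ball (0 : ℂ) 1 := by
      rw [mem_ball_zero_iff]
      exact norm_q2_lt z
    have e2 : eulP (q2 z ^ 2) ≠ 0 := hne 2 (by norm_num) hz
    refine ⟨?_, ?_, ?_⟩
    · unfold fX
      rw [eta_eq (2 * (z : ℂ)), eta_eq (z : ℂ)]
      have a1 : Complex.exp (2 * Real.pi * Complex.I * (2 * (z : ℂ))) = q2 z ^ 4 := by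
        rw [q2_pow]
        congr 1
        push_cast
        ring
      have a2 : Complex.exp (2 * Real.pi * Complex.I * (z : ℂ)) = q2 z ^ 2 := by
        rw [q2_pow]
        congr 1
        push_cast
        ring
      have a3 : Complex.exp (2 * Real.pi * Complex.I * (2 * (z : ℂ)) / 24) ^ 8 =
          q2 z * Complex.exp (2 * Real.pi * Complex.I * (z : ℂ) / 24) ^ 4 := by
        unfold q2
        rw [← Complex.exp_nat_mul, ← Complex.exp_nat_mul, ← Complex.exp_add]
        congr 1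
        push_cast
        ring
      rw [a1, a2, mul_pow, mul_pow, a3]
      have h0 : Complex.exp (2 * Real.pi * Complex.I * (z : ℂ) / 24) ≠ 0 := Complex.exp_ne_zero _
      field_simp
    · unfold fY
      rw [eta_eq ((z : ℂ) / 2), eta_eq (z : ℂ)]
      have a1 : Complex.exp (2 * Real.pi * Complex.I * ((z : ℂ) / 2)) = q2 z := by
        unfold q2
        congr 1
        ring
      have a2 : Complex.exp (2 * Real.pi * Complex.I * (z : ℂ)) = q2 z ^ 2 := by
        rw [q2_pow]
        congr 1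
        push_cast
        ring
      have a3 : Complex.exp (2 * Real.pi * Complex.I * ((z : ℂ) / 2) / 24) ^ 8 =
          Complex.exp (2 * Real.pi * Complex.I * (z : ℂ) / 24) ^ 4 := by
        rw [← Complex.exp_nat_mul, ← Complex.exp_nat_mul]
        congr 1
        push_cast
        ring
      rw [a1, a2, mul_pow, mul_pow, a3]
      have h0 : Complex.exp (2 * Real.pi * Complex.I * (z : ℂ) / 24) ≠ 0 := Complex.exp_ne_zero _
      field_simp
    · unfold fZ
      rw [eta_eq (((z : ℂ) + 1) / 2), eta_eq ((z : ℂ) + 1)]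
      have a1 : Complex.exp (2 * Real.pi * Complex.I * (((z : ℂ) + 1) / 2)) = -q2 z := by
        have : 2 * Real.pi * Complex.I * (((z : ℂ) + 1) / 2) =
            Real.pi * Complex.I * (z : ℂ) + Real.pi * Complex.I := by ring
        rw [this, Complex.exp_add, Complex.exp_pi_mul_I]
        unfold q2
        ring
      have a2 : Complex.exp (2 * Real.pi * Complex.I * ((z : ℂ) + 1)) = (-q2 z) ^ 2 := by
        have : 2 * Real.pi * Complex.I * ((z : ℂ) + 1) =
            (2 : ℕ) * (Real.pi * Complex.I * (z : ℂ)) + 2 * Real.pi * Complex.I := by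
          push_cast
          ring
        rw [this, Complex.exp_add, Complex.exp_two_pi_mul_I, mul_one, ← q2_pow]
        ring
      have a3 : Complex.exp (2 * Real.pi * Complex.I * (((z : ℂ) + 1) / 2) / 24) ^ 8 =
          Complex.exp (2 * Real.pi * Complex.I * ((z : ℂ) + 1) / 24) ^ 4 := by
        rw [← Complex.exp_nat_mul, ← Complex.exp_nat_mul]
        congr 1
        push_cast
        ring
      rw [a1, a2, mul_pow, mul_pow, a3]
      have h0 : Complex.exp (2 * Real.pi * Complex.I * ((z : ℂ) + 1) / 24) ≠ 0 :=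
        Complex.exp_ne_zero _
      have e3 : eulP ((-q2 z) ^ 2) ≠ 0 := by
        rw [neg_sq]
        exact e2
      field_simp

end Pool.Agent.UFC
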