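import Mathlib
import Pool.Agent.UFC.A.Defs
import Pool.Agent.UFC.A.Th1

/-!
# UFC A: consequences of the expansions

Holomorphy, nonvanishing and limits at `i ∞`, all from `theta_exp`
(`q2 z` tends to `0` at `i ∞` and `|q2 z| < 1`).
-/

set_option autoImplicit false

namespace Pool.Agent.UFC

open UpperHalfPlane CongruenceSubgroup Filter Topology
open scoped MatrixGroups Manifold ModularForm

namespace Th1b

theorem q2_eq (z : ℍ) : q2 z = Function.Periodic.qParam 2 z := by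
  unfold q2 Function.Periodic.qParam
  congr 1
  push_cast
  ring

end Th1b

theorem q2_norm_lt (z : ℍ) : ‖q2 z‖ < 1 := by
  rw [Th1b.q2_eq]
  exact Function.Periodic.norm_qParam_lt_one (by norm_num) z.im_pos

theorem q2_tendsto : Tendsto q2 atImInfty (𝓝[≠] 0) := by
  have h1 : q2 = (Function.Periodic.qParam 2) ∘ ((↑) : ℍ → ℂ) := by
    funext z
    exact Th1b.q2_eq z
  rw [h1]
  exact (Function.Periodic.qParam_tendsto (by norm_num)).comp tendsto_coe_atImInfty

namespace Th1b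

theorem q2_ne (z : ℍ) : q2 z ≠ 0 := by
  unfold q2
  exact Complex.exp_ne_zero _

theorem comp_mdiff {φ : ℂ → ℂ} (hφ : DifferentiableOn ℂ φ (Metric.ball 0 1)) (c : ℂ)
    (hc : ‖c‖ = 1) : MDiff (fun z : ℍ => φ (c * q2 z)) := by
  rw [mdifferentiable_iff]
  have h1 : DifferentiableOn ℂ (fun w : ℂ => φ (c * Function.Periodic.qParam 2 w))
      {z | 0 < z.im} := by
    refine DifferentiableOn.comp (t := Metric.ball 0 1) hφ ?_ ?_
    · exact ((Function.Periodic.differentiable_qParam).const_mul c).differentiableOn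
    · intro w hw
      rw [mem_ball_zero_iff, norm_mul, hc, one_mul]
      exact Function.Periodic.norm_qParam_lt_one (by norm_num) hw
  refine h1.congr ?_
  intro w hw
  have h2 : ((ofComplex w : ℍ) : ℂ) = w := by
    rw [ofComplex_apply_of_im_pos hw]
  rw [Function.comp_apply, q2_eq, h2]

theorem lim_zero {φ : ℂ → ℂ} (hφ : DifferentiableOn ℂ φ (Metric.ball 0 1)) (c : ℂ) :
    Tendsto (fun z : ℍ => φ (c * q2 z)) atImInfty (𝓝 (φ 0)) := by
  have h1 : ContinuousAt φ 0 :=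
    (hφ.differentiableAt (Metric.ball_mem_nhds 0 one_pos)).continuousAt
  have h2 : Tendsto (fun z : ℍ => c * q2 z) atImInfty (𝓝 0) := by
    have h3 : Tendsto q2 atImInfty (𝓝 0) := q2_tendsto.mono_right nhdsWithin_le_nhds
    simpa using h3.const_mul c
  exact h1.tendsto.comp h2

theorem mem_ball (z : ℍ) : q2 z ∈ Metric.ball (0 : ℂ) 1 := by
  rw [mem_ball_zero_iff]
  exact q2_norm_lt z

theorem neg_mem_ball (z : ℍ) : -q2 z ∈ Metric.ball (0 : ℂ) 1 := by
  rw [mem_ball_zero_iff, norm_neg]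
  exact q2_norm_lt z

end Th1b

theorem fX_mdiff : MDiff fX := by
  obtain ⟨φX, φY, hX, hY, hX0, hY0, hne, h⟩ := theta_exp
  have h1 : fX = fun z : ℍ => (fun q : ℂ => 16 * q * φX q) (1 * q2 z) := by
    funext z
    rw [(h z).1]
    simp only [one_mul]
  rw [h1]
  refine Th1b.comp_mdiff (φ := fun q : ℂ => 16 * q * φX q) ?_ 1 norm_one
  exact ((differentiable_id.const_mul (16 : ℂ)).differentiableOn).mul hX

theorem fY_mdiff : MDiff fY := by
  obtain ⟨φX, φY, hX, hY, hX0, hY0, hne, h⟩ := theta_exp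
  have h1 : fY = fun z : ℍ => φY (1 * q2 z) := by
    funext z
    rw [(h z).2.1, one_mul]
  rw [h1]
  exact Th1b.comp_mdiff hY 1 norm_one

theorem fZ_mdiff : MDiff fZ := by
  obtain ⟨φX, φY, hX, hY, hX0, hY0, hne, h⟩ := theta_exp
  have h1 : fZ = fun z : ℍ => φY ((-1) * q2 z) := by
    funext z
    rw [(h z).2.2, neg_one_mul]
  rw [h1]
  exact Th1b.comp_mdiff hY (-1) (by rw [norm_neg, norm_one])

theorem fX_ne (z : ℍ) : fX z ≠ 0 := by
  obtain ⟨φX, φY, hX, hY, hX0, hY0, hne, h⟩ := theta_exp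
  rw [(h z).1]
  exact mul_ne_zero (mul_ne_zero (by norm_num) (Th1b.q2_ne z)) (hne _ (Th1b.mem_ball z)).1

theorem fY_ne (z : ℍ) : fY z ≠ 0 := by
  obtain ⟨φX, φY, hX, hY, hX0, hY0, hne, h⟩ := theta_exp
  rw [(h z).2.1]
  exact (hne _ (Th1b.mem_ball z)).2

theorem fZ_ne (z : ℍ) : fZ z ≠ 0 := by
  obtain ⟨φX, φY, hX, hY, hX0, hY0, hne, h⟩ := theta_exp
  rw [(h z).2.2]
  exact (hne _ (Th1b.neg_mem_ball z)).2

theorem fX_lim : Tendsto fX atImInfty (𝓝 0) := by
  obtain ⟨φX, φY, hX, hY, hX0, hY0, hne, h⟩ := theta_exp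
  have h1 : fX = fun z : ℍ => (fun q : ℂ => 16 * q * φX q) (1 * q2 z) := by
    funext z
    rw [(h z).1]
    simp only [one_mul]
  rw [h1]
  have h2 := Th1b.lim_zero (φ := fun q : ℂ => 16 * q * φX q)
    (((differentiable_id.const_mul (16 : ℂ)).differentiableOn).mul hX) 1
  simpa using h2

theorem fX_lim' : Tendsto (fun z => fX z / q2 z) atImInfty (𝓝 16) := by
  obtain ⟨φX, φY, hX, hY, hX0, hY0, hne, h⟩ := theta_exp
  have h1 : (fun z => fX z / q2 z) = fun z : ℍ => (fun q : ℂ => 16 * φX q) (1 * q2 z) := by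
    funext z
    have := Th1b.q2_ne z
    rw [(h z).1]
    simp only [one_mul]
    field_simp
  rw [h1]
  have h2 := Th1b.lim_zero (φ := fun q : ℂ => 16 * φX q) (hX.const_mul 16) 1
  simpa [hX0] using h2

theorem fY_lim : Tendsto fY atImInfty (𝓝 1) := by
  obtain ⟨φX, φY, hX, hY, hX0, hY0, hne, h⟩ := theta_exp
  have h1 : fY = fun z : ℍ => φY (1 * q2 z) := by
    funext z
    rw [(h z).2.1, one_mul]
  rw [h1]
  have h2 := Th1b.lim_zero hY 1
  rwa [hY0] at h2

theorem fZ_lim : Tendsto fZ atImInfty (𝓝 1) := by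
  obtain ⟨φX, φY, hX, hY, hX0, hY0, hne, h⟩ := theta_exp
  have h1 : fZ = fun z : ℍ => φY ((-1) * q2 z) := by
    funext z
    rw [(h z).2.2, neg_one_mul]
  rw [h1]
  have h2 := Th1b.lim_zero hY (-1)
  rwa [hY0] at h2

end Pool.Agent.UFC
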