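import Mathlib
import Pool.Agent.UFC.A.Defs

/-!
# UFC A: transformation of `fX, fY, fZ` under `T` and `S`

`T`: `η(z + 1) = e^(2 π i / 24) η(z)` (from the definition of `eta`; `eta_q` has period `1`).
`S`: `η(-1/z) = (√I)⁻¹ √z η(z)` (`ModularForm.eta_comp_eq_csqrt_I_inv`), so
`η(-1/z)^4 = - z^2 η(z)^4` and `η(-1/w)^8 = w^4 η(w)^8`; with `w = z/2` and `w = 2z`:
`η(2 (-1/z))^8 = (z^4/16) η(z/2)^8`, `η((-1/z)/2)^8 = 16 z^4 η(2z)^8`.
For `fZ_S` use `fZ = fY ∣ T`, `S T S = T⁻¹ S T⁻¹`: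
`fZ ∣ S = fY ∣ T S = -(fX ∣ S T S) = -(fX ∣ T⁻¹ S T⁻¹) = fX ∣ S T⁻¹ = -(fY ∣ T⁻¹) = -fZ`.
-/

set_option autoImplicit false

namespace Pool.Agent.UFC

open UpperHalfPlane CongruenceSubgroup
open scoped MatrixGroups Manifold ModularForm

theorem eta_add_one (z : ℂ) :
    ModularForm.eta (z + 1) =
      Complex.exp (2 * Real.pi * Complex.I / 24) * ModularForm.eta z := by
  have h1 : ∀ n, ModularForm.eta_q n (z + 1) = ModularForm.eta_q n z := by
    intro n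
    rw [ModularForm.eta_q_eq_cexp, ModularForm.eta_q_eq_cexp]
    have h2 : 2 * (Real.pi : ℂ) * Complex.I * (n + 1) * (z + 1) =
        2 * Real.pi * Complex.I * (n + 1) * z + ((n + 1 : ℕ) : ℤ) * (2 * Real.pi * Complex.I) := by
      push_cast
      ring
    rw [h2, Complex.exp_add, Complex.exp_int_mul_two_pi_mul_I, mul_one]
  unfold ModularForm.eta
  rw [tprod_congr fun n => by rw [h1 n], ← mul_assoc]
  congr 1
  unfold Function.Periodic.qParam
  rw [← Complex.exp_add]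
  congr 1
  push_cast
  ring

theorem eta_add_one_pow4 (z : ℂ) :
    ModularForm.eta (z + 1) ^ 4 =
      Complex.exp (2 * Real.pi * Complex.I / 24) ^ 4 * ModularForm.eta z ^ 4 := by
  rw [eta_add_one, mul_pow]

theorem exp_pow_12 : Complex.exp (2 * Real.pi * Complex.I / 24) ^ 12 = -1 := by
  rw [← Complex.exp_nat_mul]
  have h : ((12 : ℕ) : ℂ) * (2 * Real.pi * Complex.I / 24) = Real.pi * Complex.I := by
    push_cast
    ring
  rw [h, Complex.exp_pi_mul_I]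

theorem csqrt_sq (z : ℂ) : Complex.sqrt z ^ 2 = z := by
  unfold Complex.sqrt
  rw [← Complex.cpow_nat_mul]
  norm_num

/-- `η(-1/z)^4 = - z^2 η(z)^4` -/
theorem eta_inv_pow4 {z : ℂ} (hz : 0 < z.im) :
    ModularForm.eta (-1 / z) ^ 4 = -(z ^ 2 * ModularForm.eta z ^ 4) := by
  have h := ModularForm.eta_comp_eq_csqrt_I_inv (show z ∈ upperHalfPlaneSet from hz)
  simp only [Function.comp_apply, Pi.smul_apply, Pi.mul_apply, smul_eq_mul] at h
  rw [h]
  have h4 : Complex.sqrt z ^ 4 = z ^ 2 := by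
    rw [show (4 : ℕ) = 2 * 2 by norm_num, pow_mul, csqrt_sq]
  have hI : ((Complex.sqrt Complex.I)⁻¹) ^ 4 = -1 := by
    rw [inv_pow, show (4 : ℕ) = 2 * 2 by norm_num, pow_mul, csqrt_sq, Complex.I_sq]
    norm_num
  rw [mul_pow, mul_pow, h4, hI]
  ring

theorem eta_inv_pow8 {z : ℂ} (hz : 0 < z.im) :
    ModularForm.eta (-1 / z) ^ 8 = z ^ 4 * ModularForm.eta z ^ 8 := by
  rw [show (8 : ℕ) = 4 * 2 by norm_num, pow_mul, eta_inv_pow4 hz]
  ring

theorem slash_T (f : ℍ → ℂ) (k : ℤ) (z : ℍ) :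
    (f ∣[k] ModularGroup.T) z = f ((1 : ℝ) +ᵥ z) := by
  rw [ModularForm.SL_slash_apply, modular_T_smul]
  simp [denom, ModularGroup.T]

theorem coe_one_vadd (z : ℍ) : (((1 : ℝ) +ᵥ z : ℍ) : ℂ) = (z : ℂ) + 1 := by
  rw [UpperHalfPlane.coe_vadd, add_comm]
  push_cast
  rfl

theorem slash_S (f : ℍ → ℂ) (z : ℍ) :
    (f ∣[(2 : ℤ)] ModularGroup.S) z = f (ModularGroup.S • z) * ((z : ℂ) ^ 2)⁻¹ := by
  rw [ModularForm.SL_slash_apply]
  congr 1
  rw [zpow_neg]
  simp [denom, ModularGroup.S]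

theorem coe_S (z : ℍ) : ((ModularGroup.S • z : ℍ) : ℂ) = -1 / (z : ℂ) := by
  rw [modular_S_smul]
  simp [neg_div]

theorem fX_T : fX ∣[(2 : ℤ)] ModularGroup.T = -fX := by
  ext z
  rw [slash_T, Pi.neg_apply]
  unfold fX
  rw [coe_one_vadd, show (2 : ℂ) * ((z : ℂ) + 1) = 2 * z + 1 + 1 by ring, eta_add_one, eta_add_one,
    eta_add_one]
  have hE := exp_pow_12
  set E := Complex.exp (2 * Real.pi * Complex.I / 24)
  have hE0 : E ≠ 0 := Complex.exp_ne_zero _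
  have h0 : ModularForm.eta z ≠ 0 := ModularForm.eta_ne_zero z.2
  have h1 : (E * (E * ModularForm.eta (2 * z))) ^ 8 =
      E ^ 4 * (E ^ 12 * ModularForm.eta (2 * z) ^ 8) := by ring
  rw [h1, hE, mul_pow]
  field_simp

theorem fY_T : fY ∣[(2 : ℤ)] ModularGroup.T = fZ := by
  ext z
  rw [slash_T]
  unfold fY fZ
  rw [coe_one_vadd]

theorem fZ_T : fZ ∣[(2 : ℤ)] ModularGroup.T = fY := by
  ext z
  rw [slash_T]
  unfold fY fZ
  rw [coe_one_vadd, show ((z : ℂ) + 1 + 1) / 2 = z / 2 + 1 by ring, eta_add_one, eta_add_one,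
    eta_add_one]
  set E := Complex.exp (2 * Real.pi * Complex.I / 24)
  have hE0 : E ≠ 0 := Complex.exp_ne_zero _
  have h0 : ModularForm.eta z ≠ 0 := ModularForm.eta_ne_zero z.2
  rw [mul_pow, mul_pow, mul_pow]
  field_simp

theorem fX_S : fX ∣[(2 : ℤ)] ModularGroup.S = -fY := by
  ext z
  rw [slash_S, Pi.neg_apply]
  unfold fX fY
  have hz : (z : ℂ) ≠ 0 := z.ne_zero
  have h0 : ModularForm.eta z ≠ 0 := ModularForm.eta_ne_zero z.2
  have him : 0 < ((z : ℂ) / 2).im := by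
    have := z.2
    rw [show (z : ℂ) / 2 = ((1 / 2 : ℝ) : ℂ) * z by push_cast; ring, Complex.im_ofReal_mul]
    positivity
  rw [coe_S, show (2 : ℂ) * (-1 / z) = -1 / (z / 2) by field_simp, eta_inv_pow8 him,
    eta_inv_pow4 z.2]
  field_simp
  ring

theorem fY_S : fY ∣[(2 : ℤ)] ModularGroup.S = -fX := by
  ext z
  rw [slash_S, Pi.neg_apply]
  unfold fX fY
  have hz : (z : ℂ) ≠ 0 := z.ne_zero
  have h0 : ModularForm.eta z ≠ 0 := ModularForm.eta_ne_zero z.2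
  have him : 0 < (2 * (z : ℂ)).im := by
    have := z.2
    rw [show 2 * (z : ℂ) = ((2 : ℝ) : ℂ) * z by push_cast; ring, Complex.im_ofReal_mul]
    positivity
  rw [coe_S, show (-1 / (z : ℂ)) / 2 = -1 / (2 * z) by field_simp, eta_inv_pow8 him,
    eta_inv_pow4 z.2]
  field_simp
  ring

theorem fZ_S : fZ ∣[(2 : ℤ)] ModularGroup.S = -fZ := by
  have hrel : ModularGroup.S * ModularGroup.T * ModularGroup.S =
      ModularGroup.T⁻¹ * ModularGroup.S * ModularGroup.T⁻¹ := by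
    ext i j
    fin_cases i <;> fin_cases j <;>
      simp [ModularGroup.S, ModularGroup.T, Matrix.mul_apply, Fin.sum_univ_two,
        Matrix.SpecialLinearGroup.coe_inv, Matrix.adjugate_fin_two]
  have hXT : fX ∣[(2 : ℤ)] ModularGroup.T⁻¹ = -fX := by
    have h : (fX ∣[(2 : ℤ)] ModularGroup.T) ∣[(2 : ℤ)] ModularGroup.T⁻¹ = fX := by
      rw [← SlashAction.slash_mul, mul_inv_cancel, SlashAction.slash_one]
    rw [fX_T, SlashAction.neg_slash] at h
    exact neg_eq_iff_eq_neg.1 h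
  have hYT : fY ∣[(2 : ℤ)] ModularGroup.T⁻¹ = fZ := by
    have h : (fZ ∣[(2 : ℤ)] ModularGroup.T) ∣[(2 : ℤ)] ModularGroup.T⁻¹ = fZ := by
      rw [← SlashAction.slash_mul, mul_inv_cancel, SlashAction.slash_one]
    rwa [fZ_T] at h
  have h1 : fX ∣[(2 : ℤ)] (ModularGroup.S * ModularGroup.T * ModularGroup.S) = fZ := by
    rw [hrel, SlashAction.slash_mul, SlashAction.slash_mul, hXT, SlashAction.neg_slash, fX_S,
      neg_neg, hYT]
  have h2 : fX ∣[(2 : ℤ)] (ModularGroup.S * ModularGroup.T * ModularGroup.S) =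
      -(fZ ∣[(2 : ℤ)] ModularGroup.S) := by
    rw [SlashAction.slash_mul, SlashAction.slash_mul, fX_S, SlashAction.neg_slash, fY_T,
      SlashAction.neg_slash]
  rw [h1] at h2
  exact (neg_eq_iff_eq_neg.1 h2.symm)

end Pool.Agent.UFC
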