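import Mathlib
import Pool.Agent.UFC.A.Th1b
import Pool.Agent.UFC.A.Th2
import Pool.Agent.UFC.A.MFc

/-!
# UFC A: Jacobi's identity `fX + fY = fZ`

Put `f = fX + fY - fZ`.  Then `f ∣[2] T = -f` and `f ∣[2] S = -f`, so `f ^ 2` has weight `4` for
`SL(2, ℤ)` and tends to `0 + 1 - 1 = 0` at `i ∞`; by `level_one_four` it vanishes.
-/

set_option autoImplicit false

namespace Pool.Agent.UFC

open UpperHalfPlane CongruenceSubgroup
open scoped MatrixGroups Manifold ModularForm

theorem jacobi (z : ℍ) : fX z + fY z = fZ z := by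
  obtain ⟨f, hf⟩ : ∃ f : ℍ → ℂ, f = fX + fY - fZ := ⟨_, rfl⟩
  have hT : f ∣[(2 : ℤ)] ModularGroup.T = -f := by
    rw [hf, sub_eq_add_neg, SlashAction.add_slash, SlashAction.neg_slash, SlashAction.add_slash, fX_T, fY_T, fZ_T]
    ring
  have hS : f ∣[(2 : ℤ)] ModularGroup.S = -f := by
    rw [hf, sub_eq_add_neg, SlashAction.add_slash, SlashAction.neg_slash, SlashAction.add_slash, fX_S, fY_S, fZ_S]
    ring
  have hd : MDiff f := by
    rw [hf]
    exact (fX_mdiff.add fY_mdiff).sub fZ_mdiff
  have hl : Filter.Tendsto f atImInfty (nhds 0) := by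
    rw [hf]
    have h1 := (fX_lim.add fY_lim).sub fZ_lim
    have h2 : (0 : ℂ) + 1 - 1 = 0 := by ring
    rw [h2] at h1
    exact h1
  have h2 := level_one_four (f * f) (hd.mul hd)
    (by
      have h := ModularForm.mul_slash_SL2 2 2 ModularGroup.S f f
      rw [hS, neg_mul_neg] at h
      exact h)
    (by
      have h := ModularForm.mul_slash_SL2 2 2 ModularGroup.T f f
      rw [hT, neg_mul_neg] at h
      exact h)
    (by
      have h := hl.mul hl
      rw [zero_mul] at h
      exact h)
  have h3 : f z * f z = 0 := congrFun h2 z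
  have h4 : f z = 0 := mul_self_eq_zero.1 h3
  rw [hf] at h4
  exact sub_eq_zero.1 h4

end Pool.Agent.UFC
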