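import Mathlib
import Pool.Agent.UFC.A.Defs

/-!
# UFC A: closure properties of modular forms for `Γ(2)`

Use `ModularForm.mul_slash_SL2`, `SlashAction.add_slash`, `ModularForm.SL_smul_slash`,
`SlashAction.slash_mul`, normality of `Gamma 2` (`Gamma_normal`) and the closure properties of
`MDiff` and of `IsBoundedAtImInfty`.
-/

set_option autoImplicit false

namespace Pool.Agent.UFC

open UpperHalfPlane CongruenceSubgroup
open scoped MatrixGroups Manifold ModularForm

theorem MF.mul {k l : ℤ} {f g : ℍ → ℂ} (hf : MF k f) (hg : MF l g) : MF (k + l) (f * g) := by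
  refine ⟨hf.holo.mul hg.holo, fun γ hγ => ?_, fun γ => ?_⟩
  · rw [ModularForm.mul_slash_SL2, hf.inv γ hγ, hg.inv γ hγ]
  · rw [ModularForm.mul_slash_SL2]
    exact Filter.BoundedAtFilter.mul (hf.bdd γ) (hg.bdd γ)

theorem MF.add {k : ℤ} {f g : ℍ → ℂ} (hf : MF k f) (hg : MF k g) : MF k (f + g) := by
  refine ⟨hf.holo.add hg.holo, fun γ hγ => ?_, fun γ => ?_⟩
  · rw [SlashAction.add_slash, hf.inv γ hγ, hg.inv γ hγ]
  · rw [SlashAction.add_slash]
    exact Filter.BoundedAtFilter.add (hf.bdd γ) (hg.bdd γ)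

theorem MF.smul {k : ℤ} {f : ℍ → ℂ} (c : ℂ) (hf : MF k f) : MF k (c • f) := by
  refine ⟨hf.holo.const_smul c, fun γ hγ => ?_, fun γ => ?_⟩
  · rw [ModularForm.SL_smul_slash, hf.inv γ hγ]
  · rw [ModularForm.SL_smul_slash]
    exact Filter.BoundedAtFilter.smul c (hf.bdd γ)

theorem MF.const (c : ℂ) : MF 0 (fun _ => c) := by
  have key : ∀ γ : SL(2, ℤ), (fun _ : ℍ => c) ∣[(0 : ℤ)] γ = fun _ : ℍ => c := by
    intro γ
    have h1 : (fun _ : ℍ => c) = c • (1 : ℍ → ℂ) := by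
      funext z
      simp
    rw [h1, ModularForm.SL_smul_slash, ModularForm.is_invariant_one]
  refine ⟨mdifferentiable_const, fun γ _ => key γ, fun γ => ?_⟩
  rw [key γ]
  exact Filter.const_boundedAtFilter _ c

theorem MF.pow {k : ℤ} {f : ℍ → ℂ} (hf : MF k f) (n : ℕ) : MF (n * k) (f ^ n) := by
  induction n with
  | zero =>
    have h := MF.const 1
    have h1 : f ^ 0 = fun _ : ℍ => (1 : ℂ) := by
      funext z
      simp
    rw [h1]
    simpa using h
  | succ n ih =>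
    have h := ih.mul hf
    rw [pow_succ]
    have h2 : ((n + 1 : ℕ) : ℤ) * k = n * k + k := by
      push_cast
      ring
    rw [h2]
    exact h

theorem mdiff_slash {k : ℤ} {f : ℍ → ℂ} (hf : MDiff f) (γ : SL(2, ℤ)) : MDiff (f ∣[k] γ) := by
  exact MDifferentiable.slash hf k _

theorem MF.slash {k : ℤ} {f : ℍ → ℂ} (hf : MF k f) (γ : SL(2, ℤ)) : MF k (f ∣[k] γ) := by
  refine ⟨mdiff_slash hf.holo γ, fun δ hδ => ?_, fun δ => ?_⟩
  · rw [← SlashAction.slash_mul]
    have hc : γ * δ * γ⁻¹ ∈ Gamma 2 := (Gamma_normal 2).conj_mem _ hδ _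
    have h1 : γ * δ = (γ * δ * γ⁻¹) * γ := by group
    rw [h1, SlashAction.slash_mul, hf.inv _ hc]
  · rw [← SlashAction.slash_mul]
    exact hf.bdd _

end Pool.Agent.UFC
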