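import Mathlib
import Pool.Agent.UFC.A.Th1b
import Pool.Agent.UFC.A.Th2
import Pool.Agent.UFC.A.MFa
import Pool.Agent.UFC.A.FreeB
import Pool.Agent.UFC.A.Coset

/-!
# UFC A: `fX, fY, fZ` are modular forms of weight `2` for `Γ(2)`

Invariance under `gA = T^2`, `gB = S T^2 S⁻¹` and `gN = -1` from `Th2` (weight `2` is even, `-1` acts
trivially), hence under `Γ(2)` by `gamma2_gen`.  For `γ = δ g` with `δ ∈ Γ(2)` and
`g = 1, T, S, S T, T S, T S T` (`coset6`) the slash `fX ∣ γ` is `fX, -fX, -fY, -fZ, fY, fZ`,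
`fY ∣ γ` is `fY, fZ, -fX, fX, -fZ, -fY`, `fZ ∣ γ` is `fZ, fY, -fZ, -fY, -fX, fX`; all bounded at
`i ∞`.
-/

set_option autoImplicit false

namespace Pool.Agent.UFC

open UpperHalfPlane CongruenceSubgroup
open scoped MatrixGroups Manifold ModularForm

namespace Th4

theorem slash_neg_one (f : ℍ → ℂ) : f ∣[(2 : ℤ)] (-1 : SL(2, ℤ)) = f := by
  ext z
  rw [ModularForm.SL_slash_apply, ModularGroup.SL_neg_smul, one_smul]
  simp [denom]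

theorem slash_inv_of {f g : ℍ → ℂ} {A : SL(2, ℤ)} (h : f ∣[(2 : ℤ)] A = g) :
    g ∣[(2 : ℤ)] A⁻¹ = f := by
  rw [← h, ← SlashAction.slash_mul, mul_inv_cancel, SlashAction.slash_one]

/-- The stabiliser of `f` in `Γ(2)`. -/
def stab (f : ℍ → ℂ) : Subgroup (Gamma 2) where
  carrier := {x | f ∣[(2 : ℤ)] (x : SL(2, ℤ)) = f}
  one_mem' := by
    rw [Set.mem_ofPred_eq, Subgroup.coe_one, SlashAction.slash_one]
  mul_mem' := by
    intro a b ha hb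
    rw [Set.mem_ofPred_eq] at ha hb ⊢
    rw [Subgroup.coe_mul, SlashAction.slash_mul, ha, hb]
  inv_mem' := by
    intro a ha
    rw [Set.mem_ofPred_eq] at ha ⊢
    rw [Subgroup.coe_inv]
    exact slash_inv_of ha

theorem mem_stab {f : ℍ → ℂ} {x : Gamma 2} : x ∈ stab f ↔ f ∣[(2 : ℤ)] (x : SL(2, ℤ)) = f :=
  Iff.rfl

theorem gN_stab (f : ℍ → ℂ) : gN ∈ stab f := by
  rw [mem_stab]
  have e : ((gN : Gamma 2) : SL(2, ℤ)) = -1 := rfl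
  rw [e]
  exact slash_neg_one f

theorem stab_top {f : ℍ → ℂ} (hA : gA ∈ stab f) (hB : gB ∈ stab f) : stab f = ⊤ := by
  rw [eq_top_iff, ← gamma2_gen, Subgroup.closure_le]
  intro x hx
  rcases hx with rfl | rfl | rfl
  · exact hA
  · exact hB
  · exact gN_stab f

theorem inv_of {f : ℍ → ℂ} (hA : gA ∈ stab f) (hB : gB ∈ stab f) :
    ∀ γ ∈ Gamma 2, f ∣[(2 : ℤ)] γ = f := by
  intro γ hγ
  have h : (⟨γ, hγ⟩ : Gamma 2) ∈ stab f := by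
    rw [stab_top hA hB]
    exact Subgroup.mem_top _
  rw [mem_stab] at h
  exact h

theorem fX_S' : fX ∣[(2 : ℤ)] ModularGroup.S⁻¹ = -fY := by
  have h := slash_inv_of fY_S
  have h2 : (-(-fX)) ∣[(2 : ℤ)] ModularGroup.S⁻¹ = -fY := by
    rw [SlashAction.neg_slash, h]
  rwa [neg_neg] at h2

theorem fY_S' : fY ∣[(2 : ℤ)] ModularGroup.S⁻¹ = -fX := by
  have h := slash_inv_of fX_S
  have h2 : (-(-fY)) ∣[(2 : ℤ)] ModularGroup.S⁻¹ = -fX := by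
    rw [SlashAction.neg_slash, h]
  rwa [neg_neg] at h2

theorem fZ_S' : fZ ∣[(2 : ℤ)] ModularGroup.S⁻¹ = -fZ := by
  have h := slash_inv_of fZ_S
  have h2 : (-(-fZ)) ∣[(2 : ℤ)] ModularGroup.S⁻¹ = -fZ := by
    rw [SlashAction.neg_slash, h]
  rwa [neg_neg] at h2

theorem fX_inv : ∀ γ ∈ Gamma 2, fX ∣[(2 : ℤ)] γ = fX := by
  refine inv_of ?_ ?_
  · rw [mem_stab]
    change fX ∣[(2 : ℤ)] (ModularGroup.T ^ 2) = fX
    rw [pow_two, SlashAction.slash_mul, fX_T, SlashAction.neg_slash, fX_T, neg_neg]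
  · rw [mem_stab]
    change fX ∣[(2 : ℤ)] (ModularGroup.S * ModularGroup.T ^ 2 * ModularGroup.S⁻¹) = fX
    rw [pow_two, SlashAction.slash_mul, SlashAction.slash_mul, SlashAction.slash_mul, fX_S,
      SlashAction.neg_slash, SlashAction.neg_slash, SlashAction.neg_slash, fY_T, fZ_T, fY_S',
      neg_neg]

theorem fY_inv : ∀ γ ∈ Gamma 2, fY ∣[(2 : ℤ)] γ = fY := by
  refine inv_of ?_ ?_
  · rw [mem_stab]
    change fY ∣[(2 : ℤ)] (ModularGroup.T ^ 2) = fY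
    rw [pow_two, SlashAction.slash_mul, fY_T, fZ_T]
  · rw [mem_stab]
    change fY ∣[(2 : ℤ)] (ModularGroup.S * ModularGroup.T ^ 2 * ModularGroup.S⁻¹) = fY
    rw [pow_two, SlashAction.slash_mul, SlashAction.slash_mul, SlashAction.slash_mul, fY_S,
      SlashAction.neg_slash, SlashAction.neg_slash, SlashAction.neg_slash, fX_T,
      SlashAction.neg_slash, fX_T, neg_neg, fX_S', neg_neg]

theorem fZ_inv : ∀ γ ∈ Gamma 2, fZ ∣[(2 : ℤ)] γ = fZ := by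
  refine inv_of ?_ ?_
  · rw [mem_stab]
    change fZ ∣[(2 : ℤ)] (ModularGroup.T ^ 2) = fZ
    rw [pow_two, SlashAction.slash_mul, fZ_T, fY_T]
  · rw [mem_stab]
    change fZ ∣[(2 : ℤ)] (ModularGroup.S * ModularGroup.T ^ 2 * ModularGroup.S⁻¹) = fZ
    rw [pow_two, SlashAction.slash_mul, SlashAction.slash_mul, SlashAction.slash_mul, fZ_S,
      SlashAction.neg_slash, SlashAction.neg_slash, SlashAction.neg_slash, fZ_T, fY_T, fZ_S',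
      neg_neg]

/-- The table of slashes. -/
theorem table (γ : SL(2, ℤ)) :
    (fX ∣[(2 : ℤ)] γ = fX ∧ fY ∣[(2 : ℤ)] γ = fY ∧ fZ ∣[(2 : ℤ)] γ = fZ ∧
      ∃ δ ∈ Gamma 2, γ = δ) ∨
    (fX ∣[(2 : ℤ)] γ = -fX ∧ fY ∣[(2 : ℤ)] γ = fZ ∧ fZ ∣[(2 : ℤ)] γ = fY ∧
      ∃ δ ∈ Gamma 2, γ = δ * ModularGroup.T) ∨
    (fX ∣[(2 : ℤ)] γ = -fY ∧ fY ∣[(2 : ℤ)] γ = -fX ∧ fZ ∣[(2 : ℤ)] γ = -fZ) ∨
    (fX ∣[(2 : ℤ)] γ = -fZ ∧ fY ∣[(2 : ℤ)] γ = fX ∧ fZ ∣[(2 : ℤ)] γ = -fY) ∨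
    (fX ∣[(2 : ℤ)] γ = fY ∧ fY ∣[(2 : ℤ)] γ = -fZ ∧ fZ ∣[(2 : ℤ)] γ = -fX) ∨
    (fX ∣[(2 : ℤ)] γ = fZ ∧ fY ∣[(2 : ℤ)] γ = -fY ∧ fZ ∣[(2 : ℤ)] γ = fX) := by
  obtain ⟨δ, hδ, h⟩ := coset6 γ
  have hX := fX_inv δ hδ
  have hY := fY_inv δ hδ
  have hZ := fZ_inv δ hδ
  rcases h with h | h | h | h | h | h
  · left
    subst h
    exact ⟨hX, hY, hZ, γ, hδ, rfl⟩
  · right; left
    subst h
    simp only [SlashAction.slash_mul, hX, hY, hZ, fX_T, fY_T, fZ_T, true_and]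
    exact ⟨δ, hδ, rfl⟩
  · right; right; left
    subst h
    simp only [SlashAction.slash_mul, hX, hY, hZ, fX_S, fY_S, fZ_S, and_self]
  · right; right; right; left
    subst h
    simp only [SlashAction.slash_mul, hX, hY, hZ, fX_S, fY_S, fZ_S, SlashAction.neg_slash, fX_T,
      fY_T, fZ_T, neg_neg, and_self]
  · right; right; right; right; left
    subst h
    simp only [SlashAction.slash_mul, hX, hY, hZ, fX_S, fY_S, fZ_S, SlashAction.neg_slash, fX_T,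
      fY_T, fZ_T, neg_neg, and_self]
  · right; right; right; right; right
    subst h
    simp only [SlashAction.slash_mul, hX, hY, hZ, fX_S, fY_S, fZ_S, SlashAction.neg_slash, fX_T,
      fY_T, fZ_T, neg_neg, and_self]

theorem bddX : IsBoundedAtImInfty fX := fX_lim.isBigO_one ℝ

theorem bddY : IsBoundedAtImInfty fY := fY_lim.isBigO_one ℝ

theorem bddZ : IsBoundedAtImInfty fZ := fZ_lim.isBigO_one ℝ

theorem bddX' : IsBoundedAtImInfty (-fX) := fX_lim.neg.isBigO_one ℝ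

theorem bddY' : IsBoundedAtImInfty (-fY) := fY_lim.neg.isBigO_one ℝ

theorem bddZ' : IsBoundedAtImInfty (-fZ) := fZ_lim.neg.isBigO_one ℝ

end Th4

open Th4 in
theorem fX_MF : MF 2 fX := by
  refine ⟨fX_mdiff, fX_inv, fun γ => ?_⟩
  rcases table γ with h | h | h | h | h | h <;> rw [h.1]
  · exact bddX
  · exact bddX'
  · exact bddY'
  · exact bddZ'
  · exact bddY
  · exact bddZ

open Th4 in
theorem fY_MF : MF 2 fY := by
  refine ⟨fY_mdiff, fY_inv, fun γ => ?_⟩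
  rcases table γ with h | h | h | h | h | h <;> rw [h.2.1]
  · exact bddY
  · exact bddZ
  · exact bddX'
  · exact bddX
  · exact bddZ'
  · exact bddY'

open Th4 in
theorem fZ_MF : MF 2 fZ := by
  refine ⟨fZ_mdiff, fZ_inv, fun γ => ?_⟩
  rcases table γ with h | h | h | h | h | h
  · rw [h.2.2.1]; exact bddZ
  · rw [h.2.2.1]; exact bddY
  · rw [h.2.2]; exact bddZ'
  · rw [h.2.2]; exact bddY'
  · rw [h.2.2]; exact bddX'
  · rw [h.2.2]; exact bddX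

/-- The six possibilities for `(fX ∣ γ, fZ ∣ γ)`; in the first two cases `γ ∈ Γ(2) T^j`. -/
theorem theta_slash (γ : SL(2, ℤ)) :
    (fX ∣[(2 : ℤ)] γ = fX ∧ fZ ∣[(2 : ℤ)] γ = fZ ∧ ∃ δ ∈ Gamma 2, γ = δ) ∨
    (fX ∣[(2 : ℤ)] γ = -fX ∧ fZ ∣[(2 : ℤ)] γ = fY ∧ ∃ δ ∈ Gamma 2, γ = δ * ModularGroup.T) ∨
    (fX ∣[(2 : ℤ)] γ = -fY ∧ fZ ∣[(2 : ℤ)] γ = -fZ) ∨
    (fX ∣[(2 : ℤ)] γ = -fZ ∧ fZ ∣[(2 : ℤ)] γ = -fY) ∨
    (fX ∣[(2 : ℤ)] γ = fY ∧ fZ ∣[(2 : ℤ)] γ = -fX) ∨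
    (fX ∣[(2 : ℤ)] γ = fZ ∧ fZ ∣[(2 : ℤ)] γ = fX) := by
  rcases Th4.table γ with h | h | h | h | h | h
  · exact Or.inl ⟨h.1, h.2.2⟩
  · exact Or.inr (Or.inl ⟨h.1, h.2.2⟩)
  · exact Or.inr (Or.inr (Or.inl ⟨h.1, h.2.2⟩))
  · exact Or.inr (Or.inr (Or.inr (Or.inl ⟨h.1, h.2.2⟩)))
  · exact Or.inr (Or.inr (Or.inr (Or.inr (Or.inl ⟨h.1, h.2.2⟩))))
  · exact Or.inr (Or.inr (Or.inr (Or.inr (Or.inr ⟨h.1, h.2.2⟩))))

end Pool.Agent.UFC
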