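import Mathlib
import Pool.Agent.UFC.A.Th3
import Pool.Agent.UFC.A.Th4
import Pool.Agent.UFC.A.MFb

set_option autoImplicit false

/-!
# UFC A: `λ` takes every value different from `0` and `1`

If `λ ≠ t` everywhere then `h = fX - t fZ` has no zero on the upper half plane.  For every
`γ ∈ SL(2, ℤ)` the limit of `h ∣ γ` at `i ∞` is not `0` (`theta_slash`, `fX → 0`, `fY, fZ → 1`): it is
`-t, -t, -(1 - t), -(1 - t)`, `1`, `1` up to sign.  So `1/h` is `MF (-2)` (`div_slash_SL2` or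
`SL_slash_apply`), hence `0` by `MF.neg_weight`; contradiction.
-/

namespace Pool.Agent.UFC

open UpperHalfPlane CongruenceSubgroup
open scoped MatrixGroups Manifold ModularForm

namespace Lam2

open Filter Topology

/-- `h = fX - t fZ`. -/
noncomputable def hh (t : ℂ) (z : ℍ) : ℂ := fX z - t * fZ z

theorem hh_slash (t : ℂ) (γ : SL(2, ℤ)) (z : ℍ) :
    (hh t ∣[(2 : ℤ)] γ) z = (fX ∣[(2 : ℤ)] γ) z - t * (fZ ∣[(2 : ℤ)] γ) z := by
  rw [ModularForm.SL_slash_apply, ModularForm.SL_slash_apply, ModularForm.SL_slash_apply]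
  unfold hh
  ring

theorem inv_slash (f : ℍ → ℂ) (γ : SL(2, ℤ)) :
    (fun z => (f z)⁻¹) ∣[(-2 : ℤ)] γ = fun z => ((f ∣[(2 : ℤ)] γ) z)⁻¹ := by
  ext z
  rw [ModularForm.SL_slash_apply, ModularForm.SL_slash_apply, mul_inv, ← zpow_neg]

theorem hh_lim (t : ℂ) (h0 : t ≠ 0) (h1 : t ≠ 1) (γ : SL(2, ℤ)) :
    ∃ L : ℂ, L ≠ 0 ∧ Tendsto (hh t ∣[(2 : ℤ)] γ) atImInfty (𝓝 L) := by
  have he : (hh t ∣[(2 : ℤ)] γ) = fun z => (fX ∣[(2 : ℤ)] γ) z - t * (fZ ∣[(2 : ℤ)] γ) z :=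
    funext (hh_slash t γ)
  have h1' : (1 : ℂ) - t ≠ 0 := sub_ne_zero.2 (Ne.symm h1)
  rw [he]
  rcases theta_slash γ with h | h | h | h | h | h
  · rw [h.1, h.2.1]
    exact ⟨0 - t * 1, by simpa using h0, fX_lim.sub (fZ_lim.const_mul t)⟩
  · rw [h.1, h.2.1]
    exact ⟨-0 - t * 1, by simpa using h0, fX_lim.neg.sub (fY_lim.const_mul t)⟩
  · rw [h.1, h.2]
    refine ⟨-1 - t * (-1), ?_, fY_lim.neg.sub (fZ_lim.neg.const_mul t)⟩
    intro hc
    apply h1'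
    linear_combination -hc
  · rw [h.1, h.2]
    refine ⟨-1 - t * (-1), ?_, fZ_lim.neg.sub (fY_lim.neg.const_mul t)⟩
    intro hc
    apply h1'
    linear_combination -hc
  · rw [h.1, h.2]
    exact ⟨1 - t * (-0), by simp, fY_lim.sub (fX_lim.neg.const_mul t)⟩
  · rw [h.1, h.2]
    exact ⟨1 - t * 0, by simp, fZ_lim.sub (fX_lim.const_mul t)⟩

theorem hh_mdiff (t : ℂ) : MDiff (hh t) :=
  fX_mdiff.sub (fZ_mdiff.const_smul t)

theorem inv_mdiff {f : ℍ → ℂ} (hf : MDiff f) (h0 : ∀ z, f z ≠ 0) : MDiff (fun z => (f z)⁻¹) := by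
  rw [mdifferentiable_iff] at hf ⊢
  exact hf.inv (fun z hz => h0 _)

end Lam2

open Lam2 in
theorem lam_surj (t : ℂ) (h0 : t ≠ 0) (h1 : t ≠ 1) : ∃ z : ℍ, lam z = t := by
  by_contra hcon
  push Not at hcon
  have hne : ∀ z, hh t z ≠ 0 := by
    intro z hz
    apply hcon z
    unfold hh at hz
    unfold lam
    rw [div_eq_iff (fZ_ne z)]
    exact sub_eq_zero.1 hz
  have hMF : MF (-2) (fun z => (hh t z)⁻¹) := by
    refine ⟨inv_mdiff (hh_mdiff t) hne, ?_, ?_⟩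
    · intro γ hγ
      rw [inv_slash]
      ext z
      rw [hh_slash, fX_MF.inv γ hγ, fZ_MF.inv γ hγ]
      rfl
    · intro γ
      rw [inv_slash]
      obtain ⟨L, hL, hlim⟩ := hh_lim t h0 h1 γ
      exact (hlim.inv₀ hL).isBigO_one ℝ
  have h := hMF.neg_weight (by norm_num)
  have h2 := congrFun h UpperHalfPlane.I
  exact inv_ne_zero (hne UpperHalfPlane.I) h2

end Pool.Agent.UFC
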