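import Mathlib
import Pool.Agent.UFC.A.Th3
import Pool.Agent.UFC.A.Th4

/-!
# UFC A: the function `λ`, elementary facts

`1 - λ = fY / fZ` by `jacobi`.  For the transformations use `ModularForm.SL_slash_apply`:
`(f ∣[2] γ) z = f (γ • z) * denom γ z ^ (-2)`, so quotients of forms of weight `2` satisfy
`(f/g)(γ z) = (f ∣ γ)(z) / (g ∣ γ)(z)`.
-/

set_option autoImplicit false

namespace Pool.Agent.UFC

open UpperHalfPlane CongruenceSubgroup
open scoped MatrixGroups Manifold ModularForm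

theorem Lam1.quot (f g : ℍ → ℂ) (γ : SL(2, ℤ)) (z : ℍ) :
    f (γ • z) / g (γ • z) = (f ∣[(2 : ℤ)] γ) z / (g ∣[(2 : ℤ)] γ) z := by
  rw [ModularForm.SL_slash_apply, ModularForm.SL_slash_apply,
    mul_div_mul_right _ _ (zpow_ne_zero _ (denom_ne_zero γ z))]

theorem Lam1.one_sub (z : ℍ) : 1 - lam z = fY z / fZ z := by
  have h := jacobi z
  have h0 := fZ_ne z
  unfold lam
  field_simp
  rw [← h]
  ring

theorem lam_mdiff : MDiff lam := by
  rw [UpperHalfPlane.mdifferentiable_iff]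
  have h1 := UpperHalfPlane.mdifferentiable_iff.1 fX_mdiff
  have h2 := UpperHalfPlane.mdifferentiable_iff.1 fZ_mdiff
  exact h1.div h2 (fun z _ => fZ_ne _)

theorem lam_ne_zero (z : ℍ) : lam z ≠ 0 := div_ne_zero (fX_ne z) (fZ_ne z)

theorem lam_ne_one (z : ℍ) : lam z ≠ 1 := by
  intro h
  have h1 := Lam1.one_sub z
  rw [h, sub_self] at h1
  exact div_ne_zero (fY_ne z) (fZ_ne z) h1.symm

theorem lam_gamma (γ : SL(2, ℤ)) (hγ : γ ∈ Gamma 2) (z : ℍ) : lam (γ • z) = lam z := by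
  have h := Lam1.quot fX fZ γ z
  rw [fX_MF.inv γ hγ, fZ_MF.inv γ hγ] at h
  exact h

theorem lam_S (z : ℍ) : lam (ModularGroup.S • z) = 1 - lam z := by
  have h := Lam1.quot fX fZ ModularGroup.S z
  rw [fX_S, fZ_S, Pi.neg_apply, Pi.neg_apply, neg_div_neg_eq] at h
  rw [Lam1.one_sub]
  exact h

theorem lam_TS (z : ℍ) : (lam ((ModularGroup.T * ModularGroup.S) • z))⁻¹ = -(fX z / fY z) := by
  have h := Lam1.quot fX fZ (ModularGroup.T * ModularGroup.S) z
  rw [SlashAction.slash_mul, SlashAction.slash_mul, fX_T, fZ_T, SlashAction.neg_slash, fX_S, fY_S,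
    neg_neg, Pi.neg_apply] at h
  unfold lam
  rw [h, inv_div, neg_div]

end Pool.Agent.UFC
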