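import Mathlib
import Pool.Agent.UFC.A.Lam1
import Pool.Agent.UFC.A.MFc

/-!
# UFC A: the derivative of `λ` does not vanish

Let `D` be the normalised derivative of `Mathlib/NumberTheory/ModularForms/Derivative.lean`
(`Derivative.normalizedDerivOfComplex`); for a weight `0` function `D (F ∣[0] γ) = (D F) ∣[2] γ`
(`Derivative.normalizedDerivOfComplex_SL_slash` with `k = 0`).  Put
`g = D lam * fZ / (fX * fY)`, a function of weight `0`.
From `lam ∘ S = 1 - lam`: `(D lam) ∣[2] S = - D lam`, and `fZ / (fX fY)` (weight `-2`) goes to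
`-fZ / (fY fX)`, so `g ∣ S = g`.
From `lam ∘ T = lam / (lam - 1)` (`fX ∣ T = -fX`, `fZ ∣ T = fY = fZ - fX`):
`(D lam) ∣[2] T = - D lam / (lam - 1)^2 = - D lam * fZ^2 / fY^2`, and `fZ/(fX fY)` goes to
`- fY / (fX fZ)`, so `g ∣ T = g`.
At `i ∞`: `lam = 16 q φ(q)` with `q = e^(π i z)`, `φ(0) = 1` (`theta_exp`), so
`D lam = (1/2) q d/dq (lam) ~ 8 q`, and `g → 1/2`.  By `level_one_const`, `g = 1/2` everywhere,
so `D lam ≠ 0`.
-/

set_option autoImplicit false

namespace Pool.Agent.UFC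

open UpperHalfPlane CongruenceSubgroup Filter Topology
open scoped MatrixGroups Manifold ModularForm

namespace Lam3

/-- The normalised derivative of `lam`. -/
noncomputable def Dlam (z : ℍ) : ℂ := Derivative.normalizedDerivOfComplex lam z

lemma Dlam_eq (z : ℍ) :
    Dlam z = (2 * Real.pi * Complex.I)⁻¹ * deriv (lam ∘ ofComplex) z := rfl

/-- The quotient used in the proof. -/
noncomputable def gq (z : ℍ) : ℂ := Dlam z * fZ z / (fX z * fY z)

lemma slash_two_eq (f : ℍ → ℂ) (γ : SL(2, ℤ)) (z : ℍ) :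
    f (γ • z) = (f ∣[(2 : ℤ)] γ) z * denom γ z ^ 2 := by
  have h := ModularForm.SL_slash_apply (k := 2) (f := f) γ z
  rw [h]
  have hz : denom (γ : GL (Fin 2) ℝ) z ≠ 0 := denom_ne_zero _ z
  field_simp

lemma gq_eq (z : ℍ) : gq z = Dlam z * fZ z / (fX z * fY z) := rfl

lemma Dlam_mdiff : MDiff Dlam := Derivative.normalizedDerivOfComplex_mdifferentiable lam_mdiff

lemma gq_mdiff : MDiff gq := by
  have h1 := UpperHalfPlane.mdifferentiable_iff.1 Dlam_mdiff
  have h2 := UpperHalfPlane.mdifferentiable_iff.1 fZ_mdiff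
  have h3 := UpperHalfPlane.mdifferentiable_iff.1 fX_mdiff
  have h4 := UpperHalfPlane.mdifferentiable_iff.1 fY_mdiff
  rw [UpperHalfPlane.mdifferentiable_iff]
  refine (h1.mul h2).div (h3.mul h4) ?_
  intro w hw
  exact mul_ne_zero (fX_ne _) (fY_ne _)

lemma Dlam_slash (γ : SL(2, ℤ)) :
    (Dlam ∣[(2 : ℤ)] γ) = Derivative.normalizedDerivOfComplex (fun z => lam (γ • z)) := by
  have h := Derivative.normalizedDerivOfComplex_SL_slash (k := 0) lam_mdiff (γ := γ)
  have h2 : (lam ∣[(0 : ℤ)] γ) = fun z => lam (γ • z) := by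
    ext z
    rw [ModularForm.SL_slash_apply]
    simp
  rw [h2] at h
  rw [h]
  ext z
  simp
  rfl

lemma lam_S_fun : (fun z : ℍ => lam (ModularGroup.S • z)) = (fun _ => (1 : ℂ)) - lam := by
  ext z
  rw [lam_S]
  rfl

lemma Dlam_S (z : ℍ) : (Dlam ∣[(2 : ℤ)] ModularGroup.S) z = -Dlam z := by
  rw [Dlam_slash, lam_S_fun, Derivative.normalizedDerivOfComplex_sub _ _ mdifferentiable_const
    lam_mdiff, Derivative.normalizedDerivOfComplex_const]
  simp
  rfl

lemma gq_S : gq ∣[(0 : ℤ)] ModularGroup.S = gq := by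
  ext z
  rw [ModularForm.SL_slash_apply, gq_eq, gq_eq, slash_two_eq Dlam, slash_two_eq fX,
    slash_two_eq fY, slash_two_eq fZ, fX_S, fY_S, fZ_S, Dlam_S]
  have hz : denom (ModularGroup.S : GL (Fin 2) ℝ) z ≠ 0 := denom_ne_zero _ z
  have h1 := fX_ne z
  have h2 := fY_ne z
  simp only [Pi.neg_apply, neg_zero, zpow_zero, mul_one]
  field_simp

lemma lam_T_eq (z : ℍ) : lam (ModularGroup.T • z) = lam z / (lam z - 1) := by
  have hz : denom (ModularGroup.T : GL (Fin 2) ℝ) z ≠ 0 := denom_ne_zero _ z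
  have h1 := fX_ne z
  have h2 := fY_ne z
  have h3 := fZ_ne z
  have h4 := jacobi z
  have h5 : lam z - 1 = -(fY z / fZ z) := by
    unfold lam
    field_simp
    rw [← h4]
    ring
  rw [h5]
  unfold lam
  rw [slash_two_eq fX, slash_two_eq fZ, fX_T, fZ_T]
  simp only [Pi.neg_apply]
  field_simp

lemma Dlam_T (z : ℍ) : (Dlam ∣[(2 : ℤ)] ModularGroup.T) z = -(Dlam z * fZ z ^ 2 / fY z ^ 2) := by
  rw [Dlam_slash]
  have hd : DifferentiableAt ℂ (lam ∘ ofComplex) (z : ℂ) :=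
    UpperHalfPlane.mdifferentiableAt_iff.1 (lam_mdiff z)
  have h5 : lam z - 1 = -(fY z / fZ z) := by
    have h3 := fZ_ne z
    have h4 := jacobi z
    unfold lam
    field_simp
    rw [← h4]
    ring
  have h1 := lam_ne_one z
  have h6 : (lam ∘ ofComplex) (z : ℂ) - 1 ≠ 0 := by
    rw [Function.comp_apply, ofComplex_apply]
    exact sub_ne_zero.2 h1
  have h7 : HasDerivAt (fun w => (lam ∘ ofComplex) w / ((lam ∘ ofComplex) w - 1))
      ((deriv (lam ∘ ofComplex) z * ((lam ∘ ofComplex) z - 1) -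
        (lam ∘ ofComplex) z * deriv (lam ∘ ofComplex) z) / ((lam ∘ ofComplex) z - 1) ^ 2) (z : ℂ) :=
    hd.hasDerivAt.div (hd.hasDerivAt.sub_const 1) h6
  have h8 : ((fun z : ℍ => lam (ModularGroup.T • z)) ∘ ofComplex) =
      (fun w => (lam ∘ ofComplex) w / ((lam ∘ ofComplex) w - 1)) := by
    ext w
    simp only [Function.comp_apply]
    exact lam_T_eq _
  unfold Derivative.normalizedDerivOfComplex
  rw [h8, h7.deriv, Dlam_eq, Function.comp_apply, ofComplex_apply]
  have h9 := fY_ne z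
  have h10 := fZ_ne z
  rw [h5]
  have hpi : (2 * (Real.pi : ℂ) * Complex.I) ≠ 0 := Complex.two_pi_I_ne_zero
  have h11 : (deriv (lam ∘ ofComplex) z * (-(fY z / fZ z)) - lam z * deriv (lam ∘ ofComplex) z) =
      -deriv (lam ∘ ofComplex) z := by
    have h12 : -(fY z / fZ z) - lam z = -1 := by rw [← h5]; ring
    linear_combination (deriv (lam ∘ ofComplex) z) * h12
  rw [h11]
  field_simp

lemma gq_T : gq ∣[(0 : ℤ)] ModularGroup.T = gq := by
  ext z
  rw [ModularForm.SL_slash_apply, gq_eq, gq_eq, slash_two_eq Dlam, slash_two_eq fX,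
    slash_two_eq fY, slash_two_eq fZ, fX_T, fY_T, fZ_T, Dlam_T]
  have hz : denom (ModularGroup.T : GL (Fin 2) ℝ) z ≠ 0 := denom_ne_zero _ z
  have h1 := fX_ne z
  have h2 := fY_ne z
  have h3 := fZ_ne z
  simp only [Pi.neg_apply, neg_zero, zpow_zero, mul_one]
  field_simp

lemma q2_deriv (z : ℍ) : HasDerivAt (fun w : ℂ => Complex.exp (Real.pi * Complex.I * w))
    (Real.pi * Complex.I * q2 z) (z : ℂ) := by
  have h := ((hasDerivAt_id (z : ℂ)).const_mul (Real.pi * Complex.I)).cexp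
  have h2 : Complex.exp (Real.pi * Complex.I * id (z : ℂ)) * (Real.pi * Complex.I * 1) =
      Real.pi * Complex.I * q2 z := by
    unfold q2
    simp only [id]
    ring
  rw [h2] at h
  exact h

/-- The expansion of the normalised derivative of `lam` in `q`. -/
lemma Dlam_exp : ∃ L φX φY : ℂ → ℂ, DifferentiableOn ℂ φX (Metric.ball 0 1) ∧
    DifferentiableOn ℂ φY (Metric.ball 0 1) ∧ φX 0 = 1 ∧ φY 0 = 1 ∧
    ContinuousAt L 0 ∧ L 0 = 16 ∧
    ∀ z : ℍ, Dlam z = 2⁻¹ * L (q2 z) * q2 z ∧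
      fX z = 16 * q2 z * φX (q2 z) ∧ fY z = φY (q2 z) ∧ fZ z = φY (-q2 z) := by
  obtain ⟨φX, φY, hX, hY, hX0, hY0, hne, hexp⟩ := theta_exp
  have hneg : DifferentiableOn ℂ (fun q : ℂ => φY (-q)) (Metric.ball 0 1) := by
    refine hY.comp (differentiable_neg.differentiableOn) ?_
    intro q hq
    rw [Metric.mem_ball, dist_zero_right] at hq ⊢
    rw [norm_neg]
    exact hq
  have hh : DifferentiableOn ℂ (fun q : ℂ => φX q / φY (-q)) (Metric.ball 0 1) := by
    refine hX.div hneg ?_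
    intro q hq
    refine (hne (-q) ?_).2
    rw [Metric.mem_ball, dist_zero_right] at hq ⊢
    rw [norm_neg]
    exact hq
  have hF : DifferentiableOn ℂ (fun q : ℂ => 16 * q * (φX q / φY (-q))) (Metric.ball 0 1) :=
    ((differentiable_id.const_mul (16 : ℂ)).differentiableOn).mul hh
  have hF' := hF.deriv Metric.isOpen_ball
  have h0 : (0 : ℂ) ∈ Metric.ball (0 : ℂ) 1 := Metric.mem_ball_self one_pos
  refine ⟨deriv (fun q : ℂ => 16 * q * (φX q / φY (-q))), φX, φY, hX, hY, hX0, hY0,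
    (hF'.differentiableAt (Metric.isOpen_ball.mem_nhds h0)).continuousAt, ?_, ?_⟩
  · have h1 := (((hasDerivAt_id (0 : ℂ)).const_mul (16 : ℂ)).mul
      (hh.differentiableAt (Metric.isOpen_ball.mem_nhds h0)).hasDerivAt)
    have h2 := h1.deriv
    simp only [id, mul_zero, zero_mul, add_zero, neg_zero, hX0, hY0, mul_one, div_one] at h2
    exact h2
  · intro z
    refine ⟨?_, hexp z⟩
    have hz : q2 z ∈ Metric.ball (0 : ℂ) 1 := by
      rw [Metric.mem_ball, dist_zero_right]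
      exact q2_norm_lt z
    have h1 := (hF.differentiableAt (Metric.isOpen_ball.mem_nhds hz)).hasDerivAt
    have h2 : HasDerivAt (fun w : ℂ => (fun q : ℂ => 16 * q * (φX q / φY (-q)))
        (Complex.exp (Real.pi * Complex.I * w)))
        (deriv (fun q : ℂ => 16 * q * (φX q / φY (-q))) (q2 z) * (Real.pi * Complex.I * q2 z))
        (z : ℂ) := HasDerivAt.comp (h₂ := fun q : ℂ => 16 * q * (φX q / φY (-q)))
          (h := fun w : ℂ => Complex.exp (Real.pi * Complex.I * w)) (z : ℂ) h1 (q2_deriv z)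
    have h3 : (lam ∘ ofComplex) =ᶠ[𝓝 (z : ℂ)] (fun w : ℂ =>
        (fun q : ℂ => 16 * q * (φX q / φY (-q))) (Complex.exp (Real.pi * Complex.I * w))) := by
      filter_upwards [isOpen_upperHalfPlaneSet.mem_nhds z.im_pos] with w hw
      have h4 := hexp ⟨w, hw⟩
      rw [Function.comp_apply, ofComplex_apply_of_im_pos hw]
      unfold lam
      rw [h4.1, h4.2.2]
      show _ = 16 * q2 ⟨w, hw⟩ * (φX (q2 ⟨w, hw⟩) / φY (-q2 ⟨w, hw⟩))
      ring
    rw [Dlam_eq, (h2.congr_of_eventuallyEq h3).deriv]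
    have hpi : (Real.pi : ℂ) ≠ 0 := Complex.ofReal_ne_zero.2 Real.pi_ne_zero
    field_simp

lemma gq_tendsto : Tendsto gq atImInfty (𝓝 (2⁻¹ : ℂ)) := by
  obtain ⟨L, φX, φY, hX, hY, hX0, hY0, hL, hL0, hexp⟩ := Dlam_exp
  have h0 : (0 : ℂ) ∈ Metric.ball (0 : ℂ) 1 := Metric.mem_ball_self one_pos
  have hXc := (hX.differentiableAt (Metric.isOpen_ball.mem_nhds h0)).continuousAt
  have hYc := (hY.differentiableAt (Metric.isOpen_ball.mem_nhds h0)).continuousAt
  have hYn : ContinuousAt (fun q : ℂ => φY (-q)) 0 := by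
    refine ContinuousAt.comp (g := φY) ?_ continuous_neg.continuousAt
    rw [neg_zero]
    exact hYc
  have h1 : ContinuousAt (fun q : ℂ => 2⁻¹ * L q * φY (-q) / (16 * φX q * φY q)) 0 := by
    refine ContinuousAt.div ((continuousAt_const.mul hL).mul hYn)
      ((continuousAt_const.mul hXc).mul hYc) ?_
    rw [hX0, hY0]
    norm_num
  have h2 : Tendsto q2 atImInfty (𝓝 0) := q2_tendsto.mono_right nhdsWithin_le_nhds
  have h3 := h1.tendsto.comp h2
  simp only [hL0, hX0, hY0, neg_zero] at h3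
  have h4 : (2⁻¹ * 16 * 1 / (16 * 1 * 1) : ℂ) = 2⁻¹ := by norm_num
  rw [h4] at h3
  refine h3.congr ?_
  intro z
  obtain ⟨e1, e2, e3, e4⟩ := hexp z
  rw [gq_eq, e1, e2, e3, e4]
  have hq : q2 z ≠ 0 := Complex.exp_ne_zero _
  show 2⁻¹ * L (q2 z) * φY (-q2 z) / (16 * φX (q2 z) * φY (q2 z)) = _
  have hx : φX (q2 z) ≠ 0 := by
    intro h
    apply fX_ne z
    rw [e2, h, mul_zero]
  have hy : φY (q2 z) ≠ 0 := by
    rw [← e3]
    exact fY_ne z
  field_simp

end Lam3

open Lam3 in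
theorem lam_deriv (z : ℍ) : deriv (lam ∘ ofComplex) (z : ℂ) ≠ 0 := by
  obtain ⟨c, hc⟩ := level_one_const gq gq_mdiff gq_S gq_T (gq_tendsto.isBigO_one ℝ)
  have hc2 : c = 2⁻¹ := by
    have h1 : gq = fun _ => c := funext hc
    have h2 := gq_tendsto
    rw [h1] at h2
    exact tendsto_nhds_unique tendsto_const_nhds h2
  intro h
  have h3 := hc z
  rw [gq_eq, Dlam_eq, h, hc2] at h3
  norm_num at h3

end Pool.Agent.UFC
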