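import Mathlib
import Pool.Agent.UFC.A.Lam2
import Pool.Agent.UFC.A.Lam3
import Pool.Agent.UFC.A.Ident
import Pool.Agent.UFC.A.LocInv
import Pool.Agent.UFC.A.BdD

/-!
# UFC A: local presentations at `t ≠ 0, 1`

Choose `z₀` with `lam z₀ = t` (`lam_surj`).  `f = lam ∘ ofComplex` is analytic at `z₀` with nonzero
derivative (`lam_deriv`); let `ψ` be a local inverse (`local_inverse`), `ψ(t) = z₀`.  Put
`a i w = F i (ofComplex (ψ (w + t)))`, analytic at `0`, and for `w` near `0`
`ev w (subT (X + C t) P) = ev (w + t) P = ev (lam (ofComplex (ψ (w + t)))) P = ∏ (X - C (a i w))`.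
The germs are different: if `a i = a j` near `0`, then `F i ∘ ofComplex = F j ∘ ofComplex` near `z₀`
(substitute `w = f(z) - t`; `ψ (f z) = z` near `z₀`) and `mdiff_ident` gives `F i = F j`.  Then `bd_of_germs`.
-/

set_option autoImplicit false

namespace Pool.Agent.UFC

open UpperHalfPlane CongruenceSubgroup Polynomial
open scoped MatrixGroups Manifold ModularForm

open Filter Topology in
theorem bd_generic (ι : Type) [Fintype ι] (F : ι → ℍ → ℂ) (hF : ∀ i, MDiff (F i))
    (hne : ∀ i j, i ≠ j → F i ≠ F j) (P : ℂ[X][X]) (hP : P.Monic)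
    (hev : ∀ z : ℍ, ev (lam z) P = ∏ i, (X - C (F i z))) (t : ℂ) (h0 : t ≠ 0) (h1 : t ≠ 1) :
    Bd (subT (X + C t) P) := by
  obtain ⟨z₀, hz₀⟩ := lam_surj t h0 h1
  have han : ∀ G : ℍ → ℂ, MDiff G → AnalyticAt ℂ (G ∘ ofComplex) (z₀ : ℂ) := by
    intro G hG
    have h := UpperHalfPlane.mdifferentiable_iff.1 hG
    exact h.analyticAt (isOpen_upperHalfPlaneSet.mem_nhds z₀.im_pos)
  have hf0 : (lam ∘ ofComplex) (z₀ : ℂ) = t := by
    rw [Function.comp_apply, ofComplex_apply, hz₀]
  obtain ⟨ψ, hψ, hψ0, hr, hl⟩ := local_inverse (lam ∘ ofComplex) (z₀ : ℂ) (han lam lam_mdiff)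
    (lam_deriv z₀)
  rw [hf0] at hψ hψ0 hr
  have hadd : AnalyticAt ℂ (fun w : ℂ => w + t) 0 := analyticAt_id.add analyticAt_const
  have hshift : Tendsto (fun w : ℂ => w + t) (𝓝 0) (𝓝 t) := by
    have h := hadd.continuousAt.tendsto
    rwa [zero_add] at h
  have hev' : ∀ w : ℂ, ev w (subT (X + C t) P) = ev (w + t) P := by
    intro w
    unfold ev subT
    rw [Polynomial.map_map]
    congr 1
    refine Polynomial.ringHom_ext (fun a => ?_) ?_
    · simp
    · simp
  refine bd_of_germs _ (hP.map _) ι (fun i w => F i (ofComplex (ψ (w + t)))) ?_ ?_ ?_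
  · intro i
    have h2 : AnalyticAt ℂ (fun w : ℂ => ψ (w + t)) 0 := by
      refine AnalyticAt.fun_comp (g := ψ) ?_ hadd
      rw [zero_add]
      exact hψ
    have h3 : AnalyticAt ℂ (F i ∘ ofComplex) ((fun w : ℂ => ψ (w + t)) 0) := by
      show AnalyticAt ℂ (F i ∘ ofComplex) (ψ (0 + t))
      rw [zero_add, hψ0]
      exact han (F i) (hF i)
    exact AnalyticAt.fun_comp (g := F i ∘ ofComplex) (f := fun w : ℂ => ψ (w + t)) h3 h2
  · intro i j hij hcon
    apply hne i j hij
    refine mdiff_ident (F i) (F j) (hF i) (hF j) z₀ ?_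
    have h2 : Tendsto (fun z : ℂ => (lam ∘ ofComplex) z - t) (𝓝 (z₀ : ℂ)) (𝓝 0) := by
      have h := (han lam lam_mdiff).continuousAt.tendsto
      rw [hf0] at h
      have h3 := h.sub_const t
      rwa [sub_self] at h3
    filter_upwards [h2.eventually hcon, hl] with z hz1 hz2
    simp only [sub_add_cancel, hz2] at hz1
    exact hz1
  · filter_upwards [hshift.eventually hr] with w hw
    rw [hev' w]
    rw [Function.comp_apply] at hw
    rw [← hev (ofComplex (ψ (w + t))), hw]

end Pool.Agent.UFC
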