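import Mathlib
import Pool.Agent.UFC.Defs

/-!
# UFC A: from a presentation which is separable at one point to a certificate near this point

Let `J ⊆ A[X]`, `A = ℂ[T]`, be the ideal generated by `Q` and `derivative Q`, `N = A[X] / J`.  As `Q` is
monic, `N` is a finitely generated `A`-module; `u * ev t Q + v * (ev t Q)' = 1` means
`J + (T - t) A[X] = A[X]` (lift `u, v` to constant polynomials in `T`; the kernel of
`ev t : A[X] → ℂ[X]` is generated by `C (X - C t)`), so `(T - t) N = N`, and by Nakayama
(`Submodule.exists_sub_one_mem_and_smul_eq_zero_of_fg_of_le_smul`) there is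
`r ∈ 1 + (T - t)` with `r N = 0`, i.e. `C r ∈ J` and `r(t) = 1`.
(Alternative: `r` = the resultant of `Q` and its derivative.)
-/

set_option autoImplicit false

namespace Pool.Agent.UFC

open Polynomial

theorem GnA.ev_map_C (t : ℂ) (u : ℂ[X]) : ev t (u.map C) = u := by
  unfold ev
  rw [Polynomial.map_map]
  have : (evalRingHom t).comp (C : ℂ →+* ℂ[X]) = RingHom.id ℂ := by
    ext x
    simp
  rw [this, Polynomial.map_id]

theorem GnA.dvd_of_ev (t : ℂ) (P : ℂ[X][X]) (h : ev t P = 0) : C (X - C t) ∣ P := by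
  rw [Polynomial.C_dvd_iff_dvd_coeff]
  intro i
  rw [Polynomial.dvd_iff_isRoot]
  have := congrArg (fun p => Polynomial.coeff p i) h
  simpa [ev, Polynomial.IsRoot] using this

theorem exists_r (Q : ℂ[X][X]) (hQ : Q.Monic) (t : ℂ) (u v : ℂ[X])
    (h : u * ev t Q + v * derivative (ev t Q) = 1) :
    ∃ (r : ℂ[X]) (u' v' : ℂ[X][X]), r.eval t ≠ 0 ∧ u' * Q + v' * derivative Q = C r := by
  set J : Ideal ℂ[X][X] := Ideal.span {Q, derivative Q} with hJ
  have hQJ : Q ∈ J := Ideal.subset_span (by simp)
  have hQ'J : derivative Q ∈ J := Ideal.subset_span (by simp)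
  have hle : Ideal.span {Q} ≤ J := by
    rw [Ideal.span_le]
    intro x hx
    rw [Set.mem_singleton_iff] at hx
    rw [hx]
    exact hQJ
  have : Module.Finite ℂ[X] (ℂ[X][X] ⧸ Ideal.span {Q}) := hQ.finite_quotient
  have hfin : Module.Finite ℂ[X] (ℂ[X][X] ⧸ J) := by
    refine Module.Finite.of_surjective
      ((Ideal.Quotient.factorₐ ℂ[X] hle).toLinearMap) ?_
    exact Ideal.Quotient.factor_surjective hle
  obtain ⟨W, hW⟩ : C (X - C t) ∣ (1 - (u.map C * Q + v.map C * derivative Q)) := by
    apply GnA.dvd_of_ev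
    have e1 : ev t (1 - (u.map C * Q + v.map C * derivative Q)) =
        1 - (ev t (u.map C) * ev t Q + ev t (v.map C) * derivative (ev t Q)) := by
      unfold ev
      simp only [Polynomial.map_sub, Polynomial.map_add, Polynomial.map_mul, Polynomial.map_one,
        Polynomial.derivative_map]
    rw [e1, GnA.ev_map_C, GnA.ev_map_C, h, sub_self]
  obtain ⟨r, hr1, hr2⟩ := Submodule.exists_sub_one_mem_and_smul_eq_zero_of_fg_of_le_smul
    (Ideal.span {X - C t}) (⊤ : Submodule ℂ[X] (ℂ[X][X] ⧸ J)) hfin.fg_top (by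
      intro x _
      obtain ⟨p, rfl⟩ := Ideal.Quotient.mk_surjective x
      have h1 : (Ideal.Quotient.mk J p) = (X - C t : ℂ[X]) • (Ideal.Quotient.mk J (p * W)) := by
        have h0 : (X - C t : ℂ[X]) • (Ideal.Quotient.mk J (p * W)) =
            Ideal.Quotient.mk J ((X - C t : ℂ[X]) • (p * W)) := rfl
        rw [h0, Polynomial.smul_eq_C_mul, Ideal.Quotient.eq]
        have h2 : p - C (X - C t) * (p * W) =
            p * (u.map C) * Q + p * (v.map C) * derivative Q := by
          have : C (X - C t) * (p * W) = p * (1 - (u.map C * Q + v.map C * derivative Q)) := by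
            rw [hW]; ring
          rw [this]; ring
        rw [h2]
        exact J.add_mem (J.mul_mem_left _ hQJ) (J.mul_mem_left _ hQ'J)
      rw [h1]
      exact Submodule.smul_mem_smul (Ideal.subset_span (Set.mem_singleton _)) Submodule.mem_top)
  have h3 := hr2 (Ideal.Quotient.mk J 1) Submodule.mem_top
  have h4 : r • (Ideal.Quotient.mk J 1) = Ideal.Quotient.mk J (r • (1 : ℂ[X][X])) := rfl
  rw [h4, Polynomial.smul_eq_C_mul, mul_one, Ideal.Quotient.eq_zero_iff_mem, hJ,
    Ideal.mem_span_pair] at h3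
  obtain ⟨a, b, hab⟩ := h3
  refine ⟨r, a, b, ?_, hab⟩
  rw [Ideal.mem_span_singleton, Polynomial.dvd_iff_isRoot, Polynomial.IsRoot,
    Polynomial.eval_sub, Polynomial.eval_one] at hr1
  rw [sub_eq_zero.mp hr1]
  exact one_ne_zero

/-- Shift a presentation. -/
theorem Loc.shift (P Q h g : ℂ[X][X]) (d e : ℂ[X]) (t : ℂ)
    (hL : Loc (subT (X + C t) P) Q h g d e) :
    Loc P (subT (X - C t) Q) (subT (X - C t) h) (subT (X - C t) g)
      (d.comp (X - C t)) (e.comp (X - C t)) := by
  have hPP : subT (X - C t) (subT (X + C t) P) = P := by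
    unfold subT
    rw [Polynomial.map_map]
    have : (compRingHom (X - C t)).comp (compRingHom (X + C t)) = RingHom.id ℂ[X] := by
      ext x <;> simp
    rw [this, Polynomial.map_id]
  have hd : ∀ c : ℂ[X], IsUnit c.leadingCoeff → IsUnit (c.comp (X - C t)).leadingCoeff := by
    intro c hc
    rw [Polynomial.leadingCoeff_comp (by rw [natDegree_X_sub_C]; exact one_ne_zero),
      leadingCoeff_X_sub_C, one_pow, mul_one]
    exact hc
  refine ⟨hL.monic.map _, hd d hL.d_lead, hd e hL.e_lead, ?_, ?_⟩
  · have h1 := Polynomial.map_dvd (compRingHom (X - C t)) hL.root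
    rw [Polynomial.map_comp, Polynomial.map_scaleRoots] at h1
    · rw [← hPP]
      exact h1
    · rw [hL.monic.leadingCoeff, map_one]
      exact one_ne_zero
  · have h1 := Polynomial.map_dvd (compRingHom (X - C t)) hL.back
    rw [Polynomial.map_sub, Polynomial.map_comp, Polynomial.map_mul, Polynomial.map_C,
      Polynomial.map_X] at h1
    rw [← hPP]
    exact h1

end Pool.Agent.UFC
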