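import Mathlib
import Pool.Agent.UFC.Defs
import Pool.Agent.UFC.A.GnA

/-!
# UFC A: `Gn` from local presentations everywhere

Let `I ⊆ ℂ[X]` be the ideal generated by all `r` for which there are `Q, h, g, d, e, u, v` with
`Loc P Q h g d e` and `u * Q + v * derivative Q = C r`.  For `t ≠ 0, 1` it contains some `r` with
`r(t) ≠ 0` (`Loc.shift`, `exists_r` applied to `subT (X - C t) Q`, whose `ev t` is `ev 0 Q`).
`ℂ[X]` is a principal ideal domain: `I = (s)`, and `s` has no root except possibly `0` and `1`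
(`s = 0` is impossible), so `s` divides some `X^a (1 - X)^b` (it splits) and this lies in `I`.
An element of the span of a set is a finite linear combination (`Submodule.mem_span_iff_exists...`,
`Submodule.mem_span_set'`: `∃ n (f : Fin n → R) (g : Fin n → s), ∑ f i • g i = x`).
-/

set_option autoImplicit false

namespace Pool.Agent.UFC

open Polynomial

private theorem ev_subT_shift (Q : ℂ[X][X]) (t : ℂ) : ev t (subT (X - C t) Q) = ev 0 Q := by
  unfold ev subT
  rw [Polynomial.map_map]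
  congr 1
  ext x
  · simp
  · simp

private theorem dvd_of_roots (m : Multiset ℂ) (h : ∀ x ∈ m, x = 0 ∨ x = 1) :
    ∃ a b : ℕ, (m.map (fun x => (X : ℂ[X]) - C x)).prod ∣ X ^ a * (1 - X) ^ b := by
  induction m using Multiset.induction_on with
  | empty => exact ⟨0, 0, by simp⟩
  | cons x m ih =>
    obtain ⟨a, b, hab⟩ := ih (fun y hy => h y (Multiset.mem_cons_of_mem hy))
    rw [Multiset.map_cons, Multiset.prod_cons]
    rcases h x (Multiset.mem_cons_self _ _) with rfl | rfl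
    · refine ⟨a + 1, b, ?_⟩
      have : (X : ℂ[X]) ^ (a + 1) * (1 - X) ^ b = (X - C 0) * (X ^ a * (1 - X) ^ b) := by
        rw [C_0]; ring
      rw [this]
      exact mul_dvd_mul_left _ hab
    · refine ⟨a, b + 1, ?_⟩
      have : (X : ℂ[X]) ^ a * (1 - X) ^ (b + 1) = (X - C 1) * (-(X ^ a * (1 - X) ^ b)) := by
        rw [C_1]; ring
      rw [this]
      exact mul_dvd_mul_left _ ((dvd_neg).2 hab)

theorem gn_of_bd (P : ℂ[X][X]) (h : ∀ t : ℂ, t ≠ 0 → t ≠ 1 → Bd (subT (X + C t) P)) : Gn P := by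
  classical
  let S : Set ℂ[X] := {r | ∃ (Q h g u v : ℂ[X][X]) (d e : ℂ[X]), Loc P Q h g d e ∧
    u * Q + v * derivative Q = C r}
  have h1 : ∀ t : ℂ, t ≠ 0 → t ≠ 1 → ∃ r ∈ S, r.eval t ≠ 0 := by
    intro t h0 h1
    obtain ⟨Q, h', g, d, e, u, v, hL, huv⟩ := h t h0 h1
    have hL' := Loc.shift P Q h' g d e t hL
    rw [← ev_subT_shift Q t] at huv
    obtain ⟨r, u', v', hr, hr'⟩ := exists_r _ hL'.monic t u v huv
    exact ⟨r, ⟨_, _, _, u', v', _, _, hL', hr'⟩, hr⟩
  obtain ⟨s, hs⟩ := (IsPrincipalIdealRing.principal (Ideal.span S)).principal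
  have hs' : Ideal.span S = Ideal.span {s} := hs
  have hroot : ∀ t : ℂ, t ≠ 0 → t ≠ 1 → s.eval t ≠ 0 := by
    intro t h0 h2 h3
    obtain ⟨r, hr, hrt⟩ := h1 t h0 h2
    have : r ∈ Ideal.span {s} := by
      rw [← hs']; exact Ideal.subset_span hr
    obtain ⟨c, rfl⟩ := Ideal.mem_span_singleton.1 this
    apply hrt
    rw [eval_mul, h3, zero_mul]
  have hs0 : s ≠ 0 := by
    rintro rfl
    exact hroot 2 (by norm_num) (by norm_num) (by simp)
  have hsplit := IsAlgClosed.splits s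
  have hr01 : ∀ x ∈ s.roots, x = 0 ∨ x = 1 := by
    intro x hx
    by_contra hcon
    push Not at hcon
    exact hroot x hcon.1 hcon.2 ((mem_roots hs0).1 hx)
  obtain ⟨a, b, hab⟩ := dvd_of_roots s.roots hr01
  have hsd : s ∣ X ^ a * (1 - X) ^ b := by
    have heq : s = C s.leadingCoeff * (s.roots.map (fun x => X - C x)).prod :=
      hsplit.eq_prod_roots
    rw [heq]
    have hu : IsUnit (C s.leadingCoeff : ℂ[X]) :=
      isUnit_C.2 (isUnit_iff_ne_zero.2 (leadingCoeff_ne_zero.2 hs0))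
    exact (hu.mul_left_dvd).2 hab
  have hmem : (X : ℂ[X]) ^ a * (1 - X) ^ b ∈ Ideal.span S := by
    rw [hs']
    exact Ideal.mem_span_singleton.2 hsd
  obtain ⟨n, f, g, hfg⟩ := Submodule.mem_span_set'.1 hmem
  have hg : ∀ i, ∃ (Q h g' u v : ℂ[X][X]) (d e : ℂ[X]), Loc P Q h g' d e ∧
    u * Q + v * derivative Q = C (g i : ℂ[X]) := fun i => (g i).2
  choose Q h' g' u v d e hL hc using hg
  exact ⟨n, Q, h', g', u, v, d, e, fun i => (g i : ℂ[X]), f, a, b, hL, hc, by
    simpa [smul_eq_mul] using hfg⟩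

end Pool.Agent.UFC
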