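import Mathlib
import Pool.Agent.UFC.Defs

/-!
# UFC A: the polynomial `inf2 D P`

`inf2_monic`: the coefficient of `X^D` is `(P.coeff D).reflect 0 = 1`, the sum has no higher terms.
`ev_inf2`: for `w ≠ 0`, `(c.reflect N).eval w = w^N c(1/w)` if `natDegree c ≤ N`
(`Polynomial.eval₂_reflect_mul_pow`, `Polynomial.reflect`), so
`ev w (inf2 D P) = ∑_j w^(2(D - j)) c_j(1/w) X^j = (ev (1/w) P).scaleRoots (w^2)`, and
`(∏ (X - C (a i))).scaleRoots s = ∏ (X - C (a i * s))`.
-/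

set_option autoImplicit false

namespace Pool.Agent.UFC

open Polynomial

theorem coeff_inf2 (D : ℕ) (P : ℂ[X][X]) (k : ℕ) :
    (inf2 D P).coeff k = if k ≤ D then (P.coeff k).reflect (2 * (D - k)) else 0 := by
  unfold inf2
  rw [finset_sum_coeff]
  simp only [coeff_monomial]
  rw [Finset.sum_ite_eq']
  simp [Nat.lt_succ_iff]

theorem inf2_monic (D : ℕ) (P : ℂ[X][X]) (hP : P.Monic) (hD : P.natDegree = D) :
    (inf2 D P).Monic := by
  apply monic_of_natDegree_le_of_coeff_eq_one D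
  · rw [natDegree_le_iff_coeff_eq_zero]
    intro k hk
    rw [coeff_inf2, if_neg (by omega)]
  · rw [coeff_inf2, if_pos le_rfl]
    have : P.coeff D = 1 := by
      rw [← hD]; exact hP
    rw [this, ← C_1, reflect_C]
    simp

theorem eval_reflect (c : ℂ[X]) (N : ℕ) (hc : c.natDegree ≤ N) (w : ℂ) (hw : w ≠ 0) :
    (c.reflect N).eval w = w ^ N * c.eval w⁻¹ := by
  have hw' : w⁻¹ ≠ 0 := inv_ne_zero hw
  letI : Invertible (w⁻¹) := invertibleOfNonzero hw'
  have h1 := eval₂_reflect_mul_pow (RingHom.id ℂ) w⁻¹ N c hc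
  rw [invOf_eq_inv, inv_inv] at h1
  rw [← eval₂_id (p := c), ← h1, ← eval₂_id (p := c.reflect N)]
  have : w ^ N * (w⁻¹) ^ N = 1 := by
    rw [← mul_pow, mul_inv_cancel₀ hw, one_pow]
  calc _ = eval₂ (RingHom.id ℂ) w (c.reflect N) * (w ^ N * (w⁻¹) ^ N) := by rw [this, mul_one]
    _ = _ := by ring

theorem prod_scaleRoots {ι : Type} (t : Finset ι) (a : ι → ℂ) (s : ℂ) :
    (∏ i ∈ t, (X - C (a i))).scaleRoots s = ∏ i ∈ t, (X - C (a i * s)) := by
  classical
  induction t using Finset.induction_on with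
  | empty => simp
  | insert i t hi ih =>
    rw [Finset.prod_insert hi, Finset.prod_insert hi, mul_scaleRoots_of_noZeroDivisors, ih,
      X_sub_C_scaleRoots]

theorem ev_inf2 (D : ℕ) (P : ℂ[X][X]) (hP : P.Monic) (hD : P.natDegree = D)
    (hwt : ∀ j, (P.coeff j).natDegree ≤ 2 * (D - j)) (w : ℂ) (hw : w ≠ 0)
    (ι : Type) [Fintype ι] (a : ι → ℂ) (ha : ev w⁻¹ P = ∏ i, (X - C (a i))) :
    ev w (inf2 D P) = ∏ i, (X - C (a i * w ^ 2)) := by
  rw [← prod_scaleRoots, ← ha]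
  have hdeg : (ev w⁻¹ P).natDegree = D := by
    unfold ev
    rw [hP.natDegree_map, hD]
  ext k
  rw [coeff_scaleRoots, hdeg]
  unfold ev
  rw [coeff_map, coeff_map, coeff_inf2]
  split_ifs with hk
  · rw [coe_evalRingHom, coe_evalRingHom, eval_reflect _ _ (hwt k) _ hw, ← pow_mul]
    ring
  · have : P.coeff k = 0 := coeff_eq_zero_of_natDegree_lt (by omega)
    rw [this]
    simp

end Pool.Agent.UFC
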