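import Mathlib
import Pool.Agent.UFC.A.Lam1
import Pool.Agent.UFC.A.Ident

/-!
# UFC A: irreducibility from transitivity

Let `P = A B` in `ℂ[T][U]`; `P` is monic, so we may take `A, B` monic (leading coefficients are units;
`Polynomial.Monic.irreducible_iff_natDegree'`).  For every `i` and every `z`,
`0 = P(F i z, lam z) = A(F i z, lam z) B(F i z, lam z)`, a product of two holomorphic functions
(`MDiff`: polynomials in `F i` and `lam`), so one of them is identically `0` (`mdiff_mul_zero`).
If `A(F i z, lam z) = 0` for all `z` for one `i`, then replacing `z` by `γ z`, `γ ∈ Γ(2)` with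
`F i (γ z) = F j z` (and `lam (γ z) = lam z`) it holds for all `j`; at a point `z` where the `F j z` are
distinct (`mdiff_sep`) the monic polynomial `ev (lam z) A` has `card ι` distinct roots, so
`natDegree A ≥ card ι = natDegree P` and `B = 1`.  Otherwise the same with `B`.
-/

set_option autoImplicit false

namespace Pool.Agent.UFC

open UpperHalfPlane CongruenceSubgroup Polynomial
open scoped MatrixGroups Manifold ModularForm

theorem irr_mdiff_poly {f : ℍ → ℂ} (hf : MDiff f) (p : ℂ[X]) :
    MDiff (fun z => p.eval (f z)) := by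
  have h : Differentiable ℂ (fun x : ℂ => p.eval x) := p.differentiable
  exact h.mdifferentiable.comp hf

theorem irr_mdiff_ev {f : ℍ → ℂ} (hf : MDiff f) (A : ℂ[X][X]) :
    MDiff (fun z => (ev (lam z) A).eval (f z)) := by
  induction A using Polynomial.induction_on' with
  | add p q hp hq =>
    have h : (fun z => (ev (lam z) (p + q)).eval (f z)) =
        fun z => (ev (lam z) p).eval (f z) + (ev (lam z) q).eval (f z) := by
      funext z; simp [ev]
    rw [h]
    exact hp.add hq
  | monomial n a =>
    have h : (fun z => (ev (lam z) (monomial n a)).eval (f z)) =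
        fun z => a.eval (lam z) * (X ^ n : ℂ[X]).eval (f z) := by
      funext z; simp [ev]
    rw [h]
    exact (irr_mdiff_poly lam_mdiff a).mul (irr_mdiff_poly hf (X ^ n))

theorem irr_deg {ι : Type} [Fintype ι] (F : ι → ℍ → ℂ)
    (hF : ∀ i, MDiff (F i)) (hne : ∀ i j, i ≠ j → F i ≠ F j)
    (htrans : ∀ i j, ∃ γ ∈ Gamma 2, ∀ z : ℍ, F i (γ • z) = F j z)
    (A : ℂ[X][X]) (hA : A.Monic) (i : ι) (h : ∀ z, (ev (lam z) A).eval (F i z) = 0) :
    Fintype.card ι ≤ A.natDegree := by
  classical
  obtain ⟨z, hz⟩ := mdiff_sep ι F hF hne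
  have hall : ∀ j, (ev (lam z) A).eval (F j z) = 0 := by
    intro j
    obtain ⟨γ, hγ, hγF⟩ := htrans i j
    have := h (γ • z)
    rwa [hγF z, lam_gamma γ hγ z] at this
  have hmon : (ev (lam z) A).Monic := hA.map _
  have hd : (ev (lam z) A).natDegree = A.natDegree := hA.natDegree_map _
  rw [← hd]
  have hcard : Fintype.card ι = (Finset.univ.image (fun j => F j z)).card := by
    rw [Finset.card_image_of_injective _ hz, Finset.card_univ]
  rw [hcard]
  apply Polynomial.card_le_degree_of_subset_roots
  intro x hx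
  simp only [Finset.mem_val, Finset.mem_image, Finset.mem_univ, true_and] at hx
  obtain ⟨j, rfl⟩ := hx
  rw [Polynomial.mem_roots hmon.ne_zero]
  exact hall j

theorem irreducible_of_trans (ι : Type) [Fintype ι] [Nonempty ι] (F : ι → ℍ → ℂ)
    (hF : ∀ i, MDiff (F i)) (hne : ∀ i j, i ≠ j → F i ≠ F j)
    (htrans : ∀ i j, ∃ γ ∈ Gamma 2, ∀ z : ℍ, F i (γ • z) = F j z)
    (P : ℂ[X][X]) (hP : P.Monic) (hdeg : P.natDegree = Fintype.card ι)
    (hev : ∀ z : ℍ, ev (lam z) P = ∏ i, (X - C (F i z))) : Irreducible P := by
  classical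
  have hpos : 0 < Fintype.card ι := Fintype.card_pos
  rw [hP.irreducible_iff_natDegree]
  refine ⟨fun h => ?_, fun f g hf hg hfg => ?_⟩
  · rw [h, natDegree_one] at hdeg; omega
  · obtain ⟨i⟩ := (inferInstance : Nonempty ι)
    have hsum : f.natDegree + g.natDegree = Fintype.card ι := by
      rw [← hf.natDegree_mul hg, hfg, hdeg]
    have hprod : ∀ z, (ev (lam z) f).eval (F i z) * (ev (lam z) g).eval (F i z) = 0 := by
      intro z
      have h1 : ev (lam z) f * ev (lam z) g = ev (lam z) P := by
        rw [← hfg]; simp [ev]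
      rw [← Polynomial.eval_mul, h1, hev z, Polynomial.eval_prod]
      exact Finset.prod_eq_zero (Finset.mem_univ i) (by simp)
    rcases mdiff_mul_zero _ _ (irr_mdiff_ev (hF i) f) (irr_mdiff_ev (hF i) g) hprod with h | h
    · have := irr_deg F hF hne htrans f hf i (fun z => congrFun h z)
      right; omega
    · have := irr_deg F hF hne htrans g hg i (fun z => congrFun h z)
      left; omega

end Pool.Agent.UFC
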