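import Mathlib
import Pool.Agent.UFC.A.Eis2
import Pool.Agent.UFC.A.Eis3

/-!
# UFC A: the functions `Ey`

* `Ey_slash`: by `eis_slash` it suffices that `v ↦ vecMul v δ` maps `Om ρ x y` onto
  `Om ρ x ((ρ δ)⁻¹ • y)`: the bottom row of `γ` times `δ` is the bottom row of `γ δ`, and
  `ρ(γ δ)⁻¹ = ρ(δ)⁻¹ ρ(γ)⁻¹`.
* `Ey_lim_zero`, `Ey_lim_two`: if the bottom row of `γ ∈ Γ(2)` is `(0, d)` then `d = ± 1` and
  `γ = ± T^k` with `k` even, so `γ = gA^(k/2)` or `gN * gA^(k/2)` and `ρ(γ)⁻¹` lies in the subgroup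
  generated by `x`, so `y` is the trivial coset.  Hence the limit (`eis_lim`) is `0` for `y ≠ 1`; for
  `y = 1` the vectors `(0, 1)` and `(0, -1)` lie in `Om` (`γ = 1`, `γ = gN`) and the limit is `2`.
* `Ey_ne`: for `y ≠ y'` write `y` as the class of `g` and choose `δ ∈ Γ(2)` with `ρ δ = g` (`ρ` is
  surjective).  If `Ey y = Ey y'` then slashing with `δ` gives `Ey 1 = Ey (g⁻¹ • y')` with
  `g⁻¹ • y' ≠ 1`; the limits are `2` and `0`.
-/

set_option autoImplicit false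

namespace Pool.Agent.UFC

open UpperHalfPlane CongruenceSubgroup Filter Topology
open scoped MatrixGroups Manifold ModularForm

variable {G : Type} [Group G]

theorem coe_gA_zpow (k : ℤ) : (((gA ^ k : Gamma 2) : SL(2, ℤ)) : Matrix (Fin 2) (Fin 2) ℤ) =
    !![1, 2 * k; 0, 1] := by
  have h : ((gA ^ k : Gamma 2) : SL(2, ℤ)) = ModularGroup.T ^ (2 * k) := by
    rw [Subgroup.coe_zpow, zpow_mul]
    rfl
  rw [h, ModularGroup.coe_T_zpow]

/-- an element of `Γ(2)` with lower left entry `0` -/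
theorem rho_inv_mem (ρ : Gamma 2 →* G) (x : G) (hA : ρ gA = x) (hN : ρ gN = 1) (γ : Gamma 2)
    (h0 : (γ : SL(2, ℤ)) 1 0 = 0) :
    (((ρ γ)⁻¹ : G) : G ⧸ Subgroup.zpowers x) = ((1 : G) : G ⧸ Subgroup.zpowers x) ∧
      ((γ : SL(2, ℤ)) 1 1 = 1 ∨ (γ : SL(2, ℤ)) 1 1 = -1) := by
  have hdet := (γ : SL(2, ℤ)).det_coe
  rw [Matrix.det_fin_two, h0, mul_zero, sub_zero] at hdet
  have hb := (Gamma_mem.1 γ.2).2.1
  obtain ⟨k, hk⟩ := (ZMod.intCast_zmod_eq_zero_iff_dvd _ 2).1 hb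
  rw [Nat.cast_ofNat] at hk
  rcases Int.eq_one_or_neg_one_of_mul_eq_one' hdet with ⟨ha, hd⟩ | ⟨ha, hd⟩
  · have hγ : γ = gA ^ k := by
      apply Subtype.ext
      apply Subtype.ext
      rw [coe_gA_zpow]
      ext i j
      fin_cases i <;> fin_cases j
      · exact ha
      · exact hk
      · exact h0
      · exact hd
    refine ⟨?_, Or.inl hd⟩
    rw [hγ, map_zpow, hA, QuotientGroup.eq, mul_one, inv_inv]
    exact Subgroup.zpow_mem_zpowers x k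
  · have hγ : γ = gN * gA ^ (-k) := by
      apply Subtype.ext
      apply Subtype.ext
      have h1 : (((gN * gA ^ (-k) : Gamma 2) : SL(2, ℤ)) : Matrix (Fin 2) (Fin 2) ℤ) =
          !![-1, 2 * k; 0, -1] := by
        have h2 : (((gN * gA ^ (-k) : Gamma 2) : SL(2, ℤ)) : Matrix (Fin 2) (Fin 2) ℤ) =
            -(((gA ^ (-k) : Gamma 2) : SL(2, ℤ)) : Matrix (Fin 2) (Fin 2) ℤ) := by
          rw [Subgroup.coe_mul, Matrix.SpecialLinearGroup.coe_mul]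
          have h3 : ((gN : SL(2, ℤ)) : Matrix (Fin 2) (Fin 2) ℤ) = -1 := by
            change ((-1 : SL(2, ℤ)) : Matrix (Fin 2) (Fin 2) ℤ) = -1
            simp
          rw [h3, neg_one_mul]
        rw [h2, coe_gA_zpow]
        ext i j
        fin_cases i <;> fin_cases j <;> simp
      rw [h1]
      ext i j
      fin_cases i <;> fin_cases j
      · exact ha
      · exact hk
      · exact h0
      · exact hd
    refine ⟨?_, Or.inr hd⟩
    rw [hγ, map_mul, map_zpow, hA, hN, one_mul, QuotientGroup.eq, mul_one, inv_inv]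
    exact Subgroup.zpow_mem_zpowers x (-k)

theorem Ey_slash (ρ : Gamma 2 →* G) (x : G) (y : G ⧸ Subgroup.zpowers x) (δ : Gamma 2) :
    Ey ρ x y ∣[(4 : ℤ)] (δ : SL(2, ℤ)) = Ey ρ x ((ρ δ)⁻¹ • y) := by
  unfold Ey
  rw [eis_slash]
  congr 1
  have hrow : ∀ γ : Gamma 2, Matrix.vecMul (fun j => (γ : SL(2, ℤ)) 1 j)
      ((δ : SL(2, ℤ)) : Matrix (Fin 2) (Fin 2) ℤ) = fun j => ((γ * δ : Gamma 2) : SL(2, ℤ)) 1 j := by
    intro γ
    rw [Subgroup.coe_mul]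
    funext j
    rw [Matrix.SpecialLinearGroup.coe_mul]
    rfl
  ext v
  constructor
  · rintro ⟨w, ⟨γ, hγ, rfl⟩, rfl⟩
    refine ⟨γ * δ, ?_, hrow γ⟩
    rw [map_mul, mul_inv_rev, ← hγ]
    rfl
  · rintro ⟨γ, hγ, rfl⟩
    refine ⟨fun j => ((γ * δ⁻¹ : Gamma 2) : SL(2, ℤ)) 1 j, ⟨γ * δ⁻¹, ?_, rfl⟩, ?_⟩
    · rw [map_mul, map_inv, mul_inv_rev, inv_inv]
      have h1 : (((ρ δ) * (ρ γ)⁻¹ : G) : G ⧸ Subgroup.zpowers x) =
          ρ δ • (((ρ γ)⁻¹ : G) : G ⧸ Subgroup.zpowers x) := rfl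
      rw [h1, hγ, smul_inv_smul]
    · have h2 := hrow (γ * δ⁻¹)
      rw [inv_mul_cancel_right] at h2
      exact h2

theorem Ey_lim_zero (ρ : Gamma 2 →* G) (x : G) (hA : ρ gA = x) (hN : ρ gN = 1)
    (y : G ⧸ Subgroup.zpowers x) (hy : y ≠ ((1 : G) : G ⧸ Subgroup.zpowers x)) :
    Tendsto (Ey ρ x y) atImInfty (𝓝 0) := by
  have h := eis_lim (Om ρ x y)
  have h1 : (∑' v : Om ρ x y, if v.1 0 = 0 then (v.1 1 : ℂ) ^ (-4 : ℤ) else 0) = 0 := by
    refine (tsum_congr fun v => ?_).trans tsum_zero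
    rw [if_neg]
    intro h0
    obtain ⟨γ, hγ, hv⟩ := v.2
    apply hy
    rw [hv] at h0
    rw [← hγ]
    exact (rho_inv_mem ρ x hA hN γ h0).1
  rw [h1] at h
  exact h

theorem Ey_lim_two (ρ : Gamma 2 →* G) (x : G) (hA : ρ gA = x) (hN : ρ gN = 1) :
    Tendsto (Ey ρ x ((1 : G) : G ⧸ Subgroup.zpowers x)) atImInfty (𝓝 2) := by
  have h := eis_lim (Om ρ x ((1 : G) : G ⧸ Subgroup.zpowers x))
  have m1 : (![0, 1] : Fin 2 → ℤ) ∈ Om ρ x ((1 : G) : G ⧸ Subgroup.zpowers x) := by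
    refine ⟨1, by rw [map_one, inv_one], ?_⟩
    funext j
    fin_cases j <;> simp
  have m2 : (![0, -1] : Fin 2 → ℤ) ∈ Om ρ x ((1 : G) : G ⧸ Subgroup.zpowers x) := by
    refine ⟨gN, by rw [hN, inv_one], ?_⟩
    have h3 : (gN : SL(2, ℤ)) = -1 := rfl
    rw [h3]
    funext j
    fin_cases j <;> simp
  have hne : (⟨![0, 1], m1⟩ : Om ρ x ((1 : G) : G ⧸ Subgroup.zpowers x)) ≠ ⟨![0, -1], m2⟩ := by
    intro h4
    have h5 := congrFun (congrArg Subtype.val h4) 1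
    simp at h5
  have h1 : (∑' v : Om ρ x ((1 : G) : G ⧸ Subgroup.zpowers x),
      if v.1 0 = 0 then (v.1 1 : ℂ) ^ (-4 : ℤ) else 0) = 2 := by
    classical
    rw [tsum_eq_sum (s := {⟨![0, 1], m1⟩, ⟨![0, -1], m2⟩})]
    · rw [Finset.sum_pair hne]
      norm_num
    · intro v hv
      rw [if_neg]
      intro h0
      obtain ⟨γ, hγ, hvγ⟩ := v.2
      apply hv
      rw [Finset.mem_insert, Finset.mem_singleton]
      have h6 : v.1 = ![v.1 0, v.1 1] := by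
        funext j
        fin_cases j <;> rfl
      have h7 : (γ : SL(2, ℤ)) 1 0 = 0 := by
        rw [hvγ] at h0
        exact h0
      have h8 : v.1 1 = (γ : SL(2, ℤ)) 1 1 := by rw [hvγ]
      rcases (rho_inv_mem ρ x hA hN γ h7).2 with h9 | h9
      · left
        apply Subtype.ext
        rw [h6, h0, h8, h9]
      · right
        apply Subtype.ext
        rw [h6, h0, h8, h9]
  rw [h1] at h
  exact h

theorem Ey_ne (ρ : Gamma 2 →* G) (hρ : Function.Surjective ρ) (x : G) (hA : ρ gA = x)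
    (hN : ρ gN = 1) (y y' : G ⧸ Subgroup.zpowers x) (h : y ≠ y') : Ey ρ x y ≠ Ey ρ x y' := by
  obtain ⟨g, rfl⟩ := QuotientGroup.mk_surjective y
  obtain ⟨δ, hδ⟩ := hρ g
  intro he
  have h1 := Ey_slash ρ x (g : G ⧸ Subgroup.zpowers x) δ
  have h2 := Ey_slash ρ x y' δ
  rw [hδ] at h1 h2
  have h3 : g⁻¹ • (g : G ⧸ Subgroup.zpowers x) = ((1 : G) : G ⧸ Subgroup.zpowers x) := by
    have h4 : g⁻¹ • (g : G ⧸ Subgroup.zpowers x) = ((g⁻¹ * g : G) : G ⧸ Subgroup.zpowers x) := rfl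
    rw [h4, inv_mul_cancel]
  have h5 : g⁻¹ • y' ≠ ((1 : G) : G ⧸ Subgroup.zpowers x) := by
    intro h6
    apply h
    rw [← h3] at h6
    exact (MulAction.injective g⁻¹ h6).symm
  rw [h3] at h1
  rw [← he, h1] at h2
  have h7 := Ey_lim_zero ρ x hA hN _ h5
  rw [← h2] at h7
  exact two_ne_zero (tendsto_nhds_unique (Ey_lim_two ρ x hA hN) h7)

end Pool.Agent.UFC
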