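import Mathlib
import Pool.Agent.UFC.A.MFa
import Pool.Agent.UFC.A.Th4
import Pool.Agent.UFC.A.Om

/-!
# UFC A: the functions `Ey / fZ^2` at the three cusps

`Ey y ∣[4] S` and `Ey y ∣[4] (T S)` are again Eisenstein sums (`eis_slash`), so holomorphic and bounded
at `i ∞` (`eis_mdiff`, `eis_bdd`).
Periods: `Ey y ∣ T^(2 p) = Ey (ρ(gA^p)⁻¹ • y) = Ey y` because `ρ(gA^p) = x^p = 1`;
`(Ey y ∣ S) ∣ T^(2 q) = (Ey y ∣ gB^q) ∣ S` since `S T^(2q) = gB^q S`, and `ρ(gB)^q = 1`;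
`(Ey y ∣ T S) ∣ T^(2 r) = (Ey y ∣ T gB^r T⁻¹) ∣ T S`, and `T gB T⁻¹ = -(gA gB)⁻¹`
(`gB = [[1, 0], [-2, 1]]`, `T gB T⁻¹ = [[-1, 2], [-2, 3]]`, `gA gB = [[-3, 2], [-2, 1]]`) has image
`(x y)⁻¹` under `ρ`, whose `r`-th power is `1`.
The denominators `fZ`, `fZ ∣ S = -fZ`, `fX ∣ T S = fY` have period `2`.
In the statements `f ∣[4] γ` is divided by the square of the corresponding weight `2` form.
-/

set_option autoImplicit false

namespace Pool.Agent.UFC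

open UpperHalfPlane CongruenceSubgroup
open scoped MatrixGroups Manifold ModularForm

variable {G : Type} [Group G]

namespace PerAux

/-- slashing with a power of `T` is a translation -/
theorem slash_T (k : ℤ) (f : ℍ → ℂ) (n : ℕ) (z : ℍ) :
    (f ∣[k] (ModularGroup.T ^ n)) z = f ((n : ℝ) +ᵥ z) := by
  have h1 : (ModularGroup.T ^ n : SL(2, ℤ)) • z = (n : ℝ) +ᵥ z := by
    have := modular_T_zpow_smul z (n : ℤ)
    rwa [zpow_natCast, Int.cast_natCast] at this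
  have h2 : denom ((ModularGroup.T ^ n : SL(2, ℤ)) : GL (Fin 2) ℝ) z = 1 := by
    have h3 := ModularGroup.coe_T_zpow (n : ℤ)
    rw [zpow_natCast] at h3
    rw [ModularGroup.denom_apply, h3]
    simp
  rw [ModularForm.SL_slash_apply, h1, h2, one_zpow, mul_one]

theorem gA_pow (n : ℕ) : ((gA ^ n : Gamma 2) : SL(2, ℤ)) = ModularGroup.T ^ (2 * n) := by
  rw [Subgroup.coe_pow, pow_mul]
  rfl

theorem gB_pow (n : ℕ) : ((gB ^ n : Gamma 2) : SL(2, ℤ)) * ModularGroup.S =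
    ModularGroup.S * ModularGroup.T ^ (2 * n) := by
  have h1 : ((gB ^ n : Gamma 2) : SL(2, ℤ)) =
      ModularGroup.S * ModularGroup.T ^ (2 * n) * ModularGroup.S⁻¹ := by
    rw [Subgroup.coe_pow, pow_mul]
    exact conj_pow
  rw [h1, inv_mul_cancel_right]

/-- `T gB T⁻¹` -/
def gC : Gamma 2 := ⟨ModularGroup.T * gB * ModularGroup.T⁻¹,
  (Gamma_normal 2).conj_mem _ gB.2 _⟩

theorem gC_eq : gC = gN * (gA * gB)⁻¹ := by
  apply Subtype.ext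
  change ModularGroup.T * (ModularGroup.S * ModularGroup.T ^ 2 * ModularGroup.S⁻¹) *
    ModularGroup.T⁻¹ = -1 * (ModularGroup.T ^ 2 *
      (ModularGroup.S * ModularGroup.T ^ 2 * ModularGroup.S⁻¹))⁻¹
  decide

theorem gC_pow (n : ℕ) : ((gC ^ n : Gamma 2) : SL(2, ℤ)) * (ModularGroup.T * ModularGroup.S) =
    ModularGroup.T * ModularGroup.S * ModularGroup.T ^ (2 * n) := by
  have h1 : ((gC ^ n : Gamma 2) : SL(2, ℤ)) =
      ModularGroup.T * ((gB ^ n : Gamma 2) : SL(2, ℤ)) * ModularGroup.T⁻¹ := by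
    rw [Subgroup.coe_pow, Subgroup.coe_pow]
    exact conj_pow
  rw [h1, ← mul_assoc, inv_mul_cancel_right, mul_assoc, gB_pow, mul_assoc]

theorem period {f : ℍ → ℂ} (hf : MF 2 f) (n : ℕ) (z : ℍ) :
    f (((2 * n : ℕ) : ℝ) +ᵥ z) = f z := by
  rw [← PerAux.slash_T 2 f (2 * n) z, ← gA_pow, hf.inv _ (gA ^ n).2]

end PerAux

open PerAux

theorem per_zero (ρ : Gamma 2 →* G) (x : G) (hA : ρ gA = x) (p : ℕ) (hx : x ^ p = 1)
    (y : G ⧸ Subgroup.zpowers x) (z : ℍ) :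
    Ey ρ x y (((2 * p : ℕ) : ℝ) +ᵥ z) / fZ (((2 * p : ℕ) : ℝ) +ᵥ z) ^ 2 =
      Ey ρ x y z / fZ z ^ 2 := by
  have h1 : Ey ρ x y (((2 * p : ℕ) : ℝ) +ᵥ z) = Ey ρ x y z := by
    rw [← PerAux.slash_T 4 (Ey ρ x y) (2 * p) z, ← gA_pow, Ey_slash, map_pow, hA, hx, inv_one, one_smul]
  rw [h1, period fZ_MF]

theorem per_one (ρ : Gamma 2 →* G) (x x' : G) (hB : ρ gB = x') (q : ℕ) (hx : x' ^ q = 1)
    (y : G ⧸ Subgroup.zpowers x) (z : ℍ) :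
    (Ey ρ x y ∣[(4 : ℤ)] ModularGroup.S) (((2 * q : ℕ) : ℝ) +ᵥ z) /
        fZ (((2 * q : ℕ) : ℝ) +ᵥ z) ^ 2 =
      (Ey ρ x y ∣[(4 : ℤ)] ModularGroup.S) z / fZ z ^ 2 := by
  have h1 : (Ey ρ x y ∣[(4 : ℤ)] ModularGroup.S) (((2 * q : ℕ) : ℝ) +ᵥ z) =
      (Ey ρ x y ∣[(4 : ℤ)] ModularGroup.S) z := by
    rw [← PerAux.slash_T 4 (Ey ρ x y ∣[(4 : ℤ)] ModularGroup.S) (2 * q) z, ← SlashAction.slash_mul,
      ← gB_pow, SlashAction.slash_mul, Ey_slash, map_pow, hB, hx, inv_one, one_smul]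
  rw [h1, period fZ_MF]

theorem per_inf (ρ : Gamma 2 →* G) (x x' : G) (hA : ρ gA = x) (hB : ρ gB = x') (hN : ρ gN = 1)
    (r : ℕ) (hx : (x * x') ^ r = 1) (y : G ⧸ Subgroup.zpowers x) (z : ℍ) :
    (Ey ρ x y ∣[(4 : ℤ)] (ModularGroup.T * ModularGroup.S)) (((2 * r : ℕ) : ℝ) +ᵥ z) /
        fY (((2 * r : ℕ) : ℝ) +ᵥ z) ^ 2 =
      (Ey ρ x y ∣[(4 : ℤ)] (ModularGroup.T * ModularGroup.S)) z / fY z ^ 2 := by
  have h1 : (Ey ρ x y ∣[(4 : ℤ)] (ModularGroup.T * ModularGroup.S)) (((2 * r : ℕ) : ℝ) +ᵥ z) =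
      (Ey ρ x y ∣[(4 : ℤ)] (ModularGroup.T * ModularGroup.S)) z := by
    rw [← PerAux.slash_T 4 (Ey ρ x y ∣[(4 : ℤ)] (ModularGroup.T * ModularGroup.S)) (2 * r) z,
      ← SlashAction.slash_mul, ← gC_pow, SlashAction.slash_mul, Ey_slash, map_pow, gC_eq, map_mul,
      map_inv, map_mul, hN, hA, hB, one_mul, inv_pow, hx, inv_one, inv_one, one_smul]
  rw [h1, period fY_MF]

end Pool.Agent.UFC
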