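import Mathlib
import Pool.Agent.UFC.A.Th4
import Pool.Agent.UFC.A.MFa

/-!
# UFC A: division by `fX`

If `f` is `MF k` and tends to `0` at `i ∞` then `f / fX` is `MF (k - 2)`.
Holomorphy: `fX` has no zero.  Invariance: `ModularForm.div_slash_SL2`.
Boundedness of `(f / fX) ∣ γ = (f ∣ γ) / (fX ∣ γ)` at `i ∞`, by `theta_slash γ`:
if `fX ∣ γ = ± fY` or `± fZ` the denominator tends to `± 1`.
If `γ = δ` or `γ = δ T` with `δ ∈ Γ(2)`, then `fX ∣ γ = ± fX` and `f ∣ γ = f ∣ T^j` tends to `0`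
and has period `2` (it is invariant under `T^2`, `MF.slash`); so it is a function `F(q)` of
`q = e^(π i z)`, analytic at `0` with `F(0) = 0` (`UpperHalfPlane`/`Function.Periodic.cuspFunction`
with period `2`), hence `O(q)`, and `fX / q → 16`.
-/

set_option autoImplicit false

namespace Pool.Agent.UFC

open UpperHalfPlane CongruenceSubgroup Filter Topology
open scoped MatrixGroups Manifold ModularForm

namespace Str0Aux

theorem slash_T_apply (k : ℤ) (f : ℍ → ℂ) (z : ℍ) :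
    (f ∣[k] ModularGroup.T) z = f ((1 : ℝ) +ᵥ z) := by
  rw [ModularForm.SL_slash_apply, modular_T_smul]
  have : denom (ModularGroup.T : SL(2, ℤ)) z = 1 := by
    simp [denom, ModularGroup.T]
  rw [this, one_zpow, mul_one]

theorem slash_T2_apply (k : ℤ) (f : ℍ → ℂ) (z : ℍ) :
    (f ∣[k] (ModularGroup.T ^ 2)) z = f ((2 : ℝ) +ᵥ z) := by
  rw [pow_two, SlashAction.slash_mul, slash_T_apply, slash_T_apply]
  congr 1
  rw [vadd_vadd]
  norm_num

theorem T2_mem : (ModularGroup.T ^ 2 : SL(2, ℤ)) ∈ Gamma 2 := gA.2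

theorem per {k : ℤ} {f : ℍ → ℂ} (hf : MF k f) (z : ℍ) : f ((2 : ℝ) +ᵥ z) = f z := by
  rw [← slash_T2_apply k f z, hf.inv _ T2_mem]

theorem periodic {k : ℤ} {f : ℍ → ℂ} (hf : MF k f) :
    Function.Periodic (f ∘ ofComplex) ((2 : ℝ) : ℂ) := by
  intro w
  by_cases hw : 0 < w.im
  · have h2 : 0 < (w + ((2 : ℝ) : ℂ)).im := by simpa using hw
    simp only [Function.comp_apply, ofComplex_apply_of_im_pos h2, ofComplex_apply_of_im_pos hw]
    rw [← per hf ⟨w, hw⟩]
    congr 1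
    ext
    simp [add_comm]
  · have h2 : (w + ((2 : ℝ) : ℂ)).im ≤ 0 := by simpa using not_lt.1 hw
    simp only [Function.comp_apply, ofComplex_apply_of_im_nonpos h2,
      ofComplex_apply_of_im_nonpos (not_lt.1 hw)]

theorem norm_q2 (z : ℍ) : ‖q2 z‖ = Real.exp (-2 * Real.pi * z.im / 2) := by
  rw [q2, Complex.norm_exp]
  congr 1
  simp
  ring

theorem isBigO_q2 {k : ℤ} {f : ℍ → ℂ} (hf : MF k f) (h0 : IsZeroAtImInfty f) :
    f =O[atImInfty] q2 := by
  have h := h0.exp_decay_atImInfty (h := 2) two_pos (periodic hf) hf.holo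
    h0.isBoundedAtImInfty
  refine h.trans ?_
  refine Asymptotics.IsBigO.of_bound 1 (Eventually.of_forall fun z => ?_)
  rw [norm_q2, one_mul, Real.norm_eq_abs, abs_of_pos (Real.exp_pos _)]

theorem q2_isBigO : q2 =O[atImInfty] fX := by
  have h := fX_lim'
  exact (Asymptotics.isTheta_of_div_tendsto_nhds_ne_zero h (by norm_num)).1

theorem bdd_div {g h : ℍ → ℂ} (hgh : g =O[atImInfty] h) (hh : ∀ z, h z ≠ 0) :
    IsBoundedAtImInfty (fun z => g z / h z) := by
  obtain ⟨C, hC⟩ := hgh.bound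
  refine Asymptotics.IsBigO.of_bound C ?_
  filter_upwards [hC] with z hz
  rw [norm_div, div_le_iff₀ (norm_pos_iff.2 (hh z))]
  simpa using hz

theorem bdd_div' {g h : ℍ → ℂ} (hg : IsBoundedAtImInfty g) {c : ℂ} (hc : c ≠ 0)
    (hh : Tendsto h atImInfty (𝓝 c)) : IsBoundedAtImInfty (fun z => g z / h z) := by
  have h1 : IsBoundedAtImInfty (fun z => (h z)⁻¹) :=
    (hh.inv₀ hc).isBigO_one ℝ |>.trans (Asymptotics.isBigO_of_le _ fun z => by simp)
  have h2 : (fun z => g z / h z) = g * fun z => (h z)⁻¹ := by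
    ext z; simp [div_eq_mul_inv]
  rw [h2]
  exact hg.mul h1

end Str0Aux

open Str0Aux in
theorem MF.div_fX {k : ℤ} {f : ℍ → ℂ} (hf : MF k f) (h0 : IsZeroAtImInfty f) :
    MF (k - 2) (fun z => f z / fX z) := by
  have hslash : ∀ γ : SL(2, ℤ), (fun z => f z / fX z) ∣[k - 2] γ =
      fun z => (f ∣[k] γ) z / (fX ∣[(2 : ℤ)] γ) z := fun γ =>
    ModularForm.div_slash_SL2 k 2 γ f fX
  refine ⟨?_, ?_, ?_⟩
  · have h1 := hf.holo
    have h2 := fX_mdiff
    rw [UpperHalfPlane.mdifferentiable_iff] at h1 h2 ⊢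
    exact h1.div h2 (fun z _ => fX_ne _)
  · intro γ hγ
    rw [hslash, hf.inv γ hγ, fX_MF.inv γ hγ]
  · intro γ
    rw [hslash]
    have hb := hf.bdd γ
    rcases theta_slash γ with ⟨h1, _, δ, hδ, rfl⟩ | ⟨h1, _, δ, hδ, rfl⟩ | ⟨h1, _⟩ | ⟨h1, _⟩ |
      ⟨h1, _⟩ | ⟨h1, _⟩
    · rw [h1, hf.inv _ hδ]
      exact bdd_div ((isBigO_q2 hf h0).trans q2_isBigO) fX_ne
    · rw [h1]
      have hT : f ∣[k] (δ * ModularGroup.T) = f ∣[k] ModularGroup.T := by
        rw [SlashAction.slash_mul, hf.inv _ hδ]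
      have hz : IsZeroAtImInfty (f ∣[k] (δ * ModularGroup.T)) := by
        rw [hT]
        have h3 : Tendsto (fun z : ℍ => (1 : ℝ) +ᵥ z) atImInfty atImInfty := by
          rw [atImInfty, tendsto_comap_iff]
          have : UpperHalfPlane.im ∘ (fun z : ℍ => (1 : ℝ) +ᵥ z) = UpperHalfPlane.im := by
            ext z; simp
          rw [this]
          exact tendsto_comap
        have h4 : (f ∣[k] ModularGroup.T) = f ∘ (fun z : ℍ => (1 : ℝ) +ᵥ z) := by
          ext z
          exact slash_T_apply k f z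
        rw [h4]
        exact h0.comp h3
      have h5 : MF k (f ∣[k] (δ * ModularGroup.T)) := hf.slash _
      exact bdd_div (((isBigO_q2 h5 hz).trans q2_isBigO).neg_right)
        (fun z => neg_ne_zero.2 (fX_ne z))
    · rw [h1]
      exact bdd_div' hb (neg_ne_zero.2 one_ne_zero) fY_lim.neg
    · rw [h1]
      exact bdd_div' hb (neg_ne_zero.2 one_ne_zero) fZ_lim.neg
    · rw [h1]
      exact bdd_div' hb one_ne_zero fY_lim
    · rw [h1]
      exact bdd_div' hb one_ne_zero fZ_lim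

end Pool.Agent.UFC
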