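import Mathlib
import Pool.Agent.UFC.A.Cusp1
import Pool.Agent.UFC.A.Lam1
import Pool.Agent.UFC.A.MFb
import Pool.Agent.UFC.A.Str0

/-!
# UFC A: the modular forms of even weight for `Γ(2)`

Induction on `m`.  `m = 0`: `MF.weight_zero`.  Step: `f` (weight `2 (m + 1)`) has a limit `c` at
`i ∞` (it has period `2` and is bounded: cusp function; see `Cusp1.lean`, `periodic_exp`), `fZ^(m+1)`
tends to `1`, so `f - c fZ^(m+1)` tends to `0` and `(f - c fZ^(m+1)) / fX` is `MF (2 m)` by
`MF.div_fX`, hence equal to `fZ^m H(lam)`; and `fX = lam * fZ`.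
-/

set_option autoImplicit false

namespace Pool.Agent.UFC

open UpperHalfPlane CongruenceSubgroup Polynomial
open scoped MatrixGroups Manifold ModularForm

theorem MF.per_two {k : ℤ} {f : ℍ → ℂ} (hf : MF k f) (z : ℍ) :
    f (((2 * 1 : ℕ) : ℝ) +ᵥ z) = f z := by
  have h1 : (ModularGroup.T ^ (2 : ℤ) : SL(2, ℤ)) ∈ Gamma 2 := gA.2
  have h2 := congrFun (hf.inv _ h1) z
  rw [ModularForm.SL_slash_apply] at h2
  rw [UpperHalfPlane.modular_T_zpow_smul] at h2
  have h3 : denom (ModularGroup.T ^ (2 : ℤ) : SL(2, ℤ)) z = 1 := by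
    rw [ModularGroup.denom_apply, ModularGroup.coe_T_zpow]
    simp
  rw [h3] at h2
  simpa using h2

theorem MF.exists_lim {k : ℤ} {f : ℍ → ℂ} (hf : MF k f) :
    ∃ c : ℂ, Filter.Tendsto f atImInfty (nhds c) := by
  have hb : IsBoundedAtImInfty f := by
    have h := hf.bdd 1
    rwa [SlashAction.slash_one] at h
  obtain ⟨Φ, -, -, h⟩ := periodic_exp 1 one_pos f hf.holo hf.per_two hb
  exact ⟨Φ 0, h⟩

theorem MF.structure (m : ℕ) {f : ℍ → ℂ} (hf : MF (2 * m) f) :
    ∃ H : ℂ[X], H.natDegree ≤ m ∧ ∀ z, f z = fZ z ^ m * H.eval (lam z) := by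
  induction m generalizing f with
  | zero =>
    have h0 : MF 0 f := by
      have h := hf
      rw [Nat.cast_zero, mul_zero] at h
      exact h
    obtain ⟨c, hc⟩ := h0.weight_zero
    refine ⟨C c, by rw [natDegree_C], fun z => ?_⟩
    rw [hc z, pow_zero, one_mul, eval_C]
  | succ m ih =>
    obtain ⟨c, hc⟩ := hf.exists_lim
    have hZ : MF (2 * ((m + 1 : ℕ) : ℤ)) (fZ ^ (m + 1)) := by
      have h := fZ_MF.pow (m + 1)
      rwa [mul_comm] at h
    have hg := hf.add (hZ.smul (-c))
    have hl : Filter.Tendsto (f + (-c) • fZ ^ (m + 1)) atImInfty (nhds 0) := by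
      have h1 := hc.add ((fZ_lim.pow (m + 1)).const_mul (-c))
      have h2 : c + -c * 1 ^ (m + 1) = 0 := by
        rw [one_pow]
        ring
      rw [h2] at h1
      exact h1
    have hd := hg.div_fX hl
    have hw : 2 * ((m + 1 : ℕ) : ℤ) - 2 = 2 * (m : ℤ) := by
      push_cast
      ring
    rw [hw] at hd
    obtain ⟨H, hH1, hH2⟩ := ih hd
    refine ⟨C c + X * H, ?_, fun z => ?_⟩
    · refine (natDegree_add_le _ _).trans (max_le (by rw [natDegree_C]; exact Nat.zero_le _) ?_)
      refine natDegree_mul_le.trans ?_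
      have := natDegree_X_le (R := ℂ)
      omega
    · have h1 := hH2 z
      have h2 : (f + (-c) • fZ ^ (m + 1)) z = f z - c * fZ z ^ (m + 1) := by
        simp only [Pi.add_apply, Pi.smul_apply, Pi.pow_apply, smul_eq_mul]
        ring
      rw [h2, div_eq_iff (fX_ne z)] at h1
      have h3 : fX z = lam z * fZ z := by
        unfold lam
        rw [div_mul_cancel₀ _ (fZ_ne z)]
      have h4 : f z = c * fZ z ^ (m + 1) + fZ z ^ m * H.eval (lam z) * fX z := by
        rw [← h1]
        ring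
      rw [h4, eval_add, eval_mul, eval_C, eval_X]
      nth_rewrite 1 [h3]
      ring

end Pool.Agent.UFC
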