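import Mathlib
import Pool.Agent.UFC.A.Str

/-!
# UFC A: the polynomial with roots `F i / fZ^2`

Let `D = card ι` and `c_j z` the coefficient of `X^(D - j)` in `∏ i, (X - C (F i z))`.
It is a polynomial (homogeneous of degree `j`, up to sign the elementary symmetric function) in the
`F i z`.  For `γ ∈ Γ(2)`: `F i (γ z) = (cz+d)^4 F (σ i) z`, so
`∏ (X - C (F i (γ z))) = (∏ (X - C (F i z))).scaleRoots ((cz+d)^4)` and
`c_j (γ z) = (cz+d)^(4j) c_j z`.  For all `γ ∈ SL(2, ℤ)` the slash `c_j ∣[4j] γ` is the same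
polynomial in the bounded functions `F i ∣[4] γ`.  So `c_j` is `MF (2 (2 j))` and by `MF.structure`
`c_j z = fZ z^(2j) H_j(lam z)`, `natDegree H_j ≤ 2 j`.  Put `P = X^D + ∑_{j ≥ 1} C (H_j) X^(D - j)`;
then `ev (lam z) P = ∏ (X - C (F i z / fZ z^2))` (compare coefficients).
-/

set_option autoImplicit false

namespace Pool.Agent.UFC

open UpperHalfPlane CongruenceSubgroup Polynomial
open scoped MatrixGroups Manifold ModularForm

/-- The elementary symmetric functions of a family of functions. -/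
noncomputable def symF {ι : Type} [Fintype ι] (F : ι → ℍ → ℂ) (j : ℕ) (z : ℍ) : ℂ :=
  ∑ t ∈ Finset.univ.powersetCard j, ∏ i ∈ t, F i z

theorem symF_slash {ι : Type} [Fintype ι] (F : ι → ℍ → ℂ) (j : ℕ) (γ : SL(2, ℤ)) :
    symF F j ∣[(2 : ℤ) * ((2 * j : ℕ) : ℤ)] γ = symF (fun i => F i ∣[(4 : ℤ)] γ) j := by
  funext z
  rw [ModularForm.SL_slash_apply]
  unfold symF
  rw [Finset.sum_mul]
  refine Finset.sum_congr rfl fun t ht => ?_
  have hc : t.card = j := (Finset.mem_powersetCard.mp ht).2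
  simp only [ModularForm.SL_slash_apply]
  rw [Finset.prod_mul_distrib, Finset.prod_const, hc]
  congr 1
  rw [← zpow_natCast, ← zpow_mul]
  congr 1
  push_cast
  ring

theorem symF_perm {ι : Type} [Fintype ι] (F : ι → ℍ → ℂ) (j : ℕ) (σ : Equiv.Perm ι) :
    symF (fun i => F (σ i)) j = symF F j := by
  classical
  funext z
  unfold symF
  rw [← Finset.esymm_map_val (fun i => F (σ i) z), ← Finset.esymm_map_val (fun i => F i z)]
  congr 1
  have h : (Finset.univ : Finset ι).val.map σ = (Finset.univ : Finset ι).val := by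
    have h1 := congrArg Finset.val (Finset.map_univ_equiv σ)
    rwa [Finset.map_val] at h1
  conv_rhs => rw [← h]
  rw [Multiset.map_map]
  rfl

theorem symF_mdiff {ι : Type} [Fintype ι] (F : ι → ℍ → ℂ) (hF : ∀ i, MDiff (F i)) (j : ℕ) :
    MDiff (symF F j) := by
  have hF' := fun i => UpperHalfPlane.mdifferentiable_iff.mp (hF i)
  rw [UpperHalfPlane.mdifferentiable_iff]
  have h : (symF F j ∘ ofComplex) = fun w =>
      ∑ t ∈ Finset.univ.powersetCard j, ∏ i ∈ t, (F i ∘ ofComplex) w := by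
    funext w
    rfl
  rw [h]
  refine DifferentiableOn.fun_sum fun t _ => ?_
  refine DifferentiableOn.fun_finsetProd fun i _ => hF' i

theorem symF_bdd {ι : Type} [Fintype ι] (F : ι → ℍ → ℂ) (hF : ∀ i, IsBoundedAtImInfty (F i))
    (j : ℕ) : IsBoundedAtImInfty (symF F j) := by
  classical
  have h : symF F j = ∑ t ∈ Finset.univ.powersetCard j, ∏ i ∈ t, F i := by
    funext z
    rw [Finset.sum_apply]
    refine Finset.sum_congr rfl fun t _ => ?_
    rw [Finset.prod_apply]
  rw [h]
  have key : ∀ s : Finset (Finset ι), IsBoundedAtImInfty (∑ t ∈ s, ∏ i ∈ t, F i) := by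
    intro s
    induction s using Finset.induction_on with
    | empty =>
      rw [Finset.sum_empty]
      exact Filter.const_boundedAtFilter _ (0 : ℂ)
    | insert a s ha ih =>
      rw [Finset.sum_insert ha]
      refine Filter.BoundedAtFilter.add ?_ ih
      exact Filter.BoundedAtFilter.prod a fun i _ => hF i
  exact key _

theorem symF_MF {ι : Type} [Fintype ι] (F : ι → ℍ → ℂ) (hF : ∀ i, MDiff (F i))
    (hinv : ∀ γ ∈ Gamma 2, ∃ σ : Equiv.Perm ι, ∀ i, F i ∣[(4 : ℤ)] γ = F (σ i))
    (hb : ∀ i, ∀ γ : SL(2, ℤ), IsBoundedAtImInfty (F i ∣[(4 : ℤ)] γ)) (j : ℕ) :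
    MF (2 * ((2 * j : ℕ) : ℤ)) (symF F j) where
  holo := symF_mdiff F hF j
  inv γ hγ := by
    obtain ⟨σ, hσ⟩ := hinv γ hγ
    rw [symF_slash]
    have h : (fun i => F i ∣[(4 : ℤ)] γ) = fun i => F (σ i) := funext hσ
    rw [h, symF_perm]
  bdd γ := by
    rw [symF_slash]
    exact symF_bdd _ (fun i => hb i γ) j

theorem exists_P (ι : Type) [Fintype ι] (F : ι → ℍ → ℂ) (hF : ∀ i, MDiff (F i))
    (hinv : ∀ γ ∈ Gamma 2, ∃ σ : Equiv.Perm ι, ∀ i, F i ∣[(4 : ℤ)] γ = F (σ i))
    (hb : ∀ i, ∀ γ : SL(2, ℤ), IsBoundedAtImInfty (F i ∣[(4 : ℤ)] γ)) :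
    ∃ P : ℂ[X][X], P.Monic ∧ P.natDegree = Fintype.card ι ∧
      (∀ j, (P.coeff j).natDegree ≤ 2 * (Fintype.card ι - j)) ∧
      ∀ z : ℍ, ev (lam z) P = ∏ i, (X - C (F i z / fZ z ^ 2)) := by
  classical
  have hH := fun j => MF.structure (2 * j) (symF_MF F hF hinv hb j)
  choose H hH1 hH2 using hH
  set D := Fintype.card ι with hD
  have hH0 : H 0 = 1 := by
    have h1 := hH1 0
    have h2 := hH2 0 I
    have h3 : symF F 0 I = 1 := by
      unfold symF
      simp
    obtain ⟨a, ha⟩ : ∃ a, H 0 = C a := ⟨_, eq_C_of_natDegree_le_zero (by simpa using h1)⟩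
    rw [h3, ha] at h2
    simp only [mul_zero, pow_zero, one_mul, eval_C] at h2
    rw [ha, ← h2, C_1]
  let P : ℂ[X][X] := ∑ k ∈ Finset.range (D + 1), monomial k ((-1) ^ (D - k) * H (D - k))
  have hcoe : ∀ k, P.coeff k = if k < D + 1 then (-1) ^ (D - k) * H (D - k) else 0 := by
    intro k
    simp only [P, finsetSum_coeff, coeff_monomial]
    rw [Finset.sum_ite_eq' (Finset.range (D + 1)) k]
    simp only [Finset.mem_range]
  have hcD : P.coeff D = 1 := by
    rw [hcoe, if_pos (Nat.lt_succ_self D), Nat.sub_self, hH0]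
    simp
  have hdeg : P.natDegree = D := by
    refine le_antisymm ?_ (le_natDegree_of_ne_zero (by rw [hcD]; exact one_ne_zero))
    rw [natDegree_le_iff_coeff_eq_zero]
    intro k hk
    rw [hcoe, if_neg (by omega)]
  refine ⟨P, ?_, hdeg, ?_, ?_⟩
  · rw [Monic, leadingCoeff, hdeg, hcD]
  · intro k
    rw [hcoe]
    split_ifs with h
    · refine natDegree_mul_le.trans ?_
      have h1 : ((-1 : ℂ[X]) ^ (D - k)).natDegree = 0 := by
        have h2 : (-1 : ℂ[X]) ^ (D - k) = C ((-1) ^ (D - k)) := by simp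
        rw [h2, natDegree_C]
      rw [h1, zero_add]
      exact hH1 _
    · simp
  · intro z
    have hZ : fZ z ≠ 0 := fZ_ne z
    ext k
    have h1 : (∏ i, (X - C (F i z / fZ z ^ 2))) =
        ((Finset.univ.val.map fun i => F i z / fZ z ^ 2).map fun t => X - C t).prod := by
      rw [Multiset.map_map]
      rfl
    have hcard : Multiset.card (Finset.univ.val.map fun i => F i z / fZ z ^ 2) = D := by
      rw [Multiset.card_map]
      rfl
    have h2 : (ev (lam z) P).coeff k = (P.coeff k).eval (lam z) := by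
      unfold ev
      rw [coeff_map]
      rfl
    rw [h2, hcoe, h1]
    split_ifs with h
    · rw [Multiset.prod_X_sub_C_coeff _ (by rw [hcard]; omega), hcard, Finset.esymm_map_val]
      rw [eval_mul]
      have h3 : ((-1 : ℂ[X]) ^ (D - k)).eval (lam z) = (-1) ^ (D - k) := by
        simp
      rw [h3]
      congr 1
      have h4 := hH2 (D - k) z
      have h5 : (∑ t ∈ Finset.powersetCard (D - k) Finset.univ, ∏ i ∈ t, F i z / fZ z ^ 2) =
          symF F (D - k) z / fZ z ^ (2 * (D - k)) := by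
        unfold symF
        rw [Finset.sum_div]
        refine Finset.sum_congr rfl fun t ht => ?_
        have hc : t.card = D - k := (Finset.mem_powersetCard.mp ht).2
        rw [Finset.prod_div_distrib, Finset.prod_const, hc, ← pow_mul]
      rw [h5, h4, mul_div_cancel_left₀ _ (pow_ne_zero _ hZ)]
    · rw [eval_zero]
      symm
      refine coeff_eq_zero_of_natDegree_lt ?_
      refine lt_of_le_of_lt (natDegree_multiset_prod_X_sub_C_eq_card _).le ?_
      rw [hcard]
      omega

end Pool.Agent.UFC
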