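import Mathlib
import Pool.Agent.UFC.A.Defs
import Pool.Agent.UFC.A.FreeA
import Pool.Agent.UFC.A.FreeB

/-!
# UFC A: homomorphisms from `Γ(2)` to a group with two given elements

By `free_inj` and `gamma2_gen` the homomorphism from the free group to `Γ(2) / {1, -1}` is bijective
(`{1, gN}` is a central subgroup, `gN * gN = 1`).  Compose its inverse with `FreeGroup.lift`.
(Alternative without quotients: every `γ ∈ Γ(2)` is `freeHom w` or `gN * freeHom w` for a unique `w`;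
define `ρ γ` as the image of `w`.)
-/

set_option autoImplicit false

namespace Pool.Agent.UFC

open UpperHalfPlane CongruenceSubgroup
open scoped MatrixGroups Manifold ModularForm

theorem Rho.gN_mul_self : gN * gN = 1 := by
  apply Subtype.ext
  show (-1 : SL(2, ℤ)) * (-1) = 1
  simp

theorem Rho.gN_comm (γ : Gamma 2) : γ * gN = gN * γ := by
  apply Subtype.ext
  show (γ : SL(2, ℤ)) * (-1) = (-1) * (γ : SL(2, ℤ))
  simp

/-- `w` is the word of `γ` up to sign. -/
def Rho.R (γ : Gamma 2) (w : FreeGroup Bool) : Prop := γ = freeHom w ∨ γ = gN * freeHom w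

theorem Rho.R_mul {γ δ : Gamma 2} {w v : FreeGroup Bool} (h1 : Rho.R γ w) (h2 : Rho.R δ v) :
    Rho.R (γ * δ) (w * v) := by
  unfold Rho.R at *
  rw [map_mul]
  rcases h1 with rfl | rfl <;> rcases h2 with rfl | rfl
  · left; rfl
  · right
    rw [← mul_assoc, Rho.gN_comm, mul_assoc]
  · right
    rw [mul_assoc]
  · left
    rw [mul_assoc, ← mul_assoc (freeHom w), Rho.gN_comm (freeHom w), mul_assoc, ← mul_assoc gN,
      Rho.gN_mul_self, one_mul]

theorem Rho.R_inv {γ : Gamma 2} {w : FreeGroup Bool} (h : Rho.R γ w) : Rho.R γ⁻¹ w⁻¹ := by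
  have hN : gN⁻¹ = gN := inv_eq_of_mul_eq_one_left Rho.gN_mul_self
  unfold Rho.R at *
  rw [map_inv]
  rcases h with rfl | rfl
  · left; rfl
  · right
    rw [mul_inv_rev, hN, Rho.gN_comm]

theorem Rho.R_one {w : FreeGroup Bool} (h : Rho.R 1 w) : w = 1 := by
  apply free_inj
  rcases h with h | h
  · left; exact h.symm
  · right
    have h2 : gN * 1 = gN * (gN * freeHom w) := by rw [← h]
    rw [mul_one, ← mul_assoc, Rho.gN_mul_self, one_mul] at h2
    exact h2.symm

theorem Rho.R_unique {γ : Gamma 2} {w v : FreeGroup Bool} (h1 : Rho.R γ w) (h2 : Rho.R γ v) :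
    w = v := by
  have h3 := Rho.R_mul h1 (Rho.R_inv h2)
  rw [mul_inv_cancel] at h3
  exact mul_inv_eq_one.mp (Rho.R_one h3)

theorem Rho.R_one' : Rho.R 1 1 := by
  left
  rw [map_one]

theorem Rho.R_A : Rho.R gA (FreeGroup.of true) := by
  left
  simp [freeHom]

theorem Rho.R_B : Rho.R gB (FreeGroup.of false) := by
  left
  simp [freeHom]

theorem Rho.R_N : Rho.R gN 1 := by
  right
  rw [map_one, mul_one]

theorem Rho.R_exists (γ : Gamma 2) : ∃ w, Rho.R γ w := by
  have h : γ ∈ Subgroup.closure ({gA, gB, gN} : Set (Gamma 2)) := by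
    rw [gamma2_gen]; trivial
  refine Subgroup.closure_induction (p := fun g _ => ∃ w, Rho.R g w) ?_ ?_ ?_ ?_ h
  · rintro x (rfl | rfl | rfl)
    · exact ⟨_, Rho.R_A⟩
    · exact ⟨_, Rho.R_B⟩
    · exact ⟨_, Rho.R_N⟩
  · exact ⟨1, Rho.R_one'⟩
  · rintro x y _ _ ⟨w, hw⟩ ⟨v, hv⟩
    exact ⟨w * v, Rho.R_mul hw hv⟩
  · rintro x _ ⟨w, hw⟩
    exact ⟨w⁻¹, Rho.R_inv hw⟩

theorem exists_rho (G : Type) [Group G] (x y : G) :
    ∃ ρ : Gamma 2 →* G, ρ gA = x ∧ ρ gB = y ∧ ρ gN = 1 := by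
  choose W hW using Rho.R_exists
  let Wh : Gamma 2 →* FreeGroup Bool := MonoidHom.mk' W (fun a b =>
    Rho.R_unique (hW (a * b)) (Rho.R_mul (hW a) (hW b)))
  have hWh : ∀ γ, Wh γ = W γ := fun γ => rfl
  refine ⟨(FreeGroup.lift (fun b : Bool => if b then x else y)).comp Wh, ?_, ?_, ?_⟩
  · rw [MonoidHom.comp_apply, hWh, Rho.R_unique (hW gA) Rho.R_A]
    simp
  · rw [MonoidHom.comp_apply, hWh, Rho.R_unique (hW gB) Rho.R_B]
    simp
  · rw [MonoidHom.comp_apply, hWh, Rho.R_unique (hW gN) Rho.R_N]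
    simp

end Pool.Agent.UFC
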