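import Mathlib
import Pool.Agent.UFC.A.Defs

/-!
# UFC A: small lemmas for the assembly
-/

set_option autoImplicit false

namespace Pool.Agent.UFC

open UpperHalfPlane CongruenceSubgroup Filter Topology
open scoped MatrixGroups Manifold ModularForm

theorem mdiff_div' {f g : ℍ → ℂ} (hf : MDiff f) (hg : MDiff g) (h : ∀ z, g z ≠ 0) :
    MDiff (fun z => f z / g z) := by
  rw [UpperHalfPlane.mdifferentiable_iff] at hf hg ⊢
  exact hf.div hg (fun z _ => h _)

theorem mdiff_pow' {f : ℍ → ℂ} (hf : MDiff f) (n : ℕ) : MDiff (fun z => f z ^ n) := by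
  rw [UpperHalfPlane.mdifferentiable_iff] at hf ⊢
  exact hf.pow n

/-- The value of a quotient at `γ z`. -/
theorem div_smul_eq {k l : ℤ} (f g : ℍ → ℂ) (m : ℕ) (hm : k = l * m) (γ : SL(2, ℤ)) (z : ℍ) :
    f (γ • z) / g (γ • z) ^ m = (f ∣[k] γ) z / (g ∣[l] γ) z ^ m := by
  rw [ModularForm.SL_slash_apply, ModularForm.SL_slash_apply, mul_pow, hm]
  have h1 : (denom γ z : ℂ) ≠ 0 := denom_ne_zero _ _
  have h2 : (denom γ z ^ (-l)) ^ m = denom γ z ^ (-(l * m)) := by
    rw [← zpow_natCast, ← zpow_mul]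
    congr 1
    ring
  rw [h2]
  rw [mul_div_mul_right _ _ (zpow_ne_zero _ h1)]

end Pool.Agent.UFC
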